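import Mathlib
import Pool.Agent.Helper26.VC.Cycles

/-!
# Places of function fields over an algebraically closed field of any characteristic

The places are those of `VC.Place`; here the basic facts are proved without any hypothesis on
the characteristic.
-/

namespace FF

open VC Polynomial IntermediateField WithZero IsDedekindDomain

universe u

section lemA

variable {k F : Type*} [Field k] [Field F] [Algebra k F]

/-- Elements of a `k`-subalgebra `R ∋ t` which are independent modulo `t R` are independent over
`k(t)`. -/
theorem linearIndependent_of_mod (t : F) (ht : Transcendental k t) (R : Subring F)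
    (hk : ∀ a : k, algebraMap k F a ∈ R) (htR : t ∈ R) {ι : Type*} [Fintype ι] (z : ι → F)
    (hz : ∀ i, z i ∈ R)
    (hind : ∀ c : ι → k, (∃ r ∈ R, ∑ i, algebraMap k F (c i) * z i = t * r) → ∀ i, c i = 0) :
    @LinearIndependent ι (RatFunc k) F z _ _ (ratAlg t ht).toModule := by
  let i1 : Algebra k[X] F := polyAlg t
  let i3 : Algebra (RatFunc k) F := ratAlg t ht
  have s1 : IsScalarTower k k[X] F := IsScalarTower.of_algebraMap_eq (fun x =>
    (aeval t : k[X] →ₐ[k] F).commutes x |>.symm)
  have s3 : IsScalarTower k[X] (RatFunc k) F := IsScalarTower.of_algebraMap_eq (fun x =>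
    (ratAlg_poly t ht x).symm)
  rw [← LinearIndependent.iff_fractionRing (R := k[X]) (K := RatFunc k)]
  have ht0 : t ≠ 0 := by
    rintro rfl
    exact ht (isAlgebraic_zero)
  have hX : algebraMap k[X] F X = t := by
    change aeval t X = t
    simp
  have hpoly : ∀ p : k[X], aeval t p ∈ R := by
    intro p
    rw [aeval_eq_sum_range]
    apply R.sum_mem
    intro i _
    rw [Algebra.smul_def]
    exact R.mul_mem (hk _) (R.pow_mem htR i)
  rw [Fintype.linearIndependent_iff]
  -- strong induction on the degree bound: any relation is divisible by `X`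
  have key : ∀ n : ℕ, ∀ g : ι → k[X], (∑ i, g i • z i = 0) → (∀ i, (g i).natDegree < n) →
      ∀ i, g i = 0 := by
    intro n
    induction n with
    | zero => intro g _ hdeg i; exact absurd (hdeg i) (by omega)
    | succ n ih =>
      intro g hg hdeg
      have hsm : ∀ i, g i • z i = aeval t (g i) * z i := by
        intro i
        rw [Algebra.smul_def]
        rfl
      have hdecomp : ∀ i, g i = X * (g i).divX + C ((g i).coeff 0) := by
        intro i
        exact (X_mul_divX_add (g i)).symm
      have hcoeff : ∀ i, (g i).coeff 0 = 0 := by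
        apply hind
        refine ⟨- ∑ i, aeval t (g i).divX * z i, R.neg_mem (R.sum_mem fun i _ =>
          R.mul_mem (hpoly _) (hz i)), ?_⟩
        have h0 : ∑ i, (t * (aeval t (g i).divX * z i) + algebraMap k F ((g i).coeff 0) * z i) = 0 := by
          rw [← hg]
          apply Finset.sum_congr rfl
          intro i _
          rw [hsm]
          conv_rhs => rw [hdecomp i]
          rw [map_add, map_mul, aeval_X, aeval_C]
          ring
        rw [Finset.sum_add_distrib, ← Finset.mul_sum] at h0
        linear_combination h0
      have h1 : ∀ i, g i = X * (g i).divX := by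
        intro i
        conv_lhs => rw [hdecomp i, hcoeff i, C_0, add_zero]
      have h2 : ∑ i, (g i).divX • z i = 0 := by
        have h3 : t * ∑ i, (g i).divX • z i = 0 := by
          rw [Finset.mul_sum, ← hg]
          apply Finset.sum_congr rfl
          intro i _
          conv_rhs => rw [h1 i]
          rw [mul_smul, Algebra.smul_def X, hX]
        rcases mul_eq_zero.mp h3 with h | h
        · exact absurd h ht0
        · exact h
      by_cases hn : n = 0
      · subst hn
        intro i
        have h4 : (g i).natDegree = 0 := by have := hdeg i; omega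
        rw [eq_C_of_natDegree_eq_zero h4, hcoeff i, C_0]
      · intro i
        rw [h1 i, ih (fun i => (g i).divX) h2 (by
          intro i
          rw [natDegree_divX_eq_natDegree_tsub_one]
          have := hdeg i
          omega) i, mul_zero]
  intro g hg
  exact key ((Finset.univ.sup fun i => (g i).natDegree) + 1) g hg (by
    intro i
    have := Finset.le_sup (f := fun i => (g i).natDegree) (Finset.mem_univ i)
    omega)

/-- Elements of a `k`-subalgebra `R ∋ t` which are independent modulo `t R` are at most
`[F : k(t)]` in number. -/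
theorem card_le_of_mod (t : F) (ht : Transcendental k t) (hfin : FiniteDimensional k⟮t⟯ F)
    (R : Subring F)
    (hk : ∀ a : k, algebraMap k F a ∈ R) (htR : t ∈ R) {ι : Type*} [Fintype ι] (z : ι → F)
    (hz : ∀ i, z i ∈ R)
    (hind : ∀ c : ι → k, (∃ r ∈ R, ∑ i, algebraMap k F (c i) * z i = t * r) → ∀ i, c i = 0) :
    Fintype.card ι ≤ Module.finrank k⟮t⟯ F := by
  have h := linearIndependent_of_mod t ht R hk htR z hz hind
  let i3 : Algebra (RatFunc k) F := ratAlg t ht
  have h1 : FiniteDimensional (RatFunc k) F := finiteDimensional_ratAlg t ht hfin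
  have h2 := h.fintype_card_le_finrank
  have h3 : Module.finrank (RatFunc k) F = Module.finrank k⟮t⟯ F := by
    refine Algebra.finrank_eq_of_equiv_equiv (RatFunc.algEquivOfTranscendental t ht).toRingEquiv
      (RingEquiv.refl F) ?_
    ext x
    rfl
  rwa [h3] at h2

end lemA

section val

variable {k F : Type*} [Field k] [IsAlgClosed k] [Field F] [Algebra k F]

/-- the valuation ring of a place is a `k`-algebra -/
@[reducible] noncomputable def ringAlg (P : Place k F) : Algebra k P.ring :=
  ((algebraMap k F).codRestrict P.ring.toSubring P.algebraMap_mem).toAlgebra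

omit [IsAlgClosed k] in
lemma exists_nonunit (P : Place k F) : ∃ t : F, t ≠ 0 ∧ t ∈ P.ring.nonunits := by
  obtain ⟨x, hx⟩ : ∃ x : F, x ∉ P.ring := by
    by_contra hcon
    push Not at hcon
    exact P.ne_top (eq_top_iff.mpr (fun x _ => hcon x))
  have hx0 : x ≠ 0 := by
    rintro rfl
    exact hx P.ring.zero_mem
  refine ⟨x⁻¹, inv_ne_zero hx0, ?_⟩
  rw [ValuationSubring.inv_mem_nonunits_iff]
  exact Or.inr hx

theorem isNoetherianRing (hF : IsFunctionField k F) (P : Place k F) : IsNoetherianRing P.ring := by
  rw [isNoetherianRing_iff_ideal_fg]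
  intro I
  by_cases hI : I = ⊥
  · rw [hI]; exact Submodule.fg_bot
  by_cases hI' : I = ⊤
  · rw [hI']; exact Module.Finite.fg_top
  obtain ⟨t, htI, ht0⟩ := Submodule.exists_mem_ne_zero_of_ne_bot hI
  have ht0' : (t : F) ≠ 0 := fun h => ht0 (Subtype.ext h)
  have htn : (t : F) ∈ P.ring.nonunits := by
    rw [ValuationSubring.coe_mem_nonunits_iff]
    exact IsLocalRing.le_maximalIdeal hI' htI
  have htr := transcendental_of_mem_nonunits P ht0' htn
  have hfin := hF.finiteDimensional htr
  let a1 : Algebra k P.ring := ringAlg P
  -- the quotient by `t` is finite-dimensional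
  have hmod : Module.Finite k (P.ring ⧸ Ideal.span {t}) := by
    have hrank : Module.rank k (P.ring ⧸ Ideal.span {t}) ≤ (Module.finrank k⟮(t : F)⟯ F : ℕ) := by
      apply _root_.rank_le
      intro s hs
      obtain ⟨z, hz⟩ : ∃ z : (P.ring ⧸ Ideal.span {t}) → P.ring,
          ∀ q, Ideal.Quotient.mk (Ideal.span {t}) (z q) = q :=
        ⟨fun q => (Ideal.Quotient.mk_surjective q).choose,
          fun q => (Ideal.Quotient.mk_surjective q).choose_spec⟩
      have h := card_le_of_mod (t : F) htr hfin P.ring.toSubring P.algebraMap_mem t.2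
        (fun i : s => (z i : F)) (fun i => (z i).2) (by
          rintro c ⟨r, hr, hcr⟩
          rw [Fintype.linearIndependent_iff] at hs
          apply hs c
          have h1 : (∑ i : s, c i • z i) = t * ⟨r, hr⟩ := by
            apply Subtype.ext
            push_cast
            rw [← hcr]
            apply Finset.sum_congr rfl
            intro i _
            rfl
          have h2 := congrArg (Ideal.Quotient.mk (Ideal.span {t})) h1
          rw [map_sum, map_mul] at h2
          have h3 : Ideal.Quotient.mk (Ideal.span {t}) t = 0 := by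
            rw [Ideal.Quotient.eq_zero_iff_mem]
            exact Ideal.mem_span_singleton_self t
          rw [h3, zero_mul] at h2
          rw [← h2]
          apply Finset.sum_congr rfl
          intro i _
          rw [← hz i.1]
          rw [hz i.1]
          conv_lhs => rw [← hz i.1]
          rfl)
      rw [Fintype.card_coe] at h
      exact h
    rw [← Module.rank_lt_aleph0_iff]
    exact lt_of_le_of_lt hrank (Cardinal.natCast_lt_aleph0)
  have hN : IsNoetherianRing (P.ring ⧸ Ideal.span {t}) := IsNoetherianRing.of_finite k _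
  apply Ideal.fg_of_fg_map_of_fg_inf_ker_of_surjective (f := Ideal.Quotient.mk (Ideal.span {t}))
  · exact IsNoetherian.noetherian _
  · rw [Ideal.mk_ker]
    have : I ⊓ Ideal.span {t} = Ideal.span {t} := by
      rw [inf_eq_right, Ideal.span_le]
      simpa using htI
    rw [this]
    exact ⟨{t}, by simp⟩
  · exact Ideal.Quotient.mk_surjective

theorem isDVR (hF : IsFunctionField k F) (P : Place k F) : IsDiscreteValuationRing P.ring := by
  have := isNoetherianRing hF P
  have hnf : ¬ IsField P.ring := by
    intro h
    obtain ⟨t, ht0, ht⟩ := exists_nonunit P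
    have htm : t ∈ P.ring := ValuationSubring.nonunits_subset ht
    obtain ⟨y, hy⟩ := h.mul_inv_cancel (a := (⟨t, htm⟩ : P.ring)) (by
      intro h0
      exact ht0 (congrArg Subtype.val h0))
    have h1 : IsUnit (⟨t, htm⟩ : P.ring) := IsUnit.of_mul_eq_one y hy
    have h2 : (⟨t, htm⟩ : P.ring) ∈ IsLocalRing.maximalIdeal P.ring := by
      rw [← ValuationSubring.coe_mem_nonunits_iff]
      exact ht
    exact h2 h1
  have h3 : IsDiscreteValuationRing P.ring ↔ ValuationRing P.ring :=
    (IsDiscreteValuationRing.TFAE P.ring hnf).out 0 1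
  exact h3.mpr inferInstance

/-- Every place of a function field comes from a discrete valuation. -/
theorem exists_valuation (hF : IsFunctionField k F) (P : Place k F) :
    ∃ w : Valuation F (WithZero (Multiplicative ℤ)), w.valuationSubring = P.ring ∧
      ∃ π, w π = exp (-1 : ℤ) := by
  have := isDVR hF P
  let v : HeightOneSpectrum P.ring := IsDiscreteValuationRing.maximalIdeal P.ring
  refine ⟨v.valuation F, ?_, v.valuation_exists_uniformizer F⟩
  ext x
  rw [Valuation.mem_valuationSubring_iff]
  constructor
  · intro hx
    obtain ⟨n, d, hnd⟩ := HeightOneSpectrum.exists_primeCompl_mul_eq_of_integer v x hx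
    have hd : IsUnit (d : P.ring) := by
      by_contra hcon
      exact d.2 ((IsLocalRing.mem_maximalIdeal _).mpr hcon)
    obtain ⟨e, he⟩ := hd.exists_right_inv
    have h1 : x = algebraMap P.ring F (n * e) := by
      rw [map_mul, ← hnd, mul_assoc, ← map_mul, he, map_one, mul_one]
    rw [h1]
    exact (n * e).2
  · intro hx
    exact v.valuation_le_one (K := F) ⟨x, hx⟩

/-- the discrete valuation of a place -/
noncomputable def val (hF : IsFunctionField k F) (P : Place k F) :
    Valuation F (WithZero (Multiplicative ℤ)) := (exists_valuation hF P).choose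

variable (hF : IsFunctionField k F)

lemma val_ring (P : Place k F) : (val hF P).valuationSubring = P.ring :=
  (exists_valuation hF P).choose_spec.1

lemma exists_val_pi (P : Place k F) : ∃ π, val hF P π = exp (-1 : ℤ) :=
  (exists_valuation hF P).choose_spec.2

lemma val_eq_exp (P : Place k F) {f : F} (hf : f ≠ 0) : val hF P f = exp (- ord P.ring f) := by
  obtain ⟨π, hπ⟩ := exists_val_pi hF P
  exact valuation_eq_exp_ord (val_ring hF P) hπ hf

lemma val_le_one_iff (P : Place k F) (f : F) : val hF P f ≤ 1 ↔ f ∈ P.ring := by
  rw [← val_ring hF P, Valuation.mem_valuationSubring_iff]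

lemma val_lt_one_iff (P : Place k F) (f : F) : val hF P f < 1 ↔ f ∈ P.ring.nonunits :=
  (mem_nonunits_of_valuation (val_ring hF P) f).symm

lemma ord_eq_iff (P : Place k F) {f : F} (hf : f ≠ 0) (n : ℤ) :
    ord P.ring f = n ↔ val hF P f = exp (-n) := by
  rw [val_eq_exp hF P hf, exp_inj, neg_inj]

include hF

lemma ord_nonneg_iff (P : Place k F) {f : F} (hf : f ≠ 0) :
    0 ≤ ord P.ring f ↔ f ∈ P.ring := by
  rw [← val_le_one_iff hF, val_eq_exp hF P hf, ← exp_zero, exp_le_exp]
  omega

lemma ord_pos_iff (P : Place k F) {f : F} (hf : f ≠ 0) :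
    0 < ord P.ring f ↔ f ∈ P.ring.nonunits := by
  rw [← val_lt_one_iff hF, val_eq_exp hF P hf, ← exp_zero, exp_lt_exp]
  omega

lemma ord_mul (P : Place k F) {f g : F} (hf : f ≠ 0) (hg : g ≠ 0) :
    ord P.ring (f * g) = ord P.ring f + ord P.ring g := by
  have h := map_mul (val hF P) f g
  rw [val_eq_exp hF P hf, val_eq_exp hF P hg,
    val_eq_exp hF P (mul_ne_zero hf hg), ← exp_add, exp_inj] at h
  omega

lemma ord_one (P : Place k F) : ord P.ring (1 : F) = 0 := by
  have h := ord_mul hF P (one_ne_zero (α := F)) (one_ne_zero (α := F))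
  rw [mul_one] at h
  omega

lemma ord_inv (P : Place k F) {f : F} (hf : f ≠ 0) :
    ord P.ring f⁻¹ = - ord P.ring f := by
  have h := ord_mul hF P hf (inv_ne_zero hf)
  rw [mul_inv_cancel₀ hf, ord_one hF P] at h
  omega

lemma ord_div (P : Place k F) {f g : F} (hf : f ≠ 0) (hg : g ≠ 0) :
    ord P.ring (f / g) = ord P.ring f - ord P.ring g := by
  rw [div_eq_mul_inv, ord_mul hF P hf (inv_ne_zero hg), ord_inv hF P hg]
  ring

lemma ord_algebraMap (P : Place k F) {a : k} (ha : a ≠ 0) :
    ord P.ring (algebraMap k F a) = 0 := by
  have ha' : algebraMap k F a ≠ 0 := (_root_.map_ne_zero _).mpr ha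
  have h1 := (ord_nonneg_iff hF P ha').mpr (P.algebraMap_mem a)
  have h2 := (ord_nonneg_iff hF P (f := (algebraMap k F a)⁻¹) (inv_ne_zero ha')).mpr (by
    rw [← map_inv₀]; exact P.algebraMap_mem _)
  rw [ord_inv hF P ha'] at h2
  omega

lemma ord_neg (P : Place k F) {f : F} (hf : f ≠ 0) : ord P.ring (-f) = ord P.ring f := by
  have h1 : -f = algebraMap k F (-1) * f := by simp
  rw [h1, ord_mul hF P (by simp) hf, ord_algebraMap hF P (by simp), zero_add]

lemma ord_smul (P : Place k F) {a : k} (ha : a ≠ 0) {f : F} (hf : f ≠ 0) :
    ord P.ring (a • f) = ord P.ring f := by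
  rw [Algebra.smul_def, ord_mul hF P ((_root_.map_ne_zero _).mpr ha) hf, ord_algebraMap hF P ha,
    zero_add]

lemma ord_add_ge (P : Place k F) {f g : F} (hf : f ≠ 0) (hg : g ≠ 0)
    (hfg : f + g ≠ 0) : min (ord P.ring f) (ord P.ring g) ≤ ord P.ring (f + g) := by
  have h := (val hF P).map_add f g
  rw [val_eq_exp hF P hf, val_eq_exp hF P hg,
    val_eq_exp hF P hfg, le_max_iff, exp_le_exp, exp_le_exp] at h
  rw [min_le_iff]
  omega

lemma ord_add_eq_left (P : Place k F) {f g : F} (hf : f ≠ 0) (hg : g ≠ 0)
    (hlt : ord P.ring f < ord P.ring g) :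
    f + g ≠ 0 ∧ ord P.ring (f + g) = ord P.ring f := by
  have h : val hF P (f + g) = val hF P f := by
    apply Valuation.map_add_eq_of_lt_left
    rw [val_eq_exp hF P hf, val_eq_exp hF P hg, exp_lt_exp]
    omega
  have hne : f + g ≠ 0 := by
    intro h0
    rw [h0, map_zero, val_eq_exp hF P hf] at h
    exact exp_ne_zero h.symm
  refine ⟨hne, ?_⟩
  rw [ord_eq_iff hF P hne, h, val_eq_exp hF P hf]

lemma ord_pow (P : Place k F) {f : F} (hf : f ≠ 0) (n : ℕ) :
    ord P.ring (f ^ n) = n * ord P.ring f := by
  induction n with
  | zero => rw [pow_zero, ord_one hF P]; simp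
  | succ n ih =>
    rw [pow_succ, ord_mul hF P (pow_ne_zero n hf) hf, ih]
    push_cast
    ring

lemma ord_zpow (P : Place k F) {f : F} (hf : f ≠ 0) (n : ℤ) :
    ord P.ring (f ^ n) = n * ord P.ring f := by
  rcases n with n | n
  · rw [Int.ofNat_eq_natCast, zpow_natCast, ord_pow hF P hf]
  · rw [zpow_negSucc, ord_inv hF P (pow_ne_zero _ hf), ord_pow hF P hf, Int.negSucc_eq]
    push_cast
    ring

lemma ord_prod (P : Place k F) {ι : Type*} (s : Finset ι) (f : ι → F)
    (hf : ∀ i ∈ s, f i ≠ 0) : ord P.ring (∏ i ∈ s, f i) = ∑ i ∈ s, ord P.ring (f i) := by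
  classical
  induction s using Finset.induction_on with
  | empty => rw [Finset.prod_empty, Finset.sum_empty, ord_one hF P]
  | insert a s ha ih =>
    rw [Finset.prod_insert ha, Finset.sum_insert ha, ord_mul hF P (hf a (by simp))
      (Finset.prod_ne_zero_iff.mpr fun i hi => hf i (by simp [hi])),
      ih fun i hi => hf i (by simp [hi])]

lemma exists_uniformizer (P : Place k F) : ∃ π : F, π ≠ 0 ∧ ord P.ring π = 1 := by
  obtain ⟨π, hπ⟩ := exists_val_pi hF P
  have h0 : π ≠ 0 := by
    rintro rfl
    rw [map_zero] at hπ
    exact exp_ne_zero hπ.symm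
  exact ⟨π, h0, (ord_eq_iff hF P h0 1).mpr hπ⟩

lemma exists_ord_eq (P : Place k F) (n : ℤ) : ∃ f : F, f ≠ 0 ∧ ord P.ring f = n := by
  obtain ⟨π, h0, h1⟩ := exists_uniformizer hF P
  exact ⟨π ^ n, zpow_ne_zero _ h0, by rw [ord_zpow hF P h0, h1, mul_one]⟩

/-- The value of a regular function at a point. -/
theorem exists_residue (P : Place k F) {x : F} (hx : x ∈ P.ring) :
    ∃ c : k, x - algebraMap k F c ∈ P.ring.nonunits := by
  by_contra hcon
  push Not at hcon
  have hunit : ∀ c : k, x - algebraMap k F c ≠ 0 ∧ (x - algebraMap k F c)⁻¹ ∈ P.ring := by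
    intro c
    have h := hcon c
    rw [ValuationSubring.mem_nonunits_iff_or] at h
    push Not at h
    exact h
  by_cases ht : Transcendental k x
  · have hfin := hF.finiteDimensional ht
    have hpoly : ∀ p : k[X], aeval x p ∈ P.ring := by
      intro p
      induction p using Polynomial.induction_on with
      | C a => rw [aeval_C]; exact P.algebraMap_mem a
      | add p q hp hq => rw [map_add]; exact P.ring.add_mem _ _ hp hq
      | monomial n a ih =>
        rw [pow_succ, ← mul_assoc, map_mul, aeval_X]
        exact P.ring.mul_mem _ _ ih hx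
    have hinv : ∀ p : k[X], p ≠ 0 → (aeval x p)⁻¹ ∈ P.ring := by
      intro p hp
      have hs := (IsAlgClosed.splits p).eq_prod_roots
      rw [hs, map_mul, aeval_C, mul_inv]
      apply P.ring.mul_mem
      · rw [← map_inv₀]; exact P.algebraMap_mem _
      · have : ∀ s : Multiset k, (aeval x (s.map (fun a => X - C a)).prod)⁻¹ ∈ P.ring := by
          intro s
          induction s using Multiset.induction_on with
          | empty => simp only [Multiset.map_zero, Multiset.prod_zero, map_one, inv_one]; exact P.ring.one_mem
          | cons a s ih =>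
            rw [Multiset.map_cons, Multiset.prod_cons, map_mul, mul_inv, map_sub, aeval_X, aeval_C]
            exact P.ring.mul_mem _ _ (hunit a).2 ih
        exact this _
    have hmem : ∀ y : k⟮x⟯, (y : F) ∈ P.ring := by
      intro y
      obtain ⟨r, s, hrs⟩ := (IntermediateField.mem_adjoin_simple_iff k (y : F)).mp y.2
      rw [hrs, div_eq_mul_inv]
      rcases eq_or_ne s 0 with hs | hs
      · rw [hs, map_zero, inv_zero, mul_zero]; exact P.ring.zero_mem
      · exact P.ring.mul_mem _ _ (hpoly r) (hinv s hs)
    apply P.ne_top
    rw [eq_top_iff]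
    intro y _
    let f : k⟮x⟯ →+* P.ring := (algebraMap k⟮x⟯ F).codRestrict P.ring hmem
    obtain ⟨p, hp, hp'⟩ := Algebra.IsIntegral.isIntegral (R := k⟮x⟯) y
    have h1 : IsIntegral P.ring y := by
      refine ⟨p.map f, hp.map f, ?_⟩
      rw [Polynomial.eval₂_map]
      exact hp'
    obtain ⟨z, hz⟩ := IsIntegrallyClosed.isIntegral_iff.mp h1
    rw [← hz]
    exact z.2
  · have hint : IsIntegral k x := (not_not.mp ht : IsAlgebraic k x).isIntegral
    obtain ⟨b, hb⟩ : ∃ b : k, algebraMap k F b = x := by
      have hdeg := IsAlgClosed.degree_eq_one_of_irreducible k (minpoly.irreducible hint)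
      exact (minpoly.mem_range_of_degree_eq_one k x hdeg)
    exact (hunit b).1 (by rw [hb, sub_self])

omit [IsAlgClosed k] hF in
lemma algebraMap_mem_nonunits (P : Place k F) {c : k} (hc : algebraMap k F c ∈ P.ring.nonunits) :
    c = 0 := by
  by_contra hne
  rcases (ValuationSubring.mem_nonunits_iff_or _).mp hc with h | h
  · exact hne ((map_eq_zero _).mp h)
  · apply h
    rw [← map_inv₀]
    exact P.algebraMap_mem _

omit [IsAlgClosed k] hF in
lemma residue_unique (P : Place k F) {x : F} {c d : k}
    (hc : x - algebraMap k F c ∈ P.ring.nonunits) (hd : x - algebraMap k F d ∈ P.ring.nonunits) :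
    c = d := by
  have h1 : algebraMap k F (d - c) ∈ P.ring.nonunits := by
    have e : algebraMap k F (d - c) = (x - algebraMap k F c) - (x - algebraMap k F d) := by
      rw [map_sub]; ring
    rw [e]
    exact sub_mem hc hd
  exact (sub_eq_zero.mp (algebraMap_mem_nonunits P h1)).symm

omit [IsAlgClosed k] hF [Field k] [Algebra k F] in
lemma mul_mem_nonunits {R : ValuationSubring F} {x y : F} (hx : x ∈ R) (hy : y ∈ R.nonunits) :
    x * y ∈ R.nonunits := by
  obtain ⟨hy1, hy2⟩ := ValuationSubring.mem_nonunits_iff_exists_mem_maximalIdeal.mp hy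
  rw [ValuationSubring.mem_nonunits_iff_exists_mem_maximalIdeal]
  exact ⟨R.mul_mem _ _ hx hy1, Ideal.mul_mem_left _ ⟨x, hx⟩ hy2⟩

/-- the evaluation of regular functions at a place, as a ring homomorphism -/
noncomputable def ev (P : Place k F) : P.ring →+* k where
  toFun x := (exists_residue hF P x.2).choose
  map_one' := by
    apply residue_unique P (exists_residue hF P (1 : P.ring).2).choose_spec
    rw [map_one]
    change (1 : F) - 1 ∈ _
    rw [sub_self]
    exact zero_mem _
  map_zero' := by
    apply residue_unique P (exists_residue hF P (0 : P.ring).2).choose_spec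
    rw [map_zero]
    change (0 : F) - 0 ∈ _
    rw [sub_self]
    exact zero_mem _
  map_add' := by
    intro x y
    apply residue_unique P (exists_residue hF P (x + y : P.ring).2).choose_spec
    have h1 := (exists_residue hF P x.2).choose_spec
    have h2 := (exists_residue hF P y.2).choose_spec
    have := add_mem h1 h2
    convert this using 1
    have e : ((x + y : P.ring) : F) = x + y := rfl
    rw [e, map_add]
    ring
  map_mul' := by
    intro x y
    apply residue_unique P (exists_residue hF P (x * y : P.ring).2).choose_spec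
    have h1 := (exists_residue hF P x.2).choose_spec
    have h2 := (exists_residue hF P y.2).choose_spec
    have := add_mem (mul_mem_nonunits x.2 h2)
      (mul_mem_nonunits (P.algebraMap_mem (exists_residue hF P y.2).choose) h1)
    convert this using 1
    have e : ((x * y : P.ring) : F) = x * y := rfl
    rw [e, map_mul]
    ring

lemma ev_spec (P : Place k F) (x : P.ring) : (x : F) - algebraMap k F (ev hF P x) ∈ P.ring.nonunits :=
  (exists_residue hF P x.2).choose_spec

lemma ev_eq_iff (P : Place k F) (x : P.ring) (c : k) :
    ev hF P x = c ↔ (x : F) - algebraMap k F c ∈ P.ring.nonunits := by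
  constructor
  · rintro rfl
    exact ev_spec hF P x
  · intro h
    exact residue_unique P (ev_spec hF P x) h

lemma ev_eq_zero_iff (P : Place k F) (x : P.ring) :
    ev hF P x = 0 ↔ (x : F) ∈ P.ring.nonunits := by
  rw [ev_eq_iff, map_zero, sub_zero]

lemma ev_algebraMap (P : Place k F) (c : k) : ev hF P ⟨algebraMap k F c, P.algebraMap_mem c⟩ = c := by
  rw [ev_eq_iff, sub_self]
  exact zero_mem _

end val

section rr

variable {k F : Type u} [Field k] [IsAlgClosed k] [Field F] [Algebra k F]

lemma mem_rr (hF : IsFunctionField k F) (D : Place k F →₀ ℤ) {f : F} (hf : f ≠ 0) :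
    f ∈ riemannRochSpace k F D ↔ ∀ P : Place k F, 0 ≤ ord P.ring f + D P := by
  constructor
  · intro h
    unfold riemannRochSpace at h
    have key : f = 0 ∨ ∀ P : Place k F, 0 ≤ ord P.ring f + D P := by
      clear hf
      induction h using Submodule.span_induction with
      | mem x hx => exact Or.inr hx.2
      | zero => exact Or.inl rfl
      | add x y _ _ hx hy =>
        rcases eq_or_ne (x + y) 0 with h0 | h0
        · exact Or.inl h0
        · right
          rcases eq_or_ne x 0 with hx0 | hx0
          · subst hx0
            rcases hy with hy | hy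
            · subst hy; simp at h0
            · simpa using hy
          · rcases eq_or_ne y 0 with hy0 | hy0
            · subst hy0
              rcases hx with hx | hx
              · exact absurd hx hx0
              · simpa using hx
            · have hx' := hx.resolve_left hx0
              have hy' := hy.resolve_left hy0
              intro P
              have h1 := ord_add_ge hF P hx0 hy0 h0
              have h2 := hx' P
              have h3 := hy' P
              rw [min_le_iff] at h1
              omega
      | smul a x _ hx =>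
        rcases eq_or_ne a 0 with ha | ha
        · left; rw [ha, zero_smul]
        · rcases eq_or_ne x 0 with hx0 | hx0
          · left; rw [hx0, smul_zero]
          · right
            intro P
            rw [ord_smul hF P ha hx0]
            exact (hx.resolve_left hx0) P
    exact key.resolve_left hf
  · intro h
    exact Submodule.subset_span ⟨hf, h⟩

end rr

end FF
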