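import Mathlib
import Pool.Agent.Helper17.FF.Basic

/-!
# Weak approximation for places of function fields
-/

namespace FF

open VC WithZero

variable {k F : Type*} [Field k] [IsAlgClosed k] [Field F] [Algebra k F]
  (hF : IsFunctionField k F)

include hF

lemma place_eq_of_le {P Q : Place k F} (h : P.ring ≤ Q.ring) : P = Q := by
  have := isDVR hF P
  ext1
  exact ValuationSubring.eq_of_le_of_ne_top P.ring h Q.ne_top

lemma exists_mem_notMem {P Q : Place k F} (h : P ≠ Q) : ∃ f, f ∈ P.ring ∧ f ∉ Q.ring := by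
  by_contra hcon
  push Not at hcon
  exact h (place_eq_of_le hF hcon)

lemma exists_sep {P Q : Place k F} (h : P ≠ Q) : ∃ u, val hF P u < 1 ∧ 1 < val hF Q u := by
  obtain ⟨f, hf1, hf2⟩ := exists_mem_notMem hF h
  obtain ⟨g, hg1, hg2⟩ := exists_mem_notMem hF h.symm
  rw [← val_le_one_iff hF] at hf1 hf2 hg1 hg2
  rw [not_le] at hf2 hg2
  have hg : g ≠ 0 := by
    rintro rfl
    rw [map_zero] at hg2
    exact absurd hg2 (by simp)
  refine ⟨f / g, ?_, ?_⟩
  · rw [map_div₀]
    exact (div_lt_one₀ (lt_trans zero_lt_one hg2)).mpr (lt_of_le_of_lt hf1 hg2)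
  · rw [map_div₀]
    have hg0 : 0 < val hF Q g := zero_lt_iff.mpr ((Valuation.ne_zero_iff _).mpr hg)
    rw [one_lt_div₀ hg0]
    exact lt_of_le_of_lt hg1 hf2

omit hF in
/-- powers of an element `> 1` are unbounded -/
lemma exists_pow_gt {x : WithZero (Multiplicative ℤ)} (hx : 1 < x) (y : WithZero (Multiplicative ℤ)) :
    ∃ n : ℕ, ∀ m ≥ n, y < x ^ m := by
  have hx0 : x ≠ 0 := by
    rintro rfl
    exact absurd hx (by simp)
  rcases eq_or_ne y 0 with hy | hy
  · exact ⟨0, fun m _ => by rw [hy]; exact zero_lt_iff.mpr (pow_ne_zero _ hx0)⟩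
  · refine ⟨(log y).toNat + 1, fun m hm => ?_⟩
    rw [← exp_log hx0, ← exp_log hy, ← exp_nsmul, exp_lt_exp]
    have h1 : 0 < log x := by
      rw [← exp_log hx0, ← exp_zero, exp_lt_exp] at hx
      exact hx
    rw [nsmul_eq_mul]
    have h2 : log y ≤ (log y).toNat := Int.self_le_toNat _
    have h3 : ((log y).toNat : ℤ) + 1 ≤ m := by exact_mod_cast hm
    nlinarith

lemma exists_sep_finset (S : Finset (Place k F)) (P : Place k F) (hP : P ∉ S) :
    ∃ u, val hF P u < 1 ∧ ∀ Q ∈ S, 1 < val hF Q u := by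
  classical
  induction S using Finset.induction_on with
  | empty => exact ⟨0, by rw [map_zero]; exact zero_lt_one, by simp⟩
  | insert R S hR ih =>
    have hPS : P ∉ S := fun h => hP (Finset.mem_insert_of_mem h)
    have hPR : P ≠ R := fun h => hP (by rw [h]; exact Finset.mem_insert_self _ _)
    obtain ⟨u, hu1, hu2⟩ := ih hPS
    obtain ⟨v, hv1, hv2⟩ := exists_sep hF hPR
    by_cases hRu : 1 < val hF R u
    · refine ⟨u, hu1, fun Q hQ => ?_⟩
      rcases Finset.mem_insert.mp hQ with h | h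
      · rw [h]; exact hRu
      · exact hu2 Q h
    rw [not_lt] at hRu
    -- the exponent
    have hex : ∃ n : ℕ, ∀ m ≥ n, ∀ Q ∈ S, 1 < val hF Q v → val hF Q u < val hF Q v ^ m := by
      choose f hf using fun Q : {Q : Place k F // 1 < val hF Q v} =>
        exists_pow_gt Q.2 (val hF Q.1 u)
      refine ⟨∑ Q ∈ S, if h : 1 < val hF Q v then f ⟨Q, h⟩ else 0, fun m hm Q hQ hQv => ?_⟩
      apply hf ⟨Q, hQv⟩ m
      refine le_trans ?_ hm
      have := Finset.single_le_sum (f := fun Q => if h : 1 < val hF Q v then f ⟨Q, h⟩ else 0)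
        (fun i _ => Nat.zero_le _) hQ
      simp only [hQv, dif_pos] at this
      exact this
    obtain ⟨n, hn⟩ := hex
    refine ⟨u + v ^ (n + 1), ?_, fun Q hQ => ?_⟩
    · refine lt_of_le_of_lt (Valuation.map_add _ _ _) (max_lt hu1 ?_)
      rw [map_pow]
      exact pow_lt_one₀ zero_le hv1 (by omega)
    · rcases Finset.mem_insert.mp hQ with h | h
      · subst h
        have h1 : 1 < val hF Q (v ^ (n + 1)) := by
          rw [map_pow]
          exact one_lt_pow₀ hv2 (by omega)
        rw [Valuation.map_add_eq_of_lt_right _ (lt_of_le_of_lt hRu h1)]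
        exact h1
      · rcases le_or_gt (val hF Q v) 1 with h1 | h1
        · have h2 : val hF Q (v ^ (n + 1)) < val hF Q u := by
            rw [map_pow]
            exact lt_of_le_of_lt (pow_le_one₀ zero_le h1) (hu2 Q h)
          rw [Valuation.map_add_eq_of_lt_left _ h2]
          exact hu2 Q h
        · have h2 : val hF Q u < val hF Q (v ^ (n + 1)) := by
            rw [map_pow]
            exact hn (n + 1) (by omega) Q h h1
          rw [Valuation.map_add_eq_of_lt_right _ h2]
          exact lt_trans (hu2 Q h) h2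

/-- a function close to `1` at one place and close to `0` at finitely many others -/
lemma exists_idem (S : Finset (Place k F)) (P : Place k F) (hP : P ∉ S) (r : ℤ) :
    ∃ w, val hF P (w - 1) < exp r ∧ ∀ Q ∈ S, val hF Q w < exp r := by
  classical
  obtain ⟨u, hu1, hu2⟩ := exists_sep_finset hF S P hP
  have hex : ∃ n : ℕ, ∀ Q ∈ S, exp (-r) < val hF Q u ^ n := by
    choose f hf using fun Q : {Q : Place k F // 1 < val hF Q u} =>
      exists_pow_gt Q.2 (exp (-r))
    refine ⟨∑ Q ∈ S, if h : 1 < val hF Q u then f ⟨Q, h⟩ else 0, fun Q hQ => ?_⟩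
    apply hf ⟨Q, hu2 Q hQ⟩
    have := Finset.single_le_sum (f := fun Q => if h : 1 < val hF Q u then f ⟨Q, h⟩ else 0)
      (fun i _ => Nat.zero_le _) hQ
    simp only [hu2 Q hQ, dif_pos] at this
    exact this
  obtain ⟨n, hn⟩ := hex
  -- make `u ^ m` small at `P`
  obtain ⟨m, hm⟩ : ∃ m : ℕ, ∀ j ≥ m, val hF P u ^ j < exp r := by
    rcases eq_or_ne u 0 with h0 | h0
    · refine ⟨1, fun j hj => ?_⟩
      rw [h0, map_zero, zero_pow (by omega)]
      exact zero_lt_iff.mpr exp_ne_zero
    · have h1 : 1 < (val hF P u)⁻¹ := by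
        exact (one_lt_inv₀ (zero_lt_iff.mpr ((Valuation.ne_zero_iff _).mpr h0))).mpr hu1
      obtain ⟨m, hm⟩ := exists_pow_gt h1 (exp (-r))
      refine ⟨m, fun j hj => ?_⟩
      have h2 := hm j hj
      rw [inv_pow, lt_inv_comm₀ (zero_lt_iff.mpr exp_ne_zero)
        (zero_lt_iff.mpr (pow_ne_zero _ ((Valuation.ne_zero_iff _).mpr h0))), ← exp_neg, neg_neg]
        at h2
      exact h2
  set N := n + m + 1 with hN
  have hP1 : val hF P (u ^ N) < 1 := by
    rw [map_pow]
    exact pow_lt_one₀ zero_le hu1 (by omega)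
  have hP2 : val hF P (1 + u ^ N) = 1 := by
    rw [Valuation.map_add_eq_of_lt_left _ (by rw [map_one]; exact hP1), map_one]
  have hne : 1 + u ^ N ≠ 0 := by
    intro h
    rw [h, map_zero] at hP2
    exact zero_ne_one hP2
  refine ⟨(1 + u ^ N)⁻¹, ?_, fun Q hQ => ?_⟩
  · have e : (1 + u ^ N)⁻¹ - 1 = - (u ^ N / (1 + u ^ N)) := by
      field_simp
      ring
    rw [e, Valuation.map_neg, map_div₀, hP2, div_one, map_pow]
    exact hm N (by omega)
  · have h1 : 1 < val hF Q (u ^ N) := by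
      rw [map_pow]
      exact one_lt_pow₀ (hu2 Q hQ) (by omega)
    rw [map_inv₀, Valuation.map_add_eq_of_lt_right _ (by rw [map_one]; exact h1)]
    rw [inv_lt_comm₀ (lt_trans zero_lt_one h1) (zero_lt_iff.mpr exp_ne_zero), ← exp_neg, map_pow]
    refine lt_of_lt_of_le (hn Q hQ) ?_
    exact pow_le_pow_right₀ (hu2 Q hQ).le (by omega)

/-- Weak approximation. -/
theorem approx (S : Finset (Place k F)) (y : Place k F → F) (r : ℤ) :
    ∃ z : F, ∀ P ∈ S, val hF P (z - y P) < exp r := by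
  classical
  -- a bound for the values of the `y Q` at the places of `S`
  obtain ⟨B, hB⟩ : ∃ B : ℤ, ∀ P ∈ S, ∀ Q ∈ S, val hF P (y Q) ≤ exp B := by
    have h1 : ∀ x : WithZero (Multiplicative ℤ), ∃ B : ℕ, x ≤ exp (B : ℤ) := by
      intro x
      rcases eq_or_ne x 0 with h | h
      · exact ⟨0, by rw [h]; exact zero_le⟩
      · refine ⟨(log x).toNat, ?_⟩
        rw [← exp_log h, exp_le_exp]
        exact Int.self_le_toNat _
    choose B hB using fun p : Place k F × Place k F => h1 (val hF p.1 (y p.2))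
    refine ⟨((S ×ˢ S).sup B : ℕ), fun P hP Q hQ => (hB (P, Q)).trans ?_⟩
    rw [exp_le_exp]
    have := Finset.le_sup (f := B) (Finset.mem_product.mpr ⟨hP, hQ⟩ : (P, Q) ∈ S ×ˢ S)
    exact_mod_cast this
  choose w hw1 hw2 using fun P : Place k F =>
    exists_idem hF (S.erase P) P (Finset.notMem_erase P S) (r - B)
  have hlt : ∀ a b : WithZero (Multiplicative ℤ), a < exp (r - B) → b ≤ exp B → a * b < exp r := by
    intro a b ha hb
    have : (exp r : WithZero (Multiplicative ℤ)) = exp (r - B) * exp B := by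
      rw [← exp_add]; congr 1; ring
    rw [this]
    calc a * b ≤ a * exp B := by gcongr
      _ < exp (r - B) * exp B := mul_lt_mul_of_pos_right ha (zero_lt_iff.mpr exp_ne_zero)
  refine ⟨∑ Q ∈ S, w Q * y Q, fun P hP => ?_⟩
  have e : ∑ Q ∈ S, w Q * y Q - y P = (w P - 1) * y P + ∑ Q ∈ S.erase P, w Q * y Q := by
    rw [← Finset.add_sum_erase S _ hP]
    ring
  rw [e]
  refine lt_of_le_of_lt (Valuation.map_add _ _ _) (max_lt ?_ ?_)
  · rw [map_mul]
    exact hlt _ _ (hw1 P) (hB P hP P hP)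
  · apply Valuation.map_sum_lt _ exp_ne_zero
    intro Q hQ
    rw [map_mul]
    obtain ⟨hQP, hQS⟩ := Finset.mem_erase.mp hQ
    exact hlt _ _ (hw2 Q P (Finset.mem_erase.mpr ⟨hQP.symm, hP⟩)) (hB P hP Q hQS)

end FF
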