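import Mathlib
import Pool.Agent.Helper17.FF.RR

/-!
# Riemann's theorem: existence of the genus
-/

namespace FF

open VC WithZero Polynomial IntermediateField

universe u

variable {k F : Type u} [Field k] [IsAlgClosed k] [Field F] [Algebra k F]
  (hF : IsFunctionField k F)

include hF

lemma exists_infinite_family : ∃ (B : Place k F →₀ ℤ) (n : ℕ) (C : ℤ), 0 < n ∧ (∀ P, 0 ≤ B P) ∧
    deg B = n ∧ ∀ l : ℕ, (n * (l + 1) : ℤ) - C ≤ ell (l • B) := by
  classical
  obtain ⟨t, ht, hfin0⟩ := id hF
  have ht0 : t ≠ 0 := by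
    rintro rfl
    exact ht isAlgebraic_zero
  have hfin := hF.finiteDimensional ht
  set n := Module.finrank k⟮t⟯ F with hn
  have hnpos : 0 < n := Module.finrank_pos
  let u := Module.finBasis k⟮t⟯ F
  let C : Place k F →₀ ℤ := ∑ j, poles hF (u j)
  have hC0 : ∀ P, 0 ≤ C P := by
    intro P
    rw [Finsupp.finsetSum_apply]
    exact Finset.sum_nonneg fun j _ => poles_nonneg hF _ P
  have hC : ∀ j P, - ord P.ring (u j) ≤ C P := by
    intro j P
    rw [Finsupp.finsetSum_apply]
    have h1 := Finset.single_le_sum (f := fun j => poles hF (u j) P)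
      (fun j _ => poles_nonneg hF _ P) (Finset.mem_univ j)
    have h2 : - ord P.ring (u j) ≤ poles hF (u j) P := by
      rw [poles_apply]; exact le_max_left _ _
    exact h2.trans h1
  refine ⟨poles hF t, n, deg C, hnpos, poles_nonneg hF t, deg_poles hF ht, fun l => ?_⟩
  have h2 := linearIndependent_mul_pow ht (l + 1) u u.linearIndependent
  have hmem : ∀ p : Fin (l + 1) × Fin n, t ^ (p.1 : ℕ) * u p.2 ∈
      riemannRochSpace k F (l • poles hF t + C) := by
    intro p
    have hu0 : u p.2 ≠ 0 := u.ne_zero p.2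
    rw [mem_rr hF _ (mul_ne_zero (pow_ne_zero _ ht0) hu0)]
    intro P
    rw [ord_mul hF P (pow_ne_zero _ ht0) hu0, ord_pow hF P ht0, Finsupp.add_apply,
      Finsupp.smul_apply, nsmul_eq_mul, poles_apply]
    have h3 := hC p.2 P
    have h4 : ((p.1 : ℕ) : ℤ) ≤ l := by
      have := p.1.2
      omega
    have h5 : (((p.1 : ℕ) : ℤ)) * (- ord P.ring t) ≤ l * max (- ord P.ring t) 0 := by
      calc (((p.1 : ℕ) : ℤ)) * (- ord P.ring t) ≤ ((p.1 : ℕ) : ℤ) * max (- ord P.ring t) 0 :=
            mul_le_mul_of_nonneg_left (le_max_left _ _) (by positivity)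
        _ ≤ l * max (- ord P.ring t) 0 := mul_le_mul_of_nonneg_right h4 (le_max_right _ _)
    linarith
  have h3 : LinearIndependent k (fun p : Fin (l + 1) × Fin n =>
      (⟨t ^ (p.1 : ℕ) * u p.2, hmem p⟩ : riemannRochSpace k F (l • poles hF t + C))) :=
    LinearIndependent.of_comp (riemannRochSpace k F (l • poles hF t + C)).subtype h2
  have := finite_rr hF (l • poles hF t + C)
  have h4 := h3.fintype_card_le_finrank
  rw [Fintype.card_prod, Fintype.card_fin, Fintype.card_fin] at h4
  have h5 : (((l + 1) * n : ℕ) : ℤ) ≤ ell (l • poles hF t + C) := by exact_mod_cast h4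
  have h6 := ell_le_add hF (D := l • poles hF t) (E := l • poles hF t + C) (fun P => by
    rw [Finsupp.add_apply]; have := hC0 P; omega)
  rw [map_add] at h6
  push_cast at h5
  linarith

/-- Riemann's theorem. -/
theorem riemann_bound : ∃ γ : ℤ, ∀ D : Place k F →₀ ℤ, deg D - ell D ≤ γ := by
  obtain ⟨B, n, C, hn, hB0, hB, hl⟩ := exists_infinite_family hF
  refine ⟨C, fun D => ?_⟩
  set A : Place k F →₀ ℤ := D ⊔ 0 with hA
  have hDA : ∀ P, D P ≤ A P := fun P => by
    rw [hA, Finsupp.sup_apply]; exact le_max_left _ _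
  have h1 := ell_le_add hF hDA
  -- a large multiple of `B`
  obtain ⟨l, hl'⟩ : ∃ l : ℕ, 0 < ell (l • B - A) := by
    refine ⟨(C + deg A).toNat, ?_⟩
    set l := (C + deg A).toNat with hl0
    have hA0 : ∀ P, 0 ≤ A P := fun P => by
      rw [hA, Finsupp.sup_apply]; exact le_max_right _ _
    have h2 := ell_le_add hF (D := l • B - A) (E := l • B) (fun P => by
      rw [Finsupp.sub_apply]; have := hA0 P; omega)
    rw [map_sub] at h2
    have h3 := hl l
    have h4 : C + deg A ≤ l := Int.self_le_toNat _
    have h5 : (l : ℤ) + 1 ≤ n * (l + 1) := by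
      have : (1 : ℤ) ≤ n := by exact_mod_cast hn
      nlinarith
    have h6 : (0 : ℤ) < ell (l • B - A) := by linarith
    exact_mod_cast h6
  have hfd := finite_rr hF (l • B - A)
  have hne : riemannRochSpace k F (l • B - A) ≠ ⊥ := by
    intro h
    unfold ell at hl'
    rw [h, finrank_bot] at hl'
    exact lt_irrefl _ hl'
  obtain ⟨z, hz, hz0⟩ := Submodule.exists_mem_ne_zero_of_ne_bot hne
  rw [mem_rr hF _ hz0] at hz
  have h7 : ∀ P, (A + dv hF z⁻¹) P ≤ (l • B) P := by
    intro P
    have := hz P
    rw [Finsupp.sub_apply] at this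
    rw [Finsupp.add_apply, dv_apply, ord_inv hF P hz0]
    omega
  have h8 := ell_le_add hF h7
  rw [ell_add_dv hF A (inv_ne_zero hz0), map_add, deg_dv hF (inv_ne_zero hz0), add_zero] at h8
  have h9 := hl l
  have h10 : deg (l • B) = l * n := by rw [map_nsmul, hB, nsmul_eq_mul]
  have h11 : (n : ℤ) * (l + 1) = l * n + n := by ring
  have : (0 : ℤ) ≤ n := by positivity
  linarith

/-- The genus exists. -/
theorem exists_genus : ∃ g, IsGenus k F g := by
  classical
  obtain ⟨γ, hγ⟩ := riemann_bound hF
  have h0 := hγ 0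
  rw [ell_zero hF, map_zero] at h0
  have hex : ∃ g : ℕ, ∀ D : Place k F →₀ ℤ,
      (D.sum fun _ m => m) + 1 ≤ (Module.finrank k (riemannRochSpace k F D) : ℤ) + g := by
    refine ⟨(γ + 1).toNat, fun D => ?_⟩
    rw [← deg_eq]
    have h1 := hγ D
    have h2 : ((γ + 1).toNat : ℤ) = γ + 1 := Int.toNat_of_nonneg (by push_cast at h0; omega)
    rw [h2]
    change deg D - (Module.finrank k (riemannRochSpace k F D) : ℤ) ≤ γ at h1
    linarith
  exact ⟨Nat.find hex, Nat.find_spec hex, fun g hg => Nat.find_min' hex hg⟩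

omit [IsAlgClosed k] hF in
/-- Riemann's inequality. -/
theorem ell_ge {g : ℕ} (hg : IsGenus k F g) (D : Place k F →₀ ℤ) : deg D + 1 - g ≤ ell D := by
  have := hg.1 D
  rw [← deg_eq] at this
  change deg D + 1 ≤ (ell D : ℤ) + g at this
  linarith

theorem exists_ell_eq {g : ℕ} (hg : IsGenus k F g) : ∃ D : Place k F →₀ ℤ,
    (ell D : ℤ) = deg D + 1 - g := by
  rcases Nat.eq_zero_or_pos g with h0 | h0
  · refine ⟨0, ?_⟩
    rw [ell_zero hF, map_zero, h0]
    norm_num
  · have h1 : g - 1 ∉ {g : ℕ | ∀ D : Place k F →₀ ℤ,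
        (D.sum fun _ m => m) + 1 ≤ (Module.finrank k (riemannRochSpace k F D) : ℤ) + g} := by
      intro hmem
      have := hg.2 hmem
      omega
    rw [Set.mem_ofPred_eq] at h1
    push Not at h1
    obtain ⟨D, hD⟩ := h1
    refine ⟨D, le_antisymm ?_ (ell_ge hg D)⟩
    rw [← deg_eq] at hD
    change (ell D : ℤ) + ((g - 1 : ℕ) : ℤ) < deg D + 1 at hD
    omega

/-- Riemann's inequality is an equality in large degree. -/
theorem ell_eq_of_large {g : ℕ} (hg : IsGenus k F g) : ∃ c : ℤ, ∀ D : Place k F →₀ ℤ,
    c ≤ deg D → (ell D : ℤ) = deg D + 1 - g := by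
  obtain ⟨A, hA⟩ := exists_ell_eq hF hg
  refine ⟨deg A + g, fun D hD => le_antisymm ?_ (ell_ge hg D)⟩
  have h1 := ell_ge hg (D - A)
  rw [map_sub] at h1
  have h2 : 0 < ell (D - A) := by
    have : (0 : ℤ) < ell (D - A) := by linarith
    exact_mod_cast this
  have hfd := finite_rr hF (D - A)
  have hne : riemannRochSpace k F (D - A) ≠ ⊥ := by
    intro h
    unfold ell at h2
    rw [h, finrank_bot] at h2
    exact lt_irrefl _ h2
  obtain ⟨z, hz, hz0⟩ := Submodule.exists_mem_ne_zero_of_ne_bot hne
  rw [mem_rr hF _ hz0] at hz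
  have h3 : ∀ P, A P ≤ (D + dv hF z) P := by
    intro P
    have := hz P
    rw [Finsupp.sub_apply] at this
    rw [Finsupp.add_apply, dv_apply]
    omega
  have h4 := ell_le_add hF h3
  rw [ell_add_dv hF D hz0, map_add, deg_dv hF hz0, add_zero] at h4
  linarith

/-- Adding a point at which a special divisor stays equally special is possible for finitely many
points only. -/
theorem exists_drop {g : ℕ} (hg : IsGenus k F g) (X : Place k F →₀ ℤ)
    (hX : deg X + 1 - g < ell X) (S : Set (Place k F)) (hS : S.Infinite) :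
    ∃ P ∈ S, ell (X + Finsupp.single P 1) = ell X := by
  classical
  by_contra hcon
  push Not at hcon
  obtain ⟨c, hc⟩ := ell_eq_of_large hF hg
  have key : ∀ T : Finset (Place k F), (∀ P ∈ T, P ∈ S) →
      ell X + T.card ≤ ell (X + ∑ P ∈ T, Finsupp.single P 1) := by
    intro T
    induction T using Finset.induction_on with
    | empty => intro _; simp
    | insert P T hP ih =>
      intro hT
      have h1 := ih (fun Q hQ => hT Q (Finset.mem_insert_of_mem hQ))
      rw [Finset.sum_insert hP, Finset.card_insert_of_notMem hP]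
      set Y := ∑ Q ∈ T, Finsupp.single Q (1 : ℤ) with hY
      have hY0 : ∀ Q, 0 ≤ Y Q := by
        intro Q
        rw [hY, Finsupp.finsetSum_apply]
        apply Finset.sum_nonneg
        intro R _
        rw [Finsupp.single_apply]
        split_ifs <;> norm_num
      have hYP : Y P = 0 := by
        rw [hY, Finsupp.finsetSum_apply]
        apply Finset.sum_eq_zero
        intro R hR
        rw [Finsupp.single_apply, if_neg]
        rintro rfl
        exact hP hR
      -- a function with a pole at `P`
      have h2 : ∃ f ∈ riemannRochSpace k F (X + Finsupp.single P 1), f ∉ riemannRochSpace k F X := by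
        by_contra hall
        push Not at hall
        apply hcon P (hT P (Finset.mem_insert_self _ _))
        have e : riemannRochSpace k F (X + Finsupp.single P 1) = riemannRochSpace k F X :=
          le_antisymm hall (rr_mono hF (fun Q => by
            rw [Finsupp.add_apply, Finsupp.single_apply]
            split_ifs <;> omega))
        unfold ell
        rw [e]
      obtain ⟨f, hf1, hf2⟩ := h2
      have hf0 : f ≠ 0 := by
        rintro rfl
        exact hf2 (Submodule.zero_mem _)
      rw [mem_rr hF _ hf0] at hf1 hf2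
      have hfP : ord P.ring f = - X P - 1 := by
        push Not at hf2
        obtain ⟨Q, hQ⟩ := hf2
        have h3 := hf1 Q
        rw [Finsupp.add_apply, Finsupp.single_apply] at h3
        split_ifs at h3 with h
        · subst h; omega
        · omega
      have hlt : riemannRochSpace k F (X + Y) <
          riemannRochSpace k F (X + (Finsupp.single P 1 + Y)) := by
        rw [SetLike.lt_iff_le_and_exists]
        refine ⟨rr_mono hF (fun Q => ?_), f, ?_, ?_⟩
        · rw [Finsupp.add_apply, Finsupp.add_apply, Finsupp.add_apply, Finsupp.single_apply]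
          split_ifs <;> omega
        · rw [mem_rr hF _ hf0]
          intro Q
          have h3 := hf1 Q
          have h4 := hY0 Q
          rw [Finsupp.add_apply] at h3
          rw [Finsupp.add_apply, Finsupp.add_apply]
          omega
        · rw [mem_rr hF _ hf0]
          intro h3
          have h4 := h3 P
          rw [Finsupp.add_apply, hYP] at h4
          omega
      have hfd := finite_rr hF (X + (Finsupp.single P 1 + Y))
      have h5 := Submodule.finrank_lt_finrank_of_lt hlt
      unfold ell at h1 ⊢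
      omega
  obtain ⟨T, hTS, hTcard⟩ := hS.exists_subset_card_eq (c - deg X).toNat
  have h1 := key T (fun P hP => hTS hP)
  have h2 : deg (∑ P ∈ T, Finsupp.single P (1 : ℤ)) = T.card := by
    rw [map_sum]
    simp
  have h3 := hc (X + ∑ P ∈ T, Finsupp.single P 1) (by
    rw [map_add, h2, hTcard]
    have := Int.self_le_toNat (c - deg X)
    omega)
  rw [map_add, h2] at h3
  have h4 : (ell X : ℤ) + T.card ≤ ell (X + ∑ P ∈ T, Finsupp.single P 1) := by exact_mod_cast h1
  linarith

end FF
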