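import Mathlib

/-!
# The tensor product of two fields over an algebraically closed field is a domain
-/

namespace FF

open scoped TensorProduct

section dom

variable {k A B : Type*} [Field k] [IsAlgClosed k] [Field A] [Algebra k A] [Field B] [Algebra k B]

/-- Finitely generated algebras over an algebraically closed field have rational points. -/
lemma exists_point (R : Type*) [CommRing R] [Nontrivial R] [Algebra k R]
    [Algebra.FiniteType k R] : Nonempty (R →ₐ[k] k) := by
  obtain ⟨m, hm⟩ := Ideal.exists_maximal R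
  let : Field (R ⧸ m) := Ideal.Quotient.field m
  have h1 : Algebra.FiniteType k (R ⧸ m) :=
    Algebra.FiniteType.of_surjective (Ideal.Quotient.mkₐ k m) (Ideal.Quotient.mkₐ_surjective k m)
  have h2 : Module.Finite k (R ⧸ m) := finite_of_finite_type_of_isJacobsonRing k (R ⧸ m)
  have h3 : Function.Bijective (algebraMap k (R ⧸ m)) :=
    IsAlgClosed.algebraMap_bijective_of_isIntegral
  exact ⟨((AlgEquiv.ofBijective (Algebra.ofId k (R ⧸ m)) h3).symm : (R ⧸ m) →ₐ[k] k).comp
    (Ideal.Quotient.mkₐ k m)⟩

theorem noZeroDivisors_tensor : NoZeroDivisors (A ⊗[k] B) := by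
  constructor
  intro u v huv
  by_contra hcon
  push Not at hcon
  obtain ⟨hu, hv⟩ := hcon
  let b := Module.Basis.ofVectorSpace k B
  let bb := Algebra.TensorProduct.basis A b
  obtain ⟨i, hi⟩ : ∃ i, bb.repr u i ≠ 0 := by
    by_contra hcon
    push Not at hcon
    apply hu
    rw [← bb.repr.map_eq_zero_iff]
    exact Finsupp.ext hcon
  obtain ⟨j, hj⟩ : ∃ j, bb.repr v j ≠ 0 := by
    by_contra hcon
    push Not at hcon
    apply hv
    rw [← bb.repr.map_eq_zero_iff]
    exact Finsupp.ext hcon
  classical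
  let s : Finset A := (bb.repr u).support.image (bb.repr u) ∪ (bb.repr v).support.image (bb.repr v) ∪
    {(bb.repr u i)⁻¹, (bb.repr v j)⁻¹}
  let R : Subalgebra k A := Algebra.adjoin k (s : Set A)
  have hfin : Algebra.FiniteType k R := by
    rw [← Subalgebra.fg_iff_finiteType]
    exact ⟨s, rfl⟩
  obtain ⟨ε⟩ := exists_point (k := k) R
  have hsR : ∀ a ∈ s, a ∈ R := fun a ha => Algebra.subset_adjoin ha
  have hRu : ∀ l, bb.repr u l ∈ R := by
    intro l
    by_cases hl : bb.repr u l = 0
    · rw [hl]; exact R.zero_mem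
    · apply hsR
      simp only [s, Finset.mem_union, Finset.mem_image]
      left; left
      exact ⟨l, Finsupp.mem_support_iff.mpr hl, rfl⟩
  have hRv : ∀ l, bb.repr v l ∈ R := by
    intro l
    by_cases hl : bb.repr v l = 0
    · rw [hl]; exact R.zero_mem
    · apply hsR
      simp only [s, Finset.mem_union, Finset.mem_image]
      left; right
      exact ⟨l, Finsupp.mem_support_iff.mpr hl, rfl⟩
  -- lifts to `R ⊗ B`
  let u' : R ⊗[k] B := (bb.repr u).sum fun l _ => (⟨bb.repr u l, hRu l⟩ : R) ⊗ₜ[k] b l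
  let v' : R ⊗[k] B := (bb.repr v).sum fun l _ => (⟨bb.repr v l, hRv l⟩ : R) ⊗ₜ[k] b l
  let J : R ⊗[k] B →ₐ[k] A ⊗[k] B := Algebra.TensorProduct.map R.val (AlgHom.id k B)
  have hJinj : Function.Injective J := by
    have h := Module.Flat.rTensor_preserves_injective_linearMap (M := B) R.val.toLinearMap
      Subtype.val_injective
    exact h
  have hrepr : ∀ w : A ⊗[k] B, w = (bb.repr w).sum fun l c => c ⊗ₜ[k] b l := by
    intro w
    conv_lhs => rw [← bb.linearCombination_repr w, Finsupp.linearCombination_apply]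
    apply Finsupp.sum_congr
    intro l _
    exact Algebra.TensorProduct.basis_repr_symm_apply' b _ _
  have hJu : J u' = u := by
    conv_rhs => rw [hrepr u]
    simp only [u', Finsupp.sum, map_sum]
    apply Finset.sum_congr rfl
    intro l _
    rfl
  have hJv : J v' = v := by
    conv_rhs => rw [hrepr v]
    simp only [v', Finsupp.sum, map_sum]
    apply Finset.sum_congr rfl
    intro l _
    rfl
  have huv' : u' * v' = 0 := by
    apply hJinj
    rw [map_mul, hJu, hJv, huv, map_zero]
  let E : R ⊗[k] B →ₐ[k] B := Algebra.TensorProduct.productMap ((Algebra.ofId k B).comp ε)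
    (AlgHom.id k B)
  have hE : E u' * E v' = 0 := by rw [← map_mul, huv', map_zero]
  have hEu : ∀ (w : A ⊗[k] B) (hw : ∀ l, bb.repr w l ∈ R) (l₀), (bb.repr w l₀)⁻¹ ∈ R →
      bb.repr w l₀ ≠ 0 →
      E ((bb.repr w).sum fun l _ => (⟨bb.repr w l, hw l⟩ : R) ⊗ₜ[k] b l) ≠ 0 := by
    intro w hw l₀ hinv hne h0
    have h1 : ∑ l ∈ (bb.repr w).support, ε ⟨bb.repr w l, hw l⟩ • b l = 0 := by
      rw [← h0]
      simp only [Finsupp.sum, map_sum]
      apply Finset.sum_congr rfl
      intro l _
      simp only [E, Algebra.TensorProduct.productMap_apply_tmul, AlgHom.comp_apply, AlgHom.id_apply]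
      rw [Algebra.smul_def]
      rfl
    have h2 := (linearIndependent_iff'.mp b.linearIndependent) _ _ h1 l₀
      (Finsupp.mem_support_iff.mpr hne)
    have h3 : (⟨bb.repr w l₀, hw l₀⟩ : R) * ⟨(bb.repr w l₀)⁻¹, hinv⟩ = 1 := by
      apply Subtype.ext
      exact mul_inv_cancel₀ hne
    have h4 := congrArg ε h3
    rw [map_mul, h2, zero_mul, map_one] at h4
    exact zero_ne_one h4
  rcases mul_eq_zero.mp hE with h | h
  · exact hEu u hRu i (hsR _ (by simp [s])) hi h
  · exact hEu v hRv j (hsR _ (by simp [s])) hj h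

instance isDomain_tensor : IsDomain (A ⊗[k] B) := by
  have := noZeroDivisors_tensor (k := k) (A := A) (B := B)
  exact NoZeroDivisors.to_isDomain _

end dom

end FF
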