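import Mathlib
import Pool.Agent.Helper17.FF.Genus
import Pool.Agent.Helper17.FF.Tensor

/-!
# Constant field extensions of function fields
-/

set_option linter.unusedSectionVars false

namespace FF

open VC WithZero Polynomial IntermediateField
open scoped TensorProduct

section defs

variable (k Ω F M : Type*) [Field k] [Field Ω] [Field F] [Field M] [Algebra k Ω] [Algebra k F]
  [Algebra Ω M] [Algebra F M] [Algebra k M] [IsScalarTower k Ω M] [IsScalarTower k F M]

/-- the multiplication map `Ω ⊗ F → M` -/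
noncomputable def prodMap : Ω ⊗[k] F →ₐ[k] M :=
  Algebra.TensorProduct.productMap (IsScalarTower.toAlgHom k Ω M) (IsScalarTower.toAlgHom k F M)

lemma prodMap_tmul (a : Ω) (f : F) :
    prodMap k Ω F M (a ⊗ₜ f) = algebraMap Ω M a * algebraMap F M f := by
  unfold prodMap
  rw [Algebra.TensorProduct.productMap_apply_tmul]
  rfl

/-- `M` is the field obtained from `F` by extending the constants from `k` to `Ω`. -/
structure IsConstExt : Prop where
  inj : Function.Injective (prodMap k Ω F M)
  frac : ∀ z : M, ∃ s t : Ω ⊗[k] F, prodMap k Ω F M t ≠ 0 ∧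
    z * prodMap k Ω F M t = prodMap k Ω F M s

end defs

section exist

universe u

variable (k Ω F : Type u) [Field k] [Field Ω] [Field F] [Algebra k Ω] [Algebra k F]

lemma exists_constExt_aux (M : Type u) [Field M] (j : Ω ⊗[k] F →+* M) (hj : Function.Injective j)
    (hfrac : ∀ z : M, ∃ s t : Ω ⊗[k] F, j t ≠ 0 ∧ z * j t = j s) :
    ∃ (_ : Algebra Ω M) (_ : Algebra F M)
    (_ : Algebra k M) (_ : IsScalarTower k Ω M) (_ : IsScalarTower k F M), IsConstExt k Ω F M := by
  let i1 : Algebra Ω M := (j.comp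
    (Algebra.TensorProduct.includeLeft : Ω →ₐ[k] Ω ⊗[k] F).toRingHom).toAlgebra
  let i2 : Algebra F M := (j.comp
    (Algebra.TensorProduct.includeRight : F →ₐ[k] Ω ⊗[k] F).toRingHom).toAlgebra
  let i3 : Algebra k M := (j.comp (algebraMap k (Ω ⊗[k] F))).toAlgebra
  have s1 : IsScalarTower k Ω M := IsScalarTower.of_algebraMap_eq (fun x => by
    change j (algebraMap k (Ω ⊗[k] F) x) = j
      ((Algebra.TensorProduct.includeLeft : Ω →ₐ[k] Ω ⊗[k] F) (algebraMap k Ω x))
    rw [AlgHom.commutes])
  have s2 : IsScalarTower k F M := IsScalarTower.of_algebraMap_eq (fun x => by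
    change j (algebraMap k (Ω ⊗[k] F) x) = j
      ((Algebra.TensorProduct.includeRight : F →ₐ[k] Ω ⊗[k] F) (algebraMap k F x))
    rw [AlgHom.commutes])
  have key : ∀ s : Ω ⊗[k] F, prodMap k Ω F M s = j s := by
    intro s
    induction s using TensorProduct.induction_on with
    | zero => rw [map_zero, map_zero]
    | tmul a f =>
      rw [prodMap_tmul]
      change j (a ⊗ₜ 1) * j (1 ⊗ₜ f) = _
      rw [← map_mul, Algebra.TensorProduct.tmul_mul_tmul, mul_one, one_mul]
    | add x y hx hy => rw [map_add, map_add, hx, hy]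
  refine ⟨i1, i2, i3, s1, s2, ?_, ?_⟩
  · intro x y hxy
    rw [key, key] at hxy
    exact hj hxy
  · intro z
    obtain ⟨s, t, ht, h⟩ := hfrac z
    refine ⟨s, t, ?_, ?_⟩
    · rw [key]; exact ht
    · rw [key, key, h]

/-- Constant field extensions exist. -/
theorem exists_constExt [IsAlgClosed k] :
    ∃ (M : Type u) (_ : Field M) (_ : Algebra Ω M) (_ : Algebra F M)
    (_ : Algebra k M) (_ : IsScalarTower k Ω M) (_ : IsScalarTower k F M), IsConstExt k Ω F M := by
  obtain ⟨i1, i2, i3, s1, s2, h⟩ := exists_constExt_aux k Ω F (FractionRing (Ω ⊗[k] F))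
    (algebraMap (Ω ⊗[k] F) (FractionRing (Ω ⊗[k] F))) (IsFractionRing.injective _ _) (by
      intro z
      obtain ⟨s, t, ht, rfl⟩ := IsFractionRing.div_surjective (A := Ω ⊗[k] F) z
      have ht0 : algebraMap (Ω ⊗[k] F) (FractionRing (Ω ⊗[k] F)) t ≠ 0 :=
        (map_ne_zero_iff _ (IsFractionRing.injective (Ω ⊗[k] F) _)).mpr (nonZeroDivisors.ne_zero ht)
      exact ⟨s, t, ht0, by rw [div_mul_cancel₀ _ ht0]⟩)
  exact ⟨FractionRing (Ω ⊗[k] F), inferInstance, i1, i2, i3, s1, s2, h⟩

end exist

section basic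

variable {k Ω F M : Type*} [Field k] [Field Ω] [Field F] [Field M] [Algebra k Ω] [Algebra k F]
  [Algebra Ω M] [Algebra F M] [Algebra k M] [IsScalarTower k Ω M] [IsScalarTower k F M]
  (hM : IsConstExt k Ω F M)

include hM

/-- Functions independent over `k` are independent over `Ω`. -/
theorem IsConstExt.linearIndependent {ι : Type*} {f : ι → F} (hf : LinearIndependent k f) :
    LinearIndependent Ω (fun i => algebraMap F M (f i)) := by
  rw [linearIndependent_iff']
  intro s g hg i hi
  -- extend to a basis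
  have h1 : prodMap k Ω F M (∑ i ∈ s, g i ⊗ₜ f i) = 0 := by
    rw [map_sum, ← hg]
    apply Finset.sum_congr rfl
    intro j _
    rw [prodMap_tmul, Algebra.smul_def]
  have h2 : ∑ i ∈ s, g i ⊗ₜ[k] f i = 0 := hM.inj (by rw [h1, map_zero])
  have h3 : LinearIndependent Ω (fun i => (1 : Ω) ⊗ₜ[k] f i) := by
    let I : Set F := hf.linearIndepOn_id.extend (Set.subset_univ _)
    let b : Module.Basis I k F := .extend hf.linearIndepOn_id
    let b' : Module.Basis I Ω (Ω ⊗[k] F) := Algebra.TensorProduct.basis Ω b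
    let v' (i : ι) : I := ⟨f i, hf.linearIndepOn_id.subset_extend _ <| Set.mem_range_self i⟩
    have hv' : b' ∘ v' = fun i => (1 : Ω) ⊗ₜ[k] f i := by
      funext i
      rw [Function.comp_apply, Algebra.TensorProduct.basis_apply]
      simp [b, v', Module.Basis.extend]
    have h_inj : Function.Injective v' := fun i j hij => by
      have : Function.Injective f := hf.injective
      exact this (congrArg Subtype.val hij)
    rw [← hv']
    exact b'.linearIndependent.comp _ h_inj
  apply (linearIndependent_iff'.mp h3) s g _ i hi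
  rw [← h2]
  apply Finset.sum_congr rfl
  intro j _
  rw [TensorProduct.smul_tmul', smul_eq_mul, mul_one]

theorem IsConstExt.transcendental {x : F} (hx : Transcendental k x) :
    Transcendental Ω (algebraMap F M x) := by
  have h1 : LinearIndependent k (fun i : ℕ => x ^ i) := by
    have h1 := (Polynomial.basisMonomials k).linearIndependent.map' (aeval x : k[X] →ₐ[k] F).toLinearMap
      (by
        rw [LinearMap.ker_eq_bot]
        exact transcendental_iff_injective.mp hx)
    have e : (fun i : ℕ => x ^ i) =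
        (⇑(aeval x : k[X] →ₐ[k] F).toLinearMap ∘ ⇑(basisMonomials k)) := by
      funext i
      simp
    rw [e]
    exact h1
  have h2 := hM.linearIndependent h1
  rw [transcendental_iff]
  intro p hp
  ext n
  rw [aeval_eq_sum_range] at hp
  by_cases hn : n ∈ Finset.range (p.natDegree + 1)
  · rw [coeff_zero]
    apply (linearIndependent_iff'.mp h2) (Finset.range (p.natDegree + 1)) (fun i => p.coeff i) _ n hn
    rw [← hp]
    apply Finset.sum_congr rfl
    intro i _
    rw [map_pow]
  · rw [coeff_zero]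
    apply coeff_eq_zero_of_natDegree_lt
    rw [Finset.mem_range] at hn
    omega

omit hM in
lemma algebraMap_mem_adjoin {x c : F} (hc : c ∈ k⟮x⟯) :
    algebraMap F M c ∈ Ω⟮algebraMap F M x⟯ := by
  have hp : ∀ p : k[X], algebraMap F M (aeval x p) ∈ Ω⟮algebraMap F M x⟯ := by
    intro p
    rw [← aeval_algebraMap_apply, aeval_eq_sum_range]
    apply sum_mem
    intro i _
    rw [Algebra.smul_def, IsScalarTower.algebraMap_apply k Ω M]
    exact mul_mem (IntermediateField.algebraMap_mem _ _)
      (pow_mem (IntermediateField.mem_adjoin_simple_self Ω _) i)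
  obtain ⟨r, s, rfl⟩ := (IntermediateField.mem_adjoin_simple_iff k c).mp hc
  rw [map_div₀]
  exact div_mem (hp r) (hp s)

/-- The degree does not increase under constant extensions. -/
theorem IsConstExt.finite {x : F} (hfin : FiniteDimensional k⟮x⟯ F) :
    FiniteDimensional Ω⟮algebraMap F M x⟯ M ∧
      Module.finrank Ω⟮algebraMap F M x⟯ M ≤ Module.finrank k⟮x⟯ F := by
  set n := Module.finrank k⟮x⟯ F with hn
  let u := Module.finBasis k⟮x⟯ F
  set K := Ω⟮algebraMap F M x⟯ with hK
  let W : Submodule K M := Submodule.span K (Set.range fun i => algebraMap F M (u i))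
  have hWu : ∀ i, algebraMap F M (u i) ∈ W := fun i => Submodule.subset_span ⟨i, rfl⟩
  have hWF : ∀ f : F, algebraMap F M f ∈ W := by
    intro f
    rw [← u.sum_repr f, map_sum]
    apply Submodule.sum_mem
    intro i _
    rw [Algebra.smul_def, map_mul]
    have h1 : algebraMap F M (algebraMap k⟮x⟯ F (u.repr f i)) ∈ K :=
      algebraMap_mem_adjoin (u.repr f i).2
    exact W.smul_mem (⟨_, h1⟩ : K) (hWu i)
  have hWmul : ∀ a ∈ W, ∀ b ∈ W, a * b ∈ W := by
    intro a ha b hb
    have h1 : a * b ∈ W * W := Submodule.mul_mem_mul ha hb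
    rw [Submodule.span_mul_span] at h1
    refine (Submodule.span_le.mpr ?_) h1
    rintro _ ⟨_, ⟨i, rfl⟩, _, ⟨j, rfl⟩, rfl⟩
    change algebraMap F M (u i) * algebraMap F M (u j) ∈ W
    rw [← map_mul]
    exact hWF _
  have hW1 : (1 : M) ∈ W := by
    rw [← map_one (algebraMap F M)]
    exact hWF 1
  have hWprod : ∀ s : Ω ⊗[k] F, prodMap k Ω F M s ∈ W := by
    intro s
    induction s using TensorProduct.induction_on with
    | zero => rw [map_zero]; exact W.zero_mem
    | tmul a f =>
      rw [prodMap_tmul]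
      exact W.smul_mem (⟨algebraMap Ω M a, IntermediateField.algebraMap_mem _ _⟩ : K) (hWF f)
    | add a b ha hb => rw [map_add]; exact W.add_mem ha hb
  have hWfin : FiniteDimensional K W := by
    apply FiniteDimensional.span_of_finite
    exact Set.finite_range _
  have hWinv : ∀ w ∈ W, w ≠ 0 → w⁻¹ ∈ W := by
    intro w hw hw0
    let L : W →ₗ[K] W :=
      { toFun := fun v => ⟨w * v, hWmul w hw v v.2⟩
        map_add' := fun a b => Subtype.ext (by
          change w * ((a : M) + b) = w * a + w * b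
          ring)
        map_smul' := fun c a => Subtype.ext (by
          change w * (c • (a : M)) = c • (w * a)
          rw [mul_smul_comm]) }
    have hinj : Function.Injective L := by
      intro a b hab
      have := congrArg Subtype.val hab
      exact Subtype.ext (mul_left_cancel₀ hw0 this)
    obtain ⟨v, hv⟩ := (LinearMap.injective_iff_surjective.mp hinj) ⟨1, hW1⟩
    have h1 : w * (v : M) = 1 := congrArg Subtype.val hv
    rw [inv_eq_of_mul_eq_one_right h1]
    exact v.2
  have hWtop : W = ⊤ := by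
    rw [eq_top_iff]
    intro z _
    obtain ⟨s, t, ht, hz⟩ := hM.frac z
    rw [eq_div_of_mul_eq ht hz, div_eq_mul_inv]
    exact hWmul _ (hWprod s) _ (hWinv _ (hWprod t) ht)
  refine ⟨?_, ?_⟩
  · rw [hWtop] at hWfin
    exact Module.Finite.equiv (Submodule.topEquiv (R := K) (M := M))
  · have h1 := finrank_range_le_card (R := K) (fun i => algebraMap F M (u i))
    rw [Fintype.card_fin] at h1
    change Module.finrank K W ≤ n at h1
    rw [hWtop, finrank_top] at h1
    exact h1

theorem IsConstExt.isFunctionField (hF : IsFunctionField k F) : IsFunctionField Ω M := by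
  obtain ⟨t, ht, hfin⟩ := hF
  exact ⟨algebraMap F M t, hM.transcendental ht, (hM.finite hfin).1⟩

end basic

section places

variable {k Ω F M : Type*} [Field k] [Field Ω] [Field F] [Field M] [Algebra k Ω] [Algebra k F]
  [Algebra Ω M] [Algebra F M] [Algebra k M] [IsScalarTower k Ω M] [IsScalarTower k F M]

/-- the place `Q` of `M` lies over the place `P` of `F` -/
def Over (Q : Place Ω M) (P : Place k F) : Prop := ∀ f : F, algebraMap F M f ∈ Q.ring ↔ f ∈ P.ring

/-- the place `Q` of `M` is trivial on `F`, and `φ` is the residue map -/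
def Gen (Q : Place Ω M) (φ : F →ₐ[k] Ω) : Prop :=
  ∀ f : F, algebraMap F M f - algebraMap Ω M (φ f) ∈ Q.ring.nonunits

lemma Over.nonunits {Q : Place Ω M} {P : Place k F} (h : Over Q P) (f : F) :
    algebraMap F M f ∈ Q.ring.nonunits ↔ f ∈ P.ring.nonunits := by
  rw [ValuationSubring.mem_nonunits_iff_or, ValuationSubring.mem_nonunits_iff_or, ← map_inv₀,
    h f⁻¹, map_eq_zero]

lemma Over.unique {Q : Place Ω M} {P P' : Place k F} (h : Over Q P) (h' : Over Q P') : P = P' := by
  ext f
  rw [← h f, h' f]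

lemma Gen.mem {Q : Place Ω M} {φ : F →ₐ[k] Ω} (h : Gen Q φ) (f : F) : algebraMap F M f ∈ Q.ring := by
  have h1 := ValuationSubring.nonunits_subset (h f)
  have h2 := Q.ring.add_mem _ _ h1 (Q.algebraMap_mem (φ f))
  rwa [sub_add_cancel] at h2

lemma Gen.unique {Q : Place Ω M} {φ φ' : F →ₐ[k] Ω} (h : Gen Q φ) (h' : Gen Q φ') : φ = φ' := by
  ext f
  have h1 := sub_mem (h' f) (h f)
  have e : algebraMap F M f - algebraMap Ω M (φ' f) - (algebraMap F M f - algebraMap Ω M (φ f)) =
      algebraMap Ω M (φ f - φ' f) := by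
    rw [map_sub]; ring
  rw [e] at h1
  have := algebraMap_mem_nonunits Q h1
  exact sub_eq_zero.mp this

/-- Existence of places from homomorphisms. -/
theorem exists_place_of_hom {B L : Type*} [CommRing B] [Field L] (j : B →+* M) (ψ : B →+* L)
    (hk : ∀ a : Ω, ∃ b, j b = algebraMap Ω M a) (hj : ∀ b, j b = 0 → ψ b = 0)
    (h0 : ∃ b, ψ b = 0 ∧ j b ≠ 0) :
    ∃ Q : Place Ω M, (∀ b, j b ∈ Q.ring) ∧ ∀ b, ψ b = 0 → j b ∈ Q.ring.nonunits := by
  let A : Subring M := j.range
  let I : Ideal A := (RingHom.ker ψ).map j.rangeRestrict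
  have hI : I ≠ ⊤ := by
    rw [Ne, Ideal.eq_top_iff_one]
    intro h1
    rw [Ideal.mem_map_iff_of_surjective _ j.rangeRestrict_surjective] at h1
    obtain ⟨b, hb, hb1⟩ := h1
    have h2 : j b = 1 := congrArg Subtype.val hb1
    have h3 : j (b - 1) = 0 := by rw [map_sub, h2, map_one, sub_self]
    have h4 := hj _ h3
    rw [map_sub, map_one, RingHom.mem_ker.mp hb, zero_sub, neg_eq_zero] at h4
    exact one_ne_zero h4
  obtain ⟨b0, hb0, hjb0⟩ := h0
  obtain ⟨Q, hQ1, hQ2⟩ := exists_place_of_subring (k := Ω) A (fun a => by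
    obtain ⟨b, hb⟩ := hk a
    exact ⟨b, hb⟩) I hI ⟨j.rangeRestrict b0, Ideal.mem_map_of_mem _ hb0, fun h =>
      hjb0 (congrArg Subtype.val h)⟩
  exact ⟨Q, fun b => hQ1 _ ⟨b, rfl⟩, fun b hb =>
    hQ2 (j.rangeRestrict b) (Ideal.mem_map_of_mem _ hb)⟩

/-- Every `k`-embedding `F → Ω` is the residue map of a place. -/
theorem IsConstExt.exists_gen (hM : IsConstExt k Ω F M) (hF : IsFunctionField k F)
    (φ : F →ₐ[k] Ω) : ∃ Q : Place Ω M, Gen Q φ := by
  obtain ⟨x, hx, -⟩ := hF
  obtain ⟨Q, hQ1, hQ2⟩ := exists_place_of_hom (Ω := Ω) (M := M) (prodMap k Ω F M).toRingHom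
    (Algebra.TensorProduct.productMap (AlgHom.id k Ω) φ).toRingHom
    (fun a => ⟨a ⊗ₜ 1, by
      change prodMap k Ω F M (a ⊗ₜ 1) = _
      rw [prodMap_tmul, map_one, mul_one]⟩)
    (fun b hb => by
      have : b = 0 := hM.inj (by rw [map_zero]; exact hb)
      rw [this, map_zero])
    ⟨1 ⊗ₜ x - φ x ⊗ₜ 1, by
      change Algebra.TensorProduct.productMap (AlgHom.id k Ω) φ (1 ⊗ₜ x - φ x ⊗ₜ 1) = 0
      rw [map_sub, Algebra.TensorProduct.productMap_apply_tmul,
        Algebra.TensorProduct.productMap_apply_tmul]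
      simp, by
      change prodMap k Ω F M (1 ⊗ₜ x - φ x ⊗ₜ 1) ≠ 0
      rw [map_sub, prodMap_tmul, prodMap_tmul, map_one, map_one, mul_one, one_mul, sub_ne_zero]
      intro h
      apply hM.transcendental hx
      rw [h]
      exact isAlgebraic_algebraMap _⟩
  refine ⟨Q, fun f => ?_⟩
  have h := hQ2 (1 ⊗ₜ f - φ f ⊗ₜ 1) (by
    change Algebra.TensorProduct.productMap (AlgHom.id k Ω) φ (1 ⊗ₜ f - φ f ⊗ₜ 1) = 0
    rw [map_sub, Algebra.TensorProduct.productMap_apply_tmul,
      Algebra.TensorProduct.productMap_apply_tmul]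
    simp)
  change prodMap k Ω F M (1 ⊗ₜ f - φ f ⊗ₜ 1) ∈ _ at h
  rw [map_sub, prodMap_tmul, prodMap_tmul, map_one, map_one, mul_one, one_mul] at h
  exact h

variable [IsAlgClosed k] [IsAlgClosed Ω]

/-- Every place of `F` lies under a place of `M`. -/
theorem IsConstExt.exists_over (hM : IsConstExt k Ω F M) (hF : IsFunctionField k F)
    (P : Place k F) : ∃ Q : Place Ω M, Over Q P := by
  let a1 : Algebra k P.ring := ringAlg P
  let evk : P.ring →ₐ[k] k := { ev hF P with
    commutes' := fun c => ev_algebraMap hF P c }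
  let incl : P.ring →ₐ[k] F := { P.ring.subtype with commutes' := fun c => rfl }
  let j : Ω ⊗[k] P.ring →ₐ[k] M :=
    (prodMap k Ω F M).comp (Algebra.TensorProduct.map (AlgHom.id k Ω) incl)
  let ψ : Ω ⊗[k] P.ring →ₐ[k] Ω :=
    Algebra.TensorProduct.productMap (AlgHom.id k Ω) ((Algebra.ofId k Ω).comp evk)
  have hjt : ∀ (a : Ω) (f : P.ring), j (a ⊗ₜ f) = algebraMap Ω M a * algebraMap F M f := by
    intro a f
    change prodMap k Ω F M (Algebra.TensorProduct.map (AlgHom.id k Ω) incl (a ⊗ₜ f)) = _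
    rw [Algebra.TensorProduct.map_tmul, prodMap_tmul]
    rfl
  have hψt : ∀ (a : Ω) (f : P.ring), ψ (a ⊗ₜ f) = a * algebraMap k Ω (ev hF P f) := by
    intro a f
    change Algebra.TensorProduct.productMap (AlgHom.id k Ω) ((Algebra.ofId k Ω).comp evk)
      (a ⊗ₜ f) = _
    rw [Algebra.TensorProduct.productMap_apply_tmul]
    rfl
  have hjinj : Function.Injective j := by
    apply hM.inj.comp
    have h := Module.Flat.lTensor_preserves_injective_linearMap (M := Ω) incl.toLinearMap
      Subtype.val_injective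
    exact h
  obtain ⟨π, hπ0, hπ⟩ := exists_uniformizer hF P
  have hπn : π ∈ P.ring.nonunits := by
    rw [← ord_pos_iff hF P hπ0, hπ]; norm_num
  obtain ⟨Q, hQ1, hQ2⟩ := exists_place_of_hom (Ω := Ω) (M := M) j.toRingHom ψ.toRingHom
    (fun a => ⟨a ⊗ₜ 1, by
      change j (a ⊗ₜ 1) = _
      rw [hjt]
      change algebraMap Ω M a * algebraMap F M 1 = _
      rw [map_one, mul_one]⟩)
    (fun b hb => by
      have : b = 0 := hjinj (by rw [map_zero]; exact hb)
      rw [this, map_zero])
    ⟨1 ⊗ₜ ⟨π, ValuationSubring.nonunits_subset hπn⟩, by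
      change ψ (1 ⊗ₜ ⟨π, ValuationSubring.nonunits_subset hπn⟩) = 0
      rw [hψt, (ev_eq_zero_iff hF P _).mpr hπn, map_zero, mul_zero], by
      change j (1 ⊗ₜ ⟨π, ValuationSubring.nonunits_subset hπn⟩) ≠ 0
      rw [hjt, map_one, one_mul]
      exact (_root_.map_ne_zero _).mpr hπ0⟩
  have hmem : ∀ f ∈ P.ring, algebraMap F M f ∈ Q.ring := by
    intro f hf
    have := hQ1 (1 ⊗ₜ ⟨f, hf⟩)
    change j (1 ⊗ₜ ⟨f, hf⟩) ∈ _ at this
    rwa [hjt, map_one, one_mul] at this
  have hnon : ∀ f ∈ P.ring.nonunits, algebraMap F M f ∈ Q.ring.nonunits := by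
    intro f hf
    have := hQ2 (1 ⊗ₜ ⟨f, ValuationSubring.nonunits_subset hf⟩) (by
      change ψ (1 ⊗ₜ ⟨f, ValuationSubring.nonunits_subset hf⟩) = 0
      rw [hψt, (ev_eq_zero_iff hF P _).mpr hf, map_zero, mul_zero])
    change j (1 ⊗ₜ ⟨f, ValuationSubring.nonunits_subset hf⟩) ∈ _ at this
    rwa [hjt, map_one, one_mul] at this
  refine ⟨Q, fun f => ⟨fun h => ?_, hmem f⟩⟩
  by_contra hf
  have hf0 : f ≠ 0 := by
    rintro rfl
    exact hf P.ring.zero_mem
  have h1 : f⁻¹ ∈ P.ring.nonunits := by
    rw [ValuationSubring.inv_mem_nonunits_iff]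
    exact Or.inr hf
  have h2 := hnon _ h1
  rw [map_inv₀, ValuationSubring.inv_mem_nonunits_iff] at h2
  rcases h2 with h2 | h2
  · exact hf0 ((map_eq_zero _).mp h2)
  · exact h2 h

/-- Every place of `M` lies over a place of `F` or is trivial on `F`. -/
theorem IsConstExt.over_or_gen (hM : IsConstExt k Ω F M) (hF : IsFunctionField k F)
    (Q : Place Ω M) : (∃ P : Place k F, Over Q P) ∨ ∃ φ : F →ₐ[k] Ω, Gen Q φ := by
  by_cases h : Q.ring.comap (algebraMap F M) = ⊤
  · right
    have hMF := hM.isFunctionField hF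
    have hmem : ∀ f : F, algebraMap F M f ∈ Q.ring := by
      intro f
      rw [← ValuationSubring.mem_comap, h]
      exact ValuationSubring.mem_top f
    let j : F →+* Q.ring := (algebraMap F M).codRestrict Q.ring.toSubring hmem
    refine ⟨{ (ev hMF Q).comp j with
      commutes' := fun c => ?_ }, fun f => ?_⟩
    · change ev hMF Q ⟨algebraMap F M (algebraMap k F c), _⟩ = algebraMap k Ω c
      rw [ev_eq_iff]
      change algebraMap F M (algebraMap k F c) - algebraMap Ω M (algebraMap k Ω c) ∈ _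
      rw [← IsScalarTower.algebraMap_apply, ← IsScalarTower.algebraMap_apply, sub_self]
      exact zero_mem _
    · exact ev_spec hMF Q (j f)
  · left
    refine ⟨⟨Q.ring.comap (algebraMap F M), fun a => ?_, h⟩, fun f => ?_⟩
    · rw [ValuationSubring.mem_comap, ← IsScalarTower.algebraMap_apply k F M,
        IsScalarTower.algebraMap_apply k Ω M]
      exact Q.algebraMap_mem _
    · exact Iff.rfl

end places

end FF
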