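import Mathlib
import Pool.Agent.Helper17.FF.Const

/-!
# Places of constant field extensions: uniqueness and uniformizers
-/

set_option linter.unusedSectionVars false

namespace FF

open VC WithZero Polynomial IntermediateField
open scoped TensorProduct

universe u

variable {k Ω F M : Type u} [Field k] [Field Ω] [Field F] [Field M] [Algebra k Ω] [Algebra k F]
  [Algebra Ω M] [Algebra F M] [Algebra k M] [IsScalarTower k Ω M] [IsScalarTower k F M]
  [IsAlgClosed k] [IsAlgClosed Ω] (hM : IsConstExt k Ω F M) (hF : IsFunctionField k F)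

include hM hF

lemma Over.exists_ram {Q : Place Ω M} {P : Place k F} (h : Over Q P) :
    ∃ e : ℤ, 0 < e ∧ ∀ f : F, f ≠ 0 → ord Q.ring (algebraMap F M f) = e * ord P.ring f := by
  have hMF := hM.isFunctionField hF
  obtain ⟨π, hπ0, hπ⟩ := exists_uniformizer hF P
  have hπ0' : algebraMap F M π ≠ 0 := (_root_.map_ne_zero _).mpr hπ0
  have hunit : ∀ f : F, f ≠ 0 → ord P.ring f = 0 → ord Q.ring (algebraMap F M f) = 0 := by
    intro f hf h0
    have hf' : algebraMap F M f ≠ 0 := (_root_.map_ne_zero _).mpr hf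
    have h1 : 0 ≤ ord Q.ring (algebraMap F M f) := by
      rw [ord_nonneg_iff hMF Q hf', h f, ← ord_nonneg_iff hF P hf, h0]
    have h2 : ¬ 0 < ord Q.ring (algebraMap F M f) := by
      rw [ord_pos_iff hMF Q hf', h.nonunits, ← ord_pos_iff hF P hf, h0]
      exact lt_irrefl _
    omega
  refine ⟨ord Q.ring (algebraMap F M π), ?_, fun f hf => ?_⟩
  · rw [ord_pos_iff hMF Q hπ0', h.nonunits, ← ord_pos_iff hF P hπ0, hπ]
    norm_num
  · have h1 : f = (f / π ^ (ord P.ring f)) * π ^ (ord P.ring f) := by
      rw [div_mul_cancel₀ _ (zpow_ne_zero _ hπ0)]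
    have h2 : f / π ^ (ord P.ring f) ≠ 0 := div_ne_zero hf (zpow_ne_zero _ hπ0)
    have h3 : ord P.ring (f / π ^ (ord P.ring f)) = 0 := by
      rw [ord_div hF P hf (zpow_ne_zero _ hπ0), ord_zpow hF P hπ0, hπ]
      ring
    conv_lhs => rw [h1]
    rw [map_mul, map_zpow₀, ord_mul hMF Q ((_root_.map_ne_zero _).mpr h2)
      (zpow_ne_zero _ hπ0'), hunit _ h2 h3, ord_zpow hMF Q hπ0']
    ring

/-- the counting argument for places over places of `F` -/
lemma Over.count {Q : Place Ω M} {P : Place k F} (h : Over Q P) :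
    (∀ f : F, ord Q.ring (algebraMap F M f) = ord P.ring f) ∧
      ∀ Q' : Place Ω M, Over Q' P → Q' = Q := by
  classical
  have hMF := hM.isFunctionField hF
  obtain ⟨t, ht0, ht⟩ := exists_uniformizer hF P
  have htn : t ∈ P.ring.nonunits := by
    rw [← ord_pos_iff hF P ht0, ht]; norm_num
  have htr := transcendental_of_mem_nonunits P ht0 htn
  have ht0' : algebraMap F M t ≠ 0 := (_root_.map_ne_zero _).mpr ht0
  have hfin := hF.finiteDimensional htr
  have htrM := hM.transcendental htr
  choose q hq using hM.exists_over hF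
  choose e he0 he using fun p : {p : Place Ω M × Place k F // Over p.1 p.2} =>
    Over.exists_ram hM hF p.2
  -- the zeros of `t`
  set S := (poles hF t⁻¹).support with hS
  have hSt : ∀ P' ∈ S, 0 < ord P'.ring t := by
    intro P' hP'
    rw [hS, Finsupp.mem_support_iff, poles_apply, ord_inv hF P' ht0, neg_neg] at hP'
    by_contra hcon
    exact hP' (max_eq_right (not_lt.mp hcon))
  have hPS : P ∈ S := by
    rw [hS, Finsupp.mem_support_iff, poles_apply, ord_inv hF P ht0, neg_neg, ht]
    norm_num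
  have hN : ∑ P' ∈ S, ord P'.ring t = Module.finrank k⟮t⟯ F := by
    have h1 := deg_poles hF (transcendental_inv' htr)
    rw [adjoin_inv, deg_eq, Finsupp.sum] at h1
    rw [← h1]
    apply Finset.sum_congr rfl
    intro P' hP'
    have := hSt P' hP'
    rw [poles_apply, ord_inv hF P' ht0, neg_neg, max_eq_left this.le]
  -- a choice of places above with `Q` above `P`
  let r : Place k F → Place Ω M := Function.update q P Q
  have hr : ∀ P', Over (r P') P' := by
    intro P'
    by_cases hPP : P' = P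
    · subst hPP
      simp only [r, Function.update_self]
      exact h
    · simp only [r, Function.update_of_ne hPP]
      exact hq P'
  have hrinj : Function.Injective r := fun P₁ P₂ h12 => (hr P₁).unique (h12 ▸ hr P₂)
  have hord : ∀ P' ∈ S, ord P'.ring t ≤ ord (r P').ring (algebraMap F M t) := by
    intro P' hP'
    rw [he ⟨(r P', P'), hr P'⟩ t ht0]
    have h1 := he0 ⟨(r P', P'), hr P'⟩
    have h2 := hSt P' hP'
    nlinarith
  have hsum : ∀ T : Finset (Place Ω M), (∀ Q' ∈ T, algebraMap F M t ∈ Q'.ring.nonunits) →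
      ∑ Q' ∈ T, ord Q'.ring (algebraMap F M t) ≤ Module.finrank k⟮t⟯ F := by
    intro T hT
    refine (sum_ord_le hMF htrM T hT).trans ?_
    exact_mod_cast (hM.finite hfin).2
  have hnon : ∀ P' ∈ S, algebraMap F M t ∈ (r P').ring.nonunits := by
    intro P' hP'
    rw [(hr P').nonunits, ← ord_pos_iff hF P' ht0]
    exact hSt P' hP'
  have hrP : r P = Q := Function.update_self _ _ _
  constructor
  · -- no ramification
    have h1 := hsum (S.image r) (by
      intro Q' hQ'
      obtain ⟨P', hP', rfl⟩ := Finset.mem_image.mp hQ'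
      exact hnon P' hP')
    rw [Finset.sum_image (fun _ _ _ _ h => hrinj h), ← hN] at h1
    have h2 : ord (r P).ring (algebraMap F M t) ≤ ord P.ring t := by
      by_contra hcon
      push Not at hcon
      exact absurd h1 (not_le.mpr (Finset.sum_lt_sum hord ⟨P, hPS, hcon⟩))
    rw [hrP, he ⟨(Q, P), h⟩ t ht0, ht, mul_one] at h2
    have h3 : e ⟨(Q, P), h⟩ = 1 := by
      have := he0 ⟨(Q, P), h⟩
      omega
    intro f
    rcases eq_or_ne f 0 with hf | hf
    · rw [hf, map_zero, ord_zero, ord_zero]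
    · rw [he ⟨(Q, P), h⟩ f hf, h3, one_mul]
  · intro Q' hQ'
    by_contra hne
    have hQ'r : Q' ∉ S.image r := by
      intro hmem
      obtain ⟨P', hP', hP''⟩ := Finset.mem_image.mp hmem
      have h1 : P' = P := (hr P').unique (hP'' ▸ hQ')
      rw [h1, hrP] at hP''
      exact hne hP''.symm
    have h1 := hsum (insert Q' (S.image r)) (by
      intro Q₁ hQ₁
      rcases Finset.mem_insert.mp hQ₁ with rfl | hQ₁
      · rw [hQ'.nonunits]; exact htn
      · obtain ⟨P', hP', rfl⟩ := Finset.mem_image.mp hQ₁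
        exact hnon P' hP')
    rw [Finset.sum_insert hQ'r, Finset.sum_image (fun _ _ _ _ h => hrinj h), ← hN] at h1
    have h2 := Finset.sum_le_sum hord
    have h3 : 0 < ord Q'.ring (algebraMap F M t) := by
      rw [ord_pos_iff hMF Q' ht0', hQ'.nonunits]
      exact htn
    linarith

theorem Over.ord_eq {Q : Place Ω M} {P : Place k F} (h : Over Q P) (f : F) :
    ord Q.ring (algebraMap F M f) = ord P.ring f := (Over.count hM hF h).1 f

theorem Over.eq {Q Q' : Place Ω M} {P : Place k F} (h : Over Q P) (h' : Over Q' P) : Q = Q' :=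
  ((Over.count hM hF h').2 Q h)

variable [CharZero k]

lemma Gen.count {Q : Place Ω M} {φ : F →ₐ[k] Ω} (h : Gen Q φ) {x : F} (hx : Transcendental k x) :
    ord Q.ring (algebraMap F M x - algebraMap Ω M (φ x)) = 1 ∧
      ∀ Q' : Place Ω M, Gen Q' φ → Q' = Q := by
  classical
  have hMF := hM.isFunctionField hF
  have hfin := hF.finiteDimensional hx
  have hxM := hM.transcendental hx
  set y := algebraMap F M x - algebraMap Ω M (φ x) with hy
  have hytr : Transcendental Ω y := by
    intro hcon
    apply hxM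
    have h1 : algebraMap F M x = y + algebraMap Ω M (φ x) := by rw [hy]; ring
    rw [h1]
    exact hcon.add (isAlgebraic_algebraMap _)
  have hy0 : y ≠ 0 := by
    intro h0
    rw [h0] at hytr
    exact hytr isAlgebraic_zero
  have hadj : Ω⟮y⟯ = Ω⟮algebraMap F M x⟯ := by
    apply le_antisymm
    · rw [IntermediateField.adjoin_simple_le_iff, hy]
      exact sub_mem (IntermediateField.mem_adjoin_simple_self Ω _)
        (IntermediateField.algebraMap_mem _ _)
    · rw [IntermediateField.adjoin_simple_le_iff]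
      have h1 : algebraMap F M x = y + algebraMap Ω M (φ x) := by rw [hy]; ring
      rw [h1]
      exact add_mem (IntermediateField.mem_adjoin_simple_self Ω _)
        (IntermediateField.algebraMap_mem _ _)
  let K0 := k⟮x⟯
  let iK : Algebra K0 Ω := (φ.toRingHom.comp (algebraMap K0 F)).toAlgebra
  have sK : IsScalarTower k K0 Ω := IsScalarTower.of_algebraMap_eq (fun c => by
    change algebraMap k Ω c = φ (algebraMap K0 F (algebraMap k K0 c))
    rw [← IsScalarTower.algebraMap_apply k K0 F, AlgHom.commutes])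
  have hc0 : CharZero K0 := charZero_of_injective_algebraMap (algebraMap k K0).injective
  have hcard : Fintype.card (F →ₐ[K0] Ω) = Module.finrank K0 F := AlgHom.card K0 F Ω
  have hx' : ∀ χ : F →ₐ[K0] Ω, χ x = φ x := by
    intro χ
    have h1 := χ.commutes (AdjoinSimple.gen k x)
    rw [AdjoinSimple.algebraMap_gen] at h1
    rw [h1]
    change φ (algebraMap K0 F (AdjoinSimple.gen k x)) = φ x
    rw [AdjoinSimple.algebraMap_gen]
  choose q hq using fun χ : F →ₐ[K0] Ω => hM.exists_gen hF (χ.restrictScalars k)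
  let φ₀ : F →ₐ[K0] Ω := { φ with commutes' := fun c => rfl }
  have hφ₀ : φ₀.restrictScalars k = φ := by ext; rfl
  let r : (F →ₐ[K0] Ω) → Place Ω M := Function.update q φ₀ Q
  have hr : ∀ χ, Gen (r χ) (χ.restrictScalars k) := by
    intro χ
    by_cases hχ : χ = φ₀
    · subst hχ
      simp only [r, Function.update_self]
      rw [hφ₀]
      exact h
    · simp only [r, Function.update_of_ne hχ]
      exact hq χ
  have hrinj : Function.Injective r := by
    intro χ₁ χ₂ h12
    have h1 := (hr χ₁).unique (h12 ▸ hr χ₂)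
    ext f
    exact DFunLike.congr_fun h1 f
  have hzero : ∀ (Q' : Place Ω M) (χ : F →ₐ[K0] Ω), Gen Q' (χ.restrictScalars k) →
      y ∈ Q'.ring.nonunits := by
    intro Q' χ hQ'
    have h1 := hQ' x
    rw [AlgHom.restrictScalars_apply, hx' χ] at h1
    exact h1
  have hpos : ∀ (Q' : Place Ω M) (χ : F →ₐ[K0] Ω), Gen Q' (χ.restrictScalars k) →
      1 ≤ ord Q'.ring y := by
    intro Q' χ hQ'
    exact (ord_pos_iff hMF Q' hy0).mpr (hzero Q' χ hQ')
  have hsum : ∀ T : Finset (Place Ω M), (∀ Q' ∈ T, y ∈ Q'.ring.nonunits) →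
      ∑ Q' ∈ T, ord Q'.ring y ≤ Module.finrank K0 F := by
    intro T hT
    refine (sum_ord_le hMF hytr T hT).trans ?_
    rw [hadj]
    exact_mod_cast (hM.finite hfin).2
  have hrφ : r φ₀ = Q := Function.update_self _ _ _
  have hbase : (Module.finrank K0 F : ℤ) = ∑ χ : F →ₐ[K0] Ω, (1 : ℤ) := by
    rw [← hcard]
    simp
  constructor
  · have h1 := hsum (Finset.univ.image r) (by
      intro Q' hQ'
      obtain ⟨χ, -, rfl⟩ := Finset.mem_image.mp hQ'
      exact hzero _ χ (hr χ))
    rw [Finset.sum_image (fun _ _ _ _ h => hrinj h), hbase] at h1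
    have h2 : ord (r φ₀).ring y ≤ 1 := by
      by_contra hcon
      push Not at hcon
      exact absurd h1 (not_le.mpr (Finset.sum_lt_sum (fun χ _ => hpos _ χ (hr χ))
        ⟨φ₀, Finset.mem_univ _, hcon⟩))
    have h3 := hpos _ φ₀ (hr φ₀)
    rw [hrφ] at h2 h3
    omega
  · intro Q' hQ'
    by_contra hne
    have hQ'' : Gen Q' (φ₀.restrictScalars k) := by rw [hφ₀]; exact hQ'
    have hQ'r : Q' ∉ Finset.univ.image r := by
      intro hmem
      obtain ⟨χ, -, hχ⟩ := Finset.mem_image.mp hmem
      have h1 : χ.restrictScalars k = φ₀.restrictScalars k := (hr χ).unique (hχ ▸ hQ'')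
      have h2 : χ = φ₀ := by
        ext f
        exact DFunLike.congr_fun h1 f
      rw [h2, hrφ] at hχ
      exact hne hχ.symm
    have h1 := hsum (insert Q' (Finset.univ.image r)) (by
      intro Q₁ hQ₁
      rcases Finset.mem_insert.mp hQ₁ with rfl | hQ₁
      · exact hzero _ φ₀ hQ''
      · obtain ⟨χ, -, rfl⟩ := Finset.mem_image.mp hQ₁
        exact hzero _ χ (hr χ))
    rw [Finset.sum_insert hQ'r, Finset.sum_image (fun _ _ _ _ h => hrinj h), hbase] at h1
    have h2 := Finset.sum_le_sum (s := Finset.univ) (fun χ (_ : χ ∈ Finset.univ) => hpos _ χ (hr χ))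
    have h3 := hpos _ φ₀ hQ''
    linarith

theorem Gen.ord_sub {Q : Place Ω M} {φ : F →ₐ[k] Ω} (h : Gen Q φ) {x : F}
    (hx : Transcendental k x) : ord Q.ring (algebraMap F M x - algebraMap Ω M (φ x)) = 1 :=
  (Gen.count hM hF h hx).1

theorem Gen.eq {Q Q' : Place Ω M} {φ : F →ₐ[k] Ω} (h : Gen Q φ) (h' : Gen Q' φ) : Q = Q' := by
  obtain ⟨x, hx, -⟩ := id hF
  exact (Gen.count hM hF h' hx).2 Q h

end FF
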