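import Mathlib

/-!
# Extension of derivations
-/

namespace FF

open scoped TensorProduct KaehlerDifferential

section etale

variable {R S T N : Type*} [CommRing R] [CommRing S] [CommRing T] [Algebra R S] [Algebra S T]
  [Algebra R T] [IsScalarTower R S T] [AddCommGroup N] [Module T N] [Module S N] [Module R N]
  [IsScalarTower S T N] [IsScalarTower R S N] [IsScalarTower R T N]

/-- Derivations extend along formally étale maps. -/
theorem exists_derivation_ext [Algebra.FormallyEtale S T] (d : Derivation R S N) :
    ∃ D : Derivation R T N, ∀ s, D (algebraMap S T s) = d s := by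
  refine ⟨((LinearMap.liftBaseChange T d.liftKaehlerDifferential) ∘ₗ
    (KaehlerDifferential.tensorKaehlerEquivOfFormallyEtale R S T).symm.toLinearMap).compDer
    (KaehlerDifferential.D R T), fun s => ?_⟩
  change LinearMap.liftBaseChange T d.liftKaehlerDifferential
    ((KaehlerDifferential.tensorKaehlerEquivOfFormallyEtale R S T).symm
      (KaehlerDifferential.D R T (algebraMap S T s))) = d s
  rw [KaehlerDifferential.tensorKaehlerEquivOfFormallyEtale_symm_D_algebraMap,
    LinearMap.liftBaseChange_tmul, one_smul, Derivation.liftKaehlerDifferential_comp_D]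

/-- Additive version. -/
theorem exists_derivation_ext_int {S T : Type*} [CommRing S] [CommRing T] [Algebra S T]
    [Algebra.FormallyEtale S T] (d : S →+ T)
    (hd : ∀ x y, d (x * y) = algebraMap S T x * d y + algebraMap S T y * d x) :
    ∃ D : Derivation ℤ T T, ∀ s, D (algebraMap S T s) = d s := by
  let d' : Derivation ℤ S T := Derivation.mk' d.toIntLinearMap (by
    intro x y
    change d (x * y) = x • d y + y • d x
    rw [hd, Algebra.smul_def, Algebra.smul_def])
  exact exists_derivation_ext (R := ℤ) (S := S) (T := T) (N := T) d'

end etale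

section field

variable {K L : Type*} [Field K] [Field L] [Algebra K L] [CharZero K]

open scoped IntermediateField.algebraAdjoinAdjoin in
/-- A transcendental element is not killed by all derivations. -/
theorem exists_derivation_ne_zero {a : L} (ha : Transcendental K a) :
    ∃ δ : Derivation K L L, δ a = 1 := by
  classical
  have hai : AlgebraicIndepOn K id ({a} : Set L) := by
    have := algebraicIndependent_unique_type_iff (R := K) (A := L) (ι := ({a} : Set L))
      (x := fun i => (i : L))
    exact this.mpr ha
  obtain ⟨s, has, hs⟩ := exists_isTranscendenceBasis_superset hai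
  have haS : a ∈ s := has rfl
  let v : s → L := fun i => i
  have hv : IsTranscendenceBasis K v := hs
  have hvi : AlgebraicIndependent K v := hv.1
  have halg : Algebra.IsAlgebraic (IntermediateField.adjoin K (Set.range v)) L :=
    hv.isAlgebraic_field
  have hc : CharZero (IntermediateField.adjoin K (Set.range v)) :=
    charZero_of_injective_algebraMap
      (algebraMap K (IntermediateField.adjoin K (Set.range v))).injective
  have hsep : Algebra.IsSeparable (IntermediateField.adjoin K (Set.range v)) L := inferInstance
  have he1 : Algebra.FormallyEtale (IntermediateField.adjoin K (Set.range v)) L :=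
    Algebra.FormallyEtale.of_isSeparable _ L
  have he2 : Algebra.FormallyEtale (Algebra.adjoin K (Set.range v))
      (IntermediateField.adjoin K (Set.range v)) :=
    .of_isLocalization (nonZeroDivisors _)
  have he3 : Algebra.FormallyEtale (Algebra.adjoin K (Set.range v)) L :=
    .comp _ (IntermediateField.adjoin K (Set.range v)) _
  -- the derivation on the polynomial ring
  let S := Algebra.adjoin K (Set.range v)
  let e : MvPolynomial s K ≃ₐ[K] S := hvi.aevalEquiv
  let d : Derivation K S L := Derivation.mk'
    ((IsScalarTower.toAlgHom K S L).toLinearMap ∘ₗ e.toLinearMap ∘ₗ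
      (MvPolynomial.pderiv (R := K) (⟨a, haS⟩ : s)).toLinearMap ∘ₗ e.symm.toLinearMap) (by
      intro x y
      change algebraMap S L (e (MvPolynomial.pderiv (⟨a, haS⟩ : s) (e.symm (x * y)))) =
        x • algebraMap S L (e (MvPolynomial.pderiv (⟨a, haS⟩ : s) (e.symm y))) +
        y • algebraMap S L (e (MvPolynomial.pderiv (⟨a, haS⟩ : s) (e.symm x)))
      rw [map_mul, Derivation.leibniz, map_add, map_add, smul_eq_mul, smul_eq_mul, map_mul,
        map_mul, map_mul, map_mul, AlgEquiv.apply_symm_apply, AlgEquiv.apply_symm_apply,
        Algebra.smul_def, Algebra.smul_def])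
  obtain ⟨D, hD⟩ := exists_derivation_ext (R := K) (S := S) (T := L) (N := L) d
  refine ⟨D, ?_⟩
  have haS' : a ∈ S := Algebra.subset_adjoin ⟨⟨a, haS⟩, rfl⟩
  have h1 := hD ⟨a, haS'⟩
  have h2 : algebraMap S L ⟨a, haS'⟩ = a := rfl
  rw [h2] at h1
  rw [h1]
  change algebraMap S L (e (MvPolynomial.pderiv (⟨a, haS⟩ : s) (e.symm ⟨a, haS'⟩))) = 1
  have h3 : e.symm ⟨a, haS'⟩ = MvPolynomial.X ⟨a, haS⟩ := by
    rw [AlgEquiv.symm_apply_eq]
    apply Subtype.ext
    change a = algebraMap S L (hvi.aevalEquiv (MvPolynomial.X ⟨a, haS⟩))
    rw [AlgebraicIndependent.algebraMap_aevalEquiv, MvPolynomial.aeval_X]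
  rw [h3, MvPolynomial.pderiv_X_self, map_one, map_one]

end field

end FF
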