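import Mathlib
import Pool.Agent.Helper17.FF.ConstPl
import Pool.Agent.Helper17.FF.Deriv
import Pool.Agent.SC.Deriv

/-!
# Derivations and automorphisms of constant field extensions
-/

set_option linter.unusedSectionVars false

namespace FF

open VC WithZero Polynomial IntermediateField
open scoped TensorProduct

universe u

section ext

variable {k Ω F M : Type u} [Field k] [Field Ω] [Field F] [Field M] [Algebra k Ω] [Algebra k F]
  [Algebra Ω M] [Algebra F M] [Algebra k M] [IsScalarTower k Ω M] [IsScalarTower k F M]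

variable (k Ω F M) in
@[reducible] noncomputable def prodAlg : Algebra (Ω ⊗[k] F) M :=
  (prodMap k Ω F M).toRingHom.toAlgebra

lemma IsConstExt.isFractionRing (hM : IsConstExt k Ω F M) :
    @IsFractionRing (Ω ⊗[k] F) _ M _ (prodAlg k Ω F M) := by
  let i := prodAlg k Ω F M
  have hd : IsDomain (Ω ⊗[k] F) := hM.inj.isDomain (prodMap k Ω F M).toRingHom
  refine ⟨fun y => ?_, fun z => ?_, fun {x y} hxy => ?_⟩
  · have h0 : (y : Ω ⊗[k] F) ≠ 0 := nonZeroDivisors.ne_zero y.2
    change IsUnit (prodMap k Ω F M (y : Ω ⊗[k] F))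
    rw [isUnit_iff_ne_zero]
    intro h
    exact h0 (hM.inj (by rw [h, map_zero]))
  · obtain ⟨s, t, ht, hz⟩ := hM.frac z
    refine ⟨⟨s, t, mem_nonZeroDivisors_iff_ne_zero.mpr ?_⟩, hz⟩
    rintro rfl
    exact ht (map_zero _)
  · exact ⟨1, by rw [hM.inj hxy]⟩

/-- A derivation of the new constants extends to `M`, killing `F`. -/
theorem IsConstExt.exists_derivation (hM : IsConstExt k Ω F M) (δ : Derivation k Ω Ω) :
    ∃ D : Derivation ℤ M M, (∀ a : Ω, D (algebraMap Ω M a) = algebraMap Ω M (δ a)) ∧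
      ∀ f : F, D (algebraMap F M f) = 0 := by
  let i := prodAlg k Ω F M
  have hfr := hM.isFractionRing
  have het : Algebra.FormallyEtale (Ω ⊗[k] F) M := .of_isLocalization (nonZeroDivisors _)
  let L : Ω ⊗[k] F →ₗ[k] M := (prodMap k Ω F M).toLinearMap ∘ₗ
    (LinearMap.rTensor F (δ : Ω →ₗ[k] Ω))
  have hL : ∀ (a : Ω) (f : F), L (a ⊗ₜ f) = algebraMap Ω M (δ a) * algebraMap F M f := by
    intro a f
    change prodMap k Ω F M ((LinearMap.rTensor F (δ : Ω →ₗ[k] Ω)) (a ⊗ₜ f)) = _
    rw [LinearMap.rTensor_tmul, prodMap_tmul]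
    rfl
  have hleib : ∀ x y : Ω ⊗[k] F, L (x * y) = prodMap k Ω F M x * L y + prodMap k Ω F M y * L x := by
    intro x y
    induction x using TensorProduct.induction_on with
    | zero => simp
    | add x₁ x₂ h₁ h₂ =>
      rw [add_mul, map_add, h₁, h₂, map_add, map_add]
      ring
    | tmul a f =>
      induction y using TensorProduct.induction_on with
      | zero => simp
      | add y₁ y₂ h₁ h₂ =>
        rw [mul_add, map_add, h₁, h₂, map_add, map_add]
        ring
      | tmul b g =>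
        rw [Algebra.TensorProduct.tmul_mul_tmul, hL, hL, hL, prodMap_tmul, prodMap_tmul,
          Derivation.leibniz, map_add, smul_eq_mul, smul_eq_mul, map_mul, map_mul, map_mul]
        ring
  obtain ⟨D, hD⟩ := exists_derivation_ext_int (S := Ω ⊗[k] F) (T := M) L.toAddMonoidHom hleib
  refine ⟨D, fun a => ?_, fun f => ?_⟩
  · have h1 := hD (a ⊗ₜ 1)
    have h2 : algebraMap (Ω ⊗[k] F) M (a ⊗ₜ 1) = algebraMap Ω M a := by
      change prodMap k Ω F M (a ⊗ₜ 1) = _
      rw [prodMap_tmul, map_one, mul_one]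
    rw [h2] at h1
    rw [h1]
    change L (a ⊗ₜ 1) = _
    rw [hL, map_one, mul_one]
  · have h1 := hD (1 ⊗ₜ f)
    have h2 : algebraMap (Ω ⊗[k] F) M (1 ⊗ₜ f) = algebraMap F M f := by
      change prodMap k Ω F M (1 ⊗ₜ f) = _
      rw [prodMap_tmul, map_one, one_mul]
    rw [h2] at h1
    rw [h1]
    change L (1 ⊗ₜ f) = _
    rw [hL, Derivation.map_one_eq_zero, map_zero, zero_mul]

/-- An automorphism of the new constants extends to `M`, fixing `F`. -/
theorem IsConstExt.exists_aut (hM : IsConstExt k Ω F M) (σ : Ω ≃ₐ[k] Ω) :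
    ∃ τ : M ≃+* M, (∀ a : Ω, τ (algebraMap Ω M a) = algebraMap Ω M (σ a)) ∧
      ∀ f : F, τ (algebraMap F M f) = algebraMap F M f := by
  let i := prodAlg k Ω F M
  have hfr := hM.isFractionRing
  let e : Ω ⊗[k] F ≃+* Ω ⊗[k] F := (Algebra.TensorProduct.congr σ AlgEquiv.refl).toRingEquiv
  let τ : M ≃+* M := IsFractionRing.ringEquivOfRingEquiv e
  have hτ : ∀ s : Ω ⊗[k] F, τ (prodMap k Ω F M s) = prodMap k Ω F M (e s) := by
    intro s
    exact IsFractionRing.ringEquivOfRingEquiv_algebraMap e s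
  refine ⟨τ, fun a => ?_, fun f => ?_⟩
  · have h1 := hτ (a ⊗ₜ 1)
    have h2 : e (a ⊗ₜ 1) = σ a ⊗ₜ 1 := by
      change Algebra.TensorProduct.congr σ AlgEquiv.refl (a ⊗ₜ 1) = _
      rw [Algebra.TensorProduct.congr_apply, Algebra.TensorProduct.map_tmul]
      rfl
    rw [h2, prodMap_tmul, prodMap_tmul, map_one, mul_one, mul_one] at h1
    exact h1
  · have h1 := hτ (1 ⊗ₜ f)
    have h2 : e (1 ⊗ₜ f) = 1 ⊗ₜ f := by
      change Algebra.TensorProduct.congr σ AlgEquiv.refl (1 ⊗ₜ f) = _
      rw [Algebra.TensorProduct.congr_apply, Algebra.TensorProduct.map_tmul]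
      change σ 1 ⊗ₜ f = _
      rw [map_one]
    rw [h2, prodMap_tmul, map_one, one_mul] at h1
    exact h1

end ext

section deriv

variable {k Ω F M : Type u} [Field k] [Field Ω] [Field F] [Field M] [Algebra k Ω] [Algebra k F]
  [Algebra Ω M] [Algebra F M] [Algebra k M] [IsScalarTower k Ω M] [IsScalarTower k F M]
  [IsAlgClosed k] [IsAlgClosed Ω] [CharZero k] (hM : IsConstExt k Ω F M)
  (hF : IsFunctionField k F) (δ : Derivation k Ω Ω) (D : Derivation ℤ M M)
  (hD : ∀ a : Ω, D (algebraMap Ω M a) = algebraMap Ω M (δ a))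
  (hD' : ∀ f : F, D (algebraMap F M f) = 0)

include hM hF hD hD'

/-- The extended derivation preserves all local rings. -/
theorem deriv_mem_ring (Q : Place Ω M) (y : M) (hy : y ∈ Q.ring) : D y ∈ Q.ring := by
  have hMF := hM.isFunctionField hF
  have hc : CharZero Ω := charZero_of_injective_algebraMap (algebraMap k Ω).injective
  rcases hM.over_or_gen hF Q with ⟨P, hP⟩ | ⟨φ, hφ⟩
  · obtain ⟨π, hπ0, hπ⟩ := exists_uniformizer hF P
    refine SC.deriv_mem hMF Q D (fun a => by rw [hD]; exact Q.algebraMap_mem _)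
      (t := algebraMap F M π) ((_root_.map_ne_zero _).mpr hπ0) ?_ ?_ y hy
    · rw [Over.ord_eq hM hF hP, hπ]
    · rw [hD']; exact Q.ring.zero_mem
  · obtain ⟨x, hx, -⟩ := id hF
    have h1 := Gen.ord_sub hM hF hφ hx
    refine SC.deriv_mem hMF Q D (fun a => by rw [hD]; exact Q.algebraMap_mem _)
      (t := algebraMap F M x - algebraMap Ω M (φ x)) ?_ h1 ?_ y hy
    · intro h0
      rw [h0, ord_zero] at h1
      exact zero_ne_one h1
    · rw [map_sub, hD', hD, zero_sub, ← map_neg]
      exact Q.algebraMap_mem _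

/-- At the places over places of `F` the extended derivation is compatible with evaluation. -/
theorem deriv_ev {Q : Place Ω M} {P : Place k F} (h : Over Q P) (y : M) (c : Ω)
    (hy : y - algebraMap Ω M c ∈ Q.ring.nonunits) :
    D y - algebraMap Ω M (δ c) ∈ Q.ring.nonunits := by
  have hMF := hM.isFunctionField hF
  have key : ∀ z ∈ Q.ring.nonunits, D z ∈ Q.ring.nonunits := by
    intro z hz
    rcases eq_or_ne z 0 with hz0 | hz0
    · rw [hz0, map_zero]; exact zero_mem _
    obtain ⟨π, hπ0, hπ⟩ := exists_uniformizer hF P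
    have hπ0' : algebraMap F M π ≠ 0 := (_root_.map_ne_zero _).mpr hπ0
    have h1 : ord Q.ring (algebraMap F M π) = 1 := by rw [Over.ord_eq hM hF h, hπ]
    have h2 : algebraMap F M π ∈ Q.ring.nonunits := by
      rw [← ord_pos_iff hMF Q hπ0', h1]; norm_num
    have h3 : z / algebraMap F M π ∈ Q.ring := by
      rw [← ord_nonneg_iff hMF Q (div_ne_zero hz0 hπ0'), ord_div hMF Q hz0 hπ0', h1]
      have := (ord_pos_iff hMF Q hz0).mpr hz
      omega
    have h4 : D z = D (z / algebraMap F M π) * algebraMap F M π := by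
      have e : z = (z / algebraMap F M π) * algebraMap F M π := by
        rw [div_mul_cancel₀ _ hπ0']
      conv_lhs => rw [e]
      rw [Derivation.leibniz, hD', smul_zero, zero_add, smul_eq_mul, mul_comm]
    rw [h4]
    exact mul_mem_nonunits (deriv_mem_ring hM hF δ D hD hD' Q _ h3) h2
  have h5 := key _ hy
  rwa [map_sub, hD] at h5

end deriv

end FF
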