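import Mathlib
import Pool.Agent.Helper17.FF.ConstAct

/-!
# Rigidity
-/

set_option linter.unusedSectionVars false

namespace FF

open VC WithZero Polynomial IntermediateField
open scoped TensorProduct

universe u

variable {k Ω F M : Type u} [Field k] [Field Ω] [Field F] [Field M] [Algebra k Ω] [Algebra k F]
  [Algebra Ω M] [Algebra F M] [Algebra k M] [IsScalarTower k Ω M] [IsScalarTower k F M]

/-- The point `Q` is defined over the intermediate field `K`. -/
def DefOver (F : Type u) [Field F] [Algebra k F] [Algebra F M] (K : IntermediateField k Ω)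
    (Q : Place Ω M) : Prop :=
  ∀ φ : F →ₐ[k] Ω, Gen Q φ → ∀ f, φ f ∈ K

variable [IsAlgClosed k] [IsAlgClosed Ω] [CharZero k] (hM : IsConstExt k Ω F M)
  (hF : IsFunctionField k F)

include hM hF

omit [IsAlgClosed k] [CharZero k] hM hF in
lemma rr_eq_span {E : Place Ω M →₀ ℤ} (hMF : IsFunctionField Ω M) (hE : ∀ Q, 0 ≤ E Q)
    (hE1 : ell E = 1) {f : M} (hf : f ∈ riemannRochSpace Ω M E) : ∃ c : Ω, algebraMap Ω M c = f := by
  have hfd := finite_rr hMF E
  have h1 : riemannRochSpace Ω M (0 : Place Ω M →₀ ℤ) ≤ riemannRochSpace Ω M E := rr_mono hMF hE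
  have h2 : riemannRochSpace Ω M (0 : Place Ω M →₀ ℤ) = riemannRochSpace Ω M E := by
    apply Submodule.eq_of_le_of_finrank_eq h1
    have h3 := ell_zero hMF
    unfold ell at h3 hE1
    rw [h3, hE1]
  rw [← h2, rr_zero_eq hMF, Submodule.mem_span_singleton] at hf
  obtain ⟨c, hc⟩ := hf
  exact ⟨c, by rw [← hc, Algebra.smul_def, mul_one]⟩

/-- Uniformizers with controlled derivative. -/
lemma exists_unif (δ : Derivation k Ω Ω) (D : Derivation ℤ M M)
    (hD : ∀ a : Ω, D (algebraMap Ω M a) = algebraMap Ω M (δ a))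
    (hD' : ∀ f : F, D (algebraMap F M f) = 0) (Q : Place Ω M) :
    ∃ t : M, t ≠ 0 ∧ ord Q.ring t = 1 ∧ (∃ c : Ω, D t = algebraMap Ω M c) ∧
      ((∀ φ : F →ₐ[k] Ω, Gen Q φ → ∀ f, δ (φ f) = 0) → D t = 0) := by
  rcases hM.over_or_gen hF Q with ⟨P, hP⟩ | ⟨φ, hφ⟩
  · obtain ⟨π, hπ0, hπ⟩ := exists_uniformizer hF P
    exact ⟨algebraMap F M π, (_root_.map_ne_zero _).mpr hπ0, by rw [Over.ord_eq hM hF hP, hπ],
      ⟨0, by rw [hD', map_zero]⟩, fun _ => hD' π⟩
  · obtain ⟨x, hx, -⟩ := id hF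
    have h1 := Gen.ord_sub hM hF hφ hx
    refine ⟨algebraMap F M x - algebraMap Ω M (φ x), ?_, h1, ⟨- δ (φ x), ?_⟩, fun h => ?_⟩
    · intro h0
      rw [h0, ord_zero] at h1
      exact zero_ne_one h1
    · rw [map_sub, hD', hD, zero_sub, map_neg]
    · rw [map_sub, hD', hD, h φ hφ x, map_zero, sub_zero]

lemma logDeriv_formula (δ : Derivation k Ω Ω) (D : Derivation ℤ M M)
    (hD : ∀ a : Ω, D (algebraMap Ω M a) = algebraMap Ω M (δ a))
    (hD' : ∀ f : F, D (algebraMap F M f) = 0) (Q : Place Ω M) {h t : M} (hh : h ≠ 0) (ht0 : t ≠ 0)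
    (ht : ord Q.ring t = 1) :
    D h / h - (ord Q.ring h : M) * (D t / t) ∈ Q.ring := by
  have hMF := hM.isFunctionField hF
  set m := ord Q.ring h with hm
  set u := h / t ^ m with hu
  have hu0 : u ≠ 0 := div_ne_zero hh (zpow_ne_zero _ ht0)
  have hordu : ord Q.ring u = 0 := by
    rw [hu, ord_div hMF Q hh (zpow_ne_zero _ ht0), ord_zpow hMF Q ht0, ht]
    ring
  have huR : u ∈ Q.ring := by rw [← ord_nonneg_iff hMF Q hu0, hordu]
  have huR' : u⁻¹ ∈ Q.ring := by
    rw [← ord_nonneg_iff hMF Q (inv_ne_zero hu0), ord_inv hMF Q hu0, hordu, neg_zero]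
  have hDu := deriv_mem_ring hM hF δ D hD hD' Q u huR
  have hzpow : ∀ n : ℤ, D (t ^ n) / t ^ n = (n : M) * (D t / t) := by
    have hpow : ∀ n : ℕ, D (t ^ n) / t ^ n = (n : M) * (D t / t) := by
      intro n
      rw [Derivation.leibniz_pow, smul_eq_mul, nsmul_eq_mul]
      rcases Nat.eq_zero_or_pos n with hn | hn
      · subst hn; simp
      · obtain ⟨m, rfl⟩ : ∃ m, n = m + 1 := ⟨n - 1, by omega⟩
        rw [Nat.add_sub_cancel, pow_succ]
        field_simp
    intro n
    rcases n with n | n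
    · rw [Int.ofNat_eq_natCast, zpow_natCast, hpow]
      push_cast
      rfl
    · rw [zpow_negSucc]
      have h1 : D (t ^ (n + 1))⁻¹ = - (D (t ^ (n + 1)) / (t ^ (n + 1)) ^ 2) := by
        have h2 : D (t ^ (n + 1) * (t ^ (n + 1))⁻¹) = 0 := by
          rw [mul_inv_cancel₀ (pow_ne_zero _ ht0), Derivation.map_one_eq_zero]
        rw [Derivation.leibniz, smul_eq_mul, smul_eq_mul] at h2
        have h3 : t ^ (n + 1) ≠ 0 := pow_ne_zero _ ht0
        field_simp
        field_simp at h2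
        linear_combination h2
      have h2 := hpow (n + 1)
      rw [h1]
      have h3 : t ^ (n + 1) ≠ 0 := pow_ne_zero _ ht0
      have h4 : -(D (t ^ (n + 1)) / (t ^ (n + 1)) ^ 2) / (t ^ (n + 1))⁻¹ =
          - (D (t ^ (n + 1)) / t ^ (n + 1)) := by
        field_simp
      rw [h4, h2]
      push_cast
      ring
  have hDh : D h / h = D u / u + (m : M) * (D t / t) := by
    rw [← hzpow m]
    have e : h = u * t ^ m := by rw [hu, div_mul_cancel₀ _ (zpow_ne_zero _ ht0)]
    conv_lhs => rw [e]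
    rw [Derivation.leibniz, smul_eq_mul, smul_eq_mul]
    have h3 : t ^ m ≠ 0 := zpow_ne_zero _ ht0
    field_simp
    ring
  rw [hDh, add_sub_cancel_right, div_eq_mul_inv]
  exact Q.ring.mul_mem _ _ hDu huR'

/-- **Rigidity.** If `E` is effective with `l(E) = 1` and `n E` is linearly equivalent to a divisor
defined over the algebraically closed field `K`, then `E` is defined over `K`. -/
theorem rigidity (K : IntermediateField k Ω) (hK : ∀ a : Ω, a ∉ K → Transcendental K a)
    {E A : Place Ω M →₀ ℤ} (hE : ∀ Q, 0 ≤ E Q) (hE1 : ell E = 1) {n : ℕ} (hn : n ≠ 0)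
    (hA : ∀ Q, A Q ≠ 0 → DefOver F K Q)
    {h : M} (hh : h ≠ 0) (hdiv : ∀ Q, ord Q.ring h = n * E Q - A Q) :
    ∀ Q, E Q ≠ 0 → DefOver F K Q := by
  have hMF := hM.isFunctionField hF
  intro Q₀ hQ₀
  by_contra hcon
  unfold DefOver at hcon
  push Not at hcon
  obtain ⟨φ₀, hφ₀, x, hx⟩ := hcon
  have hc : CharZero M := charZero_of_injective_algebraMap (algebraMap k M).injective
  -- `x` is transcendental over `k`
  have hxtr : Transcendental k x := by
    intro halg
    obtain ⟨b, hb⟩ := exists_const_of_not_transcendental (k := k) (f := x) (not_not.mpr halg)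
    apply hx
    rw [← hb, AlgHom.commutes]
    exact K.algebraMap_mem b
  have hcK : CharZero K := charZero_of_injective_algebraMap (algebraMap k K).injective
  obtain ⟨δ₀, hδ₀⟩ := exists_derivation_ne_zero (K := K) (L := Ω) (hK _ hx)
  let δ : Derivation k Ω Ω := δ₀.restrictScalars k
  have hδK : ∀ a ∈ K, δ a = 0 := by
    intro a ha
    exact δ₀.map_algebraMap (⟨a, ha⟩ : K)
  have hδx : δ (φ₀ x) = 1 := hδ₀
  obtain ⟨D, hD, hD'⟩ := hM.exists_derivation δ
  set lam := D h / h with hlam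
  have hmem : lam ∈ riemannRochSpace Ω M E := by
    rcases eq_or_ne lam 0 with h0 | h0
    · rw [h0]; exact Submodule.zero_mem _
    rw [mem_rr hMF _ h0]
    intro Q
    obtain ⟨t, ht0, ht, ⟨c, hct⟩, hD0⟩ := exists_unif hM hF δ D hD hD' Q
    have h1 := logDeriv_formula hM hF δ D hD hD' Q hh ht0 ht
    rw [← hlam] at h1
    have hEQ := hE Q
    by_cases hQK : DefOver F K Q
    · rw [hD0 (fun φ hφ f => hδK _ (hQK φ hφ f)), zero_div, mul_zero, sub_zero] at h1
      have := (ord_nonneg_iff hMF Q h0).mpr h1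
      omega
    · have hAQ : A Q = 0 := by
        by_contra hne
        exact hQK (hA Q hne)
      have hdQ := hdiv Q
      rw [hAQ, sub_zero] at hdQ
      rcases eq_or_ne (E Q) 0 with hE0 | hE0
      · rw [hdQ, hE0, mul_zero, Int.cast_zero, zero_mul, sub_zero] at h1
        have := (ord_nonneg_iff hMF Q h0).mpr h1
        omega
      · have htR : t ∈ Q.ring := by rw [← ord_nonneg_iff hMF Q ht0, ht]; norm_num
        have h2 : lam * t ∈ Q.ring := by
          have h3 := Q.ring.mul_mem _ _ h1 htR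
          have h4 : (ord Q.ring h : M) * D t ∈ Q.ring := by
            rw [hct]
            exact Q.ring.mul_mem _ _ (intCast_mem Q.ring _) (Q.algebraMap_mem _)
          have h5 := Q.ring.add_mem _ _ h3 h4
          have e : (lam - (ord Q.ring h : M) * (D t / t)) * t + (ord Q.ring h : M) * D t = lam * t := by
            field_simp
            ring
          rwa [e] at h5
        rw [← ord_nonneg_iff hMF Q (mul_ne_zero h0 ht0), ord_mul hMF Q h0 ht0, ht] at h2
        omega
  obtain ⟨c, hc'⟩ := rr_eq_span hMF hE hE1 hmem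
  -- look at the place `Q₀`
  set t := algebraMap F M x - algebraMap Ω M (φ₀ x) with ht
  have ht1 := Gen.ord_sub hM hF hφ₀ hxtr
  rw [← ht] at ht1
  have ht0 : t ≠ 0 := by
    intro h0
    rw [h0, ord_zero] at ht1
    exact zero_ne_one ht1
  have hDt : D t = -1 := by
    rw [ht, map_sub, hD', hD, hδx, map_one, zero_sub]
  have h1 := logDeriv_formula hM hF δ D hD hD' Q₀ hh ht0 ht1
  rw [← hlam, ← hc', hDt] at h1
  have hQK : ¬ DefOver F K Q₀ := fun hd => hx (hd φ₀ hφ₀ x)
  have hAQ : A Q₀ = 0 := by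
    by_contra hne
    exact hQK (hA Q₀ hne)
  have hm : ord Q₀.ring h = n * E Q₀ := by rw [hdiv Q₀, hAQ, sub_zero]
  have hm0 : ord Q₀.ring h ≠ 0 := by
    rw [hm]
    exact mul_ne_zero (by exact_mod_cast hn) hQ₀
  have h2 : (ord Q₀.ring h : M) * (-1 / t) ∈ Q₀.ring := by
    have h3 := Q₀.ring.sub_mem (Q₀.algebraMap_mem c) h1
    rwa [sub_sub_cancel] at h3
  have hm0' : ((ord Q₀.ring h : ℤ) : M) ≠ 0 := Int.cast_ne_zero.mpr hm0
  have h3 : ord Q₀.ring ((ord Q₀.ring h : M) * (-1 / t)) = -1 := by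
    have e : ((ord Q₀.ring h : ℤ) : M) = algebraMap Ω M (ord Q₀.ring h : ℤ) := by
      rw [map_intCast]
    have hc2 : CharZero Ω := charZero_of_injective_algebraMap (algebraMap k Ω).injective
    rw [ord_mul hMF Q₀ hm0' (div_ne_zero (by norm_num) ht0), e,
      ord_algebraMap hMF Q₀ (Int.cast_ne_zero.mpr hm0), ord_div hMF Q₀ (by norm_num) ht0, ht1,
      ord_neg hMF Q₀ one_ne_zero, ord_one hMF Q₀]
    ring
  have h4 := (ord_nonneg_iff hMF Q₀ (mul_ne_zero hm0' (div_ne_zero (by norm_num) ht0))).mpr h2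
  rw [h3] at h4
  omega

end FF
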