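import Mathlib
import Pool.Agent.Helper17.FF.Rigid

/-!
# Descent of principal divisors under constant extensions
-/

set_option linter.unusedSectionVars false

namespace FF

open VC WithZero Polynomial IntermediateField
open scoped TensorProduct

universe u

variable {k Ω F M : Type u} [Field k] [Field Ω] [Field F] [Field M] [Algebra k Ω] [Algebra k F]
  [Algebra Ω M] [Algebra F M] [Algebra k M] [IsScalarTower k Ω M] [IsScalarTower k F M]

variable [IsAlgClosed k] [IsAlgClosed Ω] [CharZero k] (hM : IsConstExt k Ω F M)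
  (hF : IsFunctionField k F)

include hM hF

omit [IsAlgClosed Ω] hF in
/-- Elements of `M` killed by all derivations coming from the new constants are in `F`. -/
theorem mem_of_deriv_eq_zero {h : M}
    (hder : ∀ (δ : Derivation k Ω Ω) (D : Derivation ℤ M M),
      (∀ a : Ω, D (algebraMap Ω M a) = algebraMap Ω M (δ a)) →
      (∀ f : F, D (algebraMap F M f) = 0) → D h = 0) : ∃ f : F, algebraMap F M f = h := by
  classical
  let b := Module.Basis.ofVectorSpace k F
  let B := Algebra.TensorProduct.basis Ω b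
  -- the derivation on the tensor product
  let T : Derivation k Ω Ω → (Ω ⊗[k] F →ₗ[k] Ω ⊗[k] F) := fun δ => LinearMap.rTensor F (δ : Ω →ₗ[k] Ω)
  have hTrepr : ∀ δ s i, B.repr (T δ s) i = δ (B.repr s i) := by
    intro δ s i
    induction s using TensorProduct.induction_on with
    | zero => simp
    | tmul a f =>
      change B.repr ((LinearMap.rTensor F (δ : Ω →ₗ[k] Ω)) (a ⊗ₜ f)) i = _
      rw [LinearMap.rTensor_tmul, Algebra.TensorProduct.basis_repr_tmul,
        Algebra.TensorProduct.basis_repr_tmul, Finsupp.smul_apply, Finsupp.smul_apply,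
        Finsupp.mapRange_apply, smul_eq_mul, smul_eq_mul, Derivation.leibniz,
        Derivation.map_algebraMap, smul_zero, zero_add, smul_eq_mul, mul_comm]
      rfl
    | add x y hx hy =>
      rw [map_add, map_add, Finsupp.add_apply, hx, hy, map_add, Finsupp.add_apply, map_add]
  have hDprod : ∀ (δ : Derivation k Ω Ω) (D : Derivation ℤ M M),
      (∀ a : Ω, D (algebraMap Ω M a) = algebraMap Ω M (δ a)) →
      (∀ f : F, D (algebraMap F M f) = 0) → ∀ s, D (prodMap k Ω F M s) = prodMap k Ω F M (T δ s) := by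
    intro δ D hD hD' s
    induction s using TensorProduct.induction_on with
    | zero => simp
    | tmul a f =>
      change _ = prodMap k Ω F M ((LinearMap.rTensor F (δ : Ω →ₗ[k] Ω)) (a ⊗ₜ f))
      rw [LinearMap.rTensor_tmul, prodMap_tmul, prodMap_tmul, Derivation.leibniz, hD, hD',
        smul_zero, zero_add, smul_eq_mul, mul_comm]
      rfl
    | add x y hx hy => rw [map_add, map_add, hx, hy, map_add, map_add]
  have hconst : ∀ a : Ω, (∀ δ : Derivation k Ω Ω, δ a = 0) → ∃ c : k, algebraMap k Ω c = a := by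
    intro a ha
    by_contra hcon
    have htr : Transcendental k a := by
      intro halg
      exact hcon (exists_const_of_not_transcendental (k := k) (f := a) (not_not.mpr halg))
    obtain ⟨δ, hδ⟩ := exists_derivation_ne_zero htr
    rw [ha δ] at hδ
    exact zero_ne_one hδ
  -- elements with constant coordinates
  have hcoord : ∀ s : Ω ⊗[k] F, (∀ i, ∃ c : k, algebraMap k Ω c = B.repr s i) →
      ∃ f : F, s = 1 ⊗ₜ f := by
    intro s hs
    choose c hc using hs
    refine ⟨(B.repr s).sum fun i _ => c i • b i, ?_⟩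
    conv_lhs => rw [← B.linearCombination_repr s, Finsupp.linearCombination_apply]
    simp only [Finsupp.sum]
    rw [TensorProduct.tmul_sum]
    apply Finset.sum_congr rfl
    intro i _
    rw [← hc i, TensorProduct.tmul_smul, Algebra.TensorProduct.basis_apply, algebraMap_smul]
  have key : ∀ n : ℕ, ∀ t : Ω ⊗[k] F, t ≠ 0 → (B.repr t).support.card = n →
      (∃ s, h * prodMap k Ω F M t = prodMap k Ω F M s) →
      ∃ f : F, f ≠ 0 ∧ ∃ s, h * algebraMap F M f = prodMap k Ω F M s := by
    intro n
    induction n using Nat.strong_induction_on with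
    | _ n ih =>
      rintro t ht0 hn ⟨s, hs⟩
      obtain ⟨i₀, hi₀⟩ : ∃ i, B.repr t i ≠ 0 := by
        by_contra hcon
        push Not at hcon
        apply ht0
        rw [← B.repr.map_eq_zero_iff]
        exact Finsupp.ext hcon
      -- normalise
      set t₁ := (B.repr t i₀)⁻¹ • t with ht₁
      have hprod : ∀ (a : Ω) (z : Ω ⊗[k] F), prodMap k Ω F M (a • z) =
          algebraMap Ω M a * prodMap k Ω F M z := by
        intro a z
        induction z using TensorProduct.induction_on with
        | zero => simp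
        | tmul b f =>
          rw [TensorProduct.smul_tmul', prodMap_tmul, prodMap_tmul, smul_eq_mul, map_mul, mul_assoc]
        | add x y hx hy => rw [smul_add, map_add, hx, hy, map_add, mul_add]
      have hs₁ : h * prodMap k Ω F M t₁ = prodMap k Ω F M ((B.repr t i₀)⁻¹ • s) := by
        rw [ht₁, hprod, hprod, ← hs]
        ring
      have hr₁ : ∀ i, B.repr t₁ i = (B.repr t i₀)⁻¹ * B.repr t i := by
        intro i
        rw [ht₁, map_smul, Finsupp.smul_apply, smul_eq_mul]
      by_cases hall : ∀ i, ∃ c : k, algebraMap k Ω c = B.repr t₁ i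
      · obtain ⟨f, hf⟩ := hcoord t₁ hall
        refine ⟨f, ?_, (B.repr t i₀)⁻¹ • s, ?_⟩
        · rintro rfl
          have h1 := hr₁ i₀
          rw [hf, TensorProduct.tmul_zero, map_zero, Finsupp.zero_apply,
            inv_mul_cancel₀ hi₀] at h1
          exact zero_ne_one h1
        · rw [← hs₁, hf, prodMap_tmul, map_one, one_mul]
      · push Not at hall
        obtain ⟨i₁, hi₁⟩ := hall
        obtain ⟨δ, hδ⟩ : ∃ δ : Derivation k Ω Ω, δ (B.repr t₁ i₁) ≠ 0 := by
          by_contra hcon
          push Not at hcon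
          obtain ⟨c, hc⟩ := hconst _ hcon
          exact hi₁ c hc
        obtain ⟨D, hD, hD'⟩ := hM.exists_derivation δ
        have hDh := hder δ D hD hD'
        have h2 : h * prodMap k Ω F M (T δ t₁) = prodMap k Ω F M (T δ ((B.repr t i₀)⁻¹ • s)) := by
          rw [← hDprod δ D hD hD', ← hDprod δ D hD hD', ← hs₁, Derivation.leibniz, hDh, smul_zero,
            add_zero, smul_eq_mul]
        refine ih (B.repr (T δ t₁)).support.card ?_ (T δ t₁) ?_ rfl ⟨_, h2⟩
        · rw [← hn]
          apply Finset.card_lt_card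
          rw [Finset.ssubset_iff_of_subset]
          · refine ⟨i₀, Finsupp.mem_support_iff.mpr hi₀, ?_⟩
            rw [Finsupp.notMem_support_iff, hTrepr, hr₁, inv_mul_cancel₀ hi₀,
              Derivation.map_one_eq_zero]
          · intro i hi
            rw [Finsupp.mem_support_iff, hTrepr, hr₁] at hi
            rw [Finsupp.mem_support_iff]
            intro h0
            apply hi
            rw [h0, mul_zero, map_zero]
        · intro h0
          apply hδ
          rw [← hTrepr, h0, map_zero, Finsupp.zero_apply]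
  obtain ⟨s, t, ht, hs⟩ := hM.frac h
  have ht0 : t ≠ 0 := by
    rintro rfl
    exact ht (map_zero _)
  obtain ⟨f, hf0, s', hs'⟩ := key _ t ht0 rfl ⟨s, hs⟩
  have hall : ∀ i, ∃ c : k, algebraMap k Ω c = B.repr s' i := by
    intro i
    apply hconst
    intro δ
    obtain ⟨D, hD, hD'⟩ := hM.exists_derivation δ
    have hDh := hder δ D hD hD'
    have h1 : prodMap k Ω F M (T δ s') = 0 := by
      rw [← hDprod δ D hD hD', ← hs', Derivation.leibniz, hDh, hD', smul_zero, smul_zero, add_zero]
    have h2 : T δ s' = 0 := hM.inj (by rw [h1, map_zero])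
    rw [← hTrepr, h2, map_zero, Finsupp.zero_apply]
  obtain ⟨g, hg⟩ := hcoord s' hall
  refine ⟨g / f, ?_⟩
  rw [hg, prodMap_tmul, map_one, one_mul] at hs'
  rw [map_div₀, ← hs', mul_div_cancel_right₀ _ ((_root_.map_ne_zero _).mpr hf0)]

/-- Descent of principal divisors. -/
theorem principal_descent {h : M} (hh : h ≠ 0)
    (hsupp : ∀ Q : Place Ω M, ord Q.ring h ≠ 0 → ∃ P : Place k F, Over Q P) :
    ∃ (c : Ω) (f : F), c ≠ 0 ∧ f ≠ 0 ∧ h = algebraMap Ω M c * algebraMap F M f := by
  have hMF := hM.isFunctionField hF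
  obtain ⟨x, hx, -⟩ := id hF
  obtain ⟨P₀, -⟩ := exists_place hx
  obtain ⟨Q₀, hQ₀⟩ := hM.exists_over hF P₀
  obtain ⟨π, hπ0, hπ⟩ := exists_uniformizer hF P₀
  set t := algebraMap F M π with ht
  have ht0 : t ≠ 0 := (_root_.map_ne_zero _).mpr hπ0
  have ht1 : ord Q₀.ring t = 1 := by rw [ht, Over.ord_eq hM hF hQ₀, hπ]
  set m := ord Q₀.ring h with hm
  set u := h / t ^ m with hu
  have hu0 : u ≠ 0 := div_ne_zero hh (zpow_ne_zero _ ht0)
  have hordu : ord Q₀.ring u = 0 := by
    rw [hu, ord_div hMF Q₀ hh (zpow_ne_zero _ ht0), ord_zpow hMF Q₀ ht0, ht1]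
    ring
  have huR : u ∈ Q₀.ring := by rw [← ord_nonneg_iff hMF Q₀ hu0, hordu]
  set c₀ := ev hMF Q₀ ⟨u, huR⟩ with hc₀
  have hc₀0 : c₀ ≠ 0 := by
    rw [hc₀, Ne, ev_eq_zero_iff]
    rw [← ord_pos_iff hMF Q₀ hu0, hordu]
    exact lt_irrefl _
  have hc₀spec : u - algebraMap Ω M c₀ ∈ Q₀.ring.nonunits := ev_spec hMF Q₀ ⟨u, huR⟩
  have hcM : algebraMap Ω M c₀ ≠ 0 := (_root_.map_ne_zero _).mpr hc₀0
  set h' := h / algebraMap Ω M c₀ with hh'
  have hh'0 : h' ≠ 0 := div_ne_zero hh hcM
  have hordh' : ∀ Q : Place Ω M, ord Q.ring h' = ord Q.ring h := by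
    intro Q
    rw [hh', ord_div hMF Q hh hcM, ord_algebraMap hMF Q hc₀0, sub_zero]
  obtain ⟨f, hf⟩ := mem_of_deriv_eq_zero hM (h := h') (by
    intro δ D hD hD'
    set lam := D h' / h' with hlam
    have hreg : ∀ Q : Place Ω M, lam ∈ Q.ring := by
      intro Q
      obtain ⟨t₁, ht₁0, ht₁, -, hD0⟩ := exists_unif hM hF δ D hD hD' Q
      have h1 := logDeriv_formula hM hF δ D hD hD' Q hh'0 ht₁0 ht₁
      rw [← hlam] at h1
      by_cases h0 : ord Q.ring h' = 0
      · rwa [h0, Int.cast_zero, zero_mul, sub_zero] at h1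
      · rw [hordh'] at h0
        obtain ⟨P, hP⟩ := hsupp Q h0
        have h2 : D t₁ = 0 := by
          apply hD0
          intro φ hφ f
          exfalso
          -- `Q` cannot be both generic and over a place
          obtain ⟨π', hπ'0, hπ'⟩ := exists_uniformizer hF P
          have h3 : π' ∈ P.ring.nonunits := by
            rw [← ord_pos_iff hF P hπ'0, hπ']; norm_num
          have h4 := hP.nonunits π' |>.mpr h3
          have h5 := sub_mem h4 (hφ π')
          rw [sub_sub_cancel] at h5
          have h6 := algebraMap_mem_nonunits Q h5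
          exact hπ'0 ((map_eq_zero φ).mp h6)
        rwa [h2, zero_div, mul_zero, sub_zero] at h1
    obtain ⟨c, hc⟩ := exists_const_of_dv_eq_zero hMF (f := lam) (fun Q => by
      rcases eq_or_ne lam 0 with h0 | h0
      · rw [h0, ord_zero]
      · exact (ord_nonneg_iff hMF Q h0).mpr (hreg Q))
    -- evaluate at `Q₀`
    set u' := h' / t ^ m with hu'
    have hu'u : u' = u / algebraMap Ω M c₀ := by
      rw [hu', hh', hu]
      field_simp
    have hu'0 : u' ≠ 0 := div_ne_zero hh'0 (zpow_ne_zero _ ht0)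
    have hu'1 : u' - algebraMap Ω M 1 ∈ Q₀.ring.nonunits := by
      have e : u' - algebraMap Ω M 1 = algebraMap Ω M c₀⁻¹ * (u - algebraMap Ω M c₀) := by
        rw [hu'u, map_one, map_inv₀]
        field_simp
      rw [e]
      exact mul_mem_nonunits (Q₀.algebraMap_mem _) hc₀spec
    have h1 := deriv_ev hM hF δ D hD hD' hQ₀ u' 1 hu'1
    rw [Derivation.map_one_eq_zero, map_zero, sub_zero] at h1
    have hDt : D (t ^ m) = 0 := by
      have : t ^ m = algebraMap F M (π ^ m) := by rw [ht, map_zpow₀]
      rw [this, hD']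
    have h2 : D h' = D u' * t ^ m := by
      have e : h' = u' * t ^ m := by rw [hu', div_mul_cancel₀ _ (zpow_ne_zero _ ht0)]
      conv_lhs => rw [e]
      rw [Derivation.leibniz, hDt, smul_zero, zero_add, smul_eq_mul, mul_comm]
    have h3 : lam = D u' * u'⁻¹ := by
      rw [hlam, h2, hu']
      have := zpow_ne_zero m ht0
      field_simp
    have hordu' : ord Q₀.ring u' = 0 := by
      rw [hu'u, ord_div hMF Q₀ hu0 hcM, hordu, ord_algebraMap hMF Q₀ hc₀0, sub_zero]
    have h4 : u'⁻¹ ∈ Q₀.ring := by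
      rw [← ord_nonneg_iff hMF Q₀ (inv_ne_zero hu'0), ord_inv hMF Q₀ hu'0, hordu', neg_zero]
    have h5 : lam ∈ Q₀.ring.nonunits := by
      rw [h3, mul_comm]
      exact mul_mem_nonunits h4 h1
    rw [← hc] at h5
    have h6 := algebraMap_mem_nonunits Q₀ h5
    have h7 : lam = 0 := by rw [← hc, h6, map_zero]
    rw [hlam, div_eq_zero_iff] at h7
    exact h7.resolve_right hh'0)
  refine ⟨c₀, f, hc₀0, ?_, ?_⟩
  · rintro rfl
    rw [map_zero] at hf
    exact hh'0 hf.symm
  · rw [hf, hh', mul_div_cancel₀ _ hcM]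

end FF
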