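import Mathlib
import Pool.Agent.Helper17.FF.Princ
import Pool.Agent.Helper17.FF.Genus

/-!
# Riemann-Roch spaces and the genus under constant field extensions
-/

set_option linter.unusedSectionVars false

namespace FF

open VC WithZero Polynomial IntermediateField
open scoped TensorProduct

universe u

section inf

variable {k F : Type u} [Field k] [IsAlgClosed k] [Field F] [Algebra k F]
  (hF : IsFunctionField k F)

include hF

theorem infinite_place : Infinite (Place k F) := by
  obtain ⟨x, hx, -⟩ := id hF
  have htr : ∀ c : k, Transcendental k (x - algebraMap k F c) := by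
    intro c hc
    apply hx
    have := hc.add (isAlgebraic_algebraMap (A := F) c)
    rwa [sub_add_cancel] at this
  choose P hP using fun c : k => exists_place (htr c)
  refine Infinite.of_injective P fun c d hcd => ?_
  have h1 := hP c
  have h2 := hP d
  rw [← hcd] at h2
  exact residue_unique (P c) h1 h2

/-- An infinite set of places detects non-zero functions. -/
theorem exists_notMem_nonunits (S : Set (Place k F)) (hS : S.Infinite) {y : F} (hy : y ≠ 0) :
    ∃ P ∈ S, y ∉ P.ring.nonunits := by
  by_contra hcon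
  push Not at hcon
  apply hS
  refine (finite_support_ord hF hy).subset fun P hP => ?_
  have := (ord_pos_iff hF P hy).mpr (hcon P hP)
  rw [Set.mem_ofPred_eq]
  omega

end inf

section main

variable {k Ω F M : Type u} [Field k] [Field Ω] [Field F] [Field M] [Algebra k Ω] [Algebra k F]
  [Algebra Ω M] [Algebra F M] [Algebra k M] [IsScalarTower k Ω M] [IsScalarTower k F M]

variable [IsAlgClosed k] [IsAlgClosed Ω] (hM : IsConstExt k Ω F M)
  (hF : IsFunctionField k F)

/-- the place of `M` over a place of `F` -/
noncomputable def ab (P : Place k F) : Place Ω M := (hM.exists_over hF P).choose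

lemma ab_over (P : Place k F) : Over (ab hM hF P) P := (hM.exists_over hF P).choose_spec

lemma ab_injective : Function.Injective (ab hM hF) := fun P P' h =>
  (ab_over hM hF P).unique (h ▸ ab_over hM hF P')

lemma eq_ab {Q : Place Ω M} {P : Place k F} (h : Over Q P) : Q = ab hM hF P :=
  Over.eq hM hF h (ab_over hM hF P)

/-- the pullback of divisors -/
noncomputable def lift : (Place k F →₀ ℤ) →+ (Place Ω M →₀ ℤ) :=
  Finsupp.mapDomain.addMonoidHom (ab hM hF)

lemma lift_single (P : Place k F) (m : ℤ) :
    lift hM hF (Finsupp.single P m) = Finsupp.single (ab hM hF P) m := by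
  change Finsupp.mapDomain _ _ = _
  rw [Finsupp.mapDomain_single]

lemma lift_ab (D : Place k F →₀ ℤ) (P : Place k F) : lift hM hF D (ab hM hF P) = D P :=
  Finsupp.mapDomain_apply (ab_injective hM hF) D P

omit [IsAlgClosed k] [IsAlgClosed Ω] in
lemma not_over_of_gen {Q : Place Ω M} {φ : F →ₐ[k] Ω} (h : Gen Q φ) {P : Place k F}
    (hP : Over Q P) : False := by
  apply P.ne_top
  rw [eq_top_iff]
  intro f _
  rw [← hP f]
  exact h.mem f

lemma lift_gen (D : Place k F →₀ ℤ) {Q : Place Ω M} {φ : F →ₐ[k] Ω} (h : Gen Q φ) :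
    lift hM hF D Q = 0 := by
  apply Finsupp.mapDomain_of_notMem_range
  rintro ⟨P, rfl⟩
  exact not_over_of_gen h (ab_over hM hF P)

lemma deg_lift (D : Place k F →₀ ℤ) : deg (lift hM hF D) = deg D := by
  have h : (deg.comp (lift hM hF) : (Place k F →₀ ℤ) →+ ℤ) = deg := by
    ext P
    simp [lift_single]
  exact DFunLike.congr_fun h D

lemma lift_nonneg {D : Place k F →₀ ℤ} (h : ∀ P, 0 ≤ D P) (Q : Place Ω M) :
    0 ≤ lift hM hF D Q := by
  rcases hM.over_or_gen hF Q with ⟨P, hP⟩ | ⟨φ, hφ⟩
  · rw [eq_ab hM hF hP, lift_ab]; exact h P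
  · rw [lift_gen hM hF D hφ]

lemma lift_dv [CharZero k] {f : F} (hf : f ≠ 0) :
    lift hM hF (dv hF f) = dv (hM.isFunctionField hF) (algebraMap F M f) := by
  have hMF := hM.isFunctionField hF
  ext Q
  rcases hM.over_or_gen hF Q with ⟨P, hP⟩ | ⟨φ, hφ⟩
  · rw [eq_ab hM hF hP, lift_ab, dv_apply, dv_apply, Over.ord_eq hM hF (ab_over hM hF P)]
  · rw [lift_gen hM hF _ hφ, dv_apply]
    have hf' : algebraMap F M f ≠ 0 := (_root_.map_ne_zero _).mpr hf
    have h1 := (ord_nonneg_iff hMF Q hf').mpr (hφ.mem f)
    have h2 : ¬ 0 < ord Q.ring (algebraMap F M f) := by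
      rw [ord_pos_iff hMF Q hf']
      intro h3
      have h4 := sub_mem h3 (hφ f)
      rw [sub_sub_cancel] at h4
      have h5 := algebraMap_mem_nonunits Q h4
      exact hf ((map_eq_zero φ).mp h5)
    omega

/-- evaluation at a place as a linear functional on a space of regular functions -/
lemma exists_evalLin {E : Type u} [Field E] [Algebra Ω E] (hE : IsFunctionField Ω E)
    (W : Submodule Ω E) (Q : Place Ω E) (hW : ∀ y ∈ W, y ∈ Q.ring) :
    ∃ Λ : W →ₗ[Ω] Ω, ∀ y : W, (y : E) - algebraMap Ω E (Λ y) ∈ Q.ring.nonunits := by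
  refine ⟨{ toFun := fun f => ev hE Q ⟨f, hW f f.2⟩
            map_add' := ?_
            map_smul' := ?_ }, ?_⟩
  · intro f g
    rw [← map_add]
    rfl
  · intro c f
    rw [RingHom.id_apply, smul_eq_mul]
    have h1 := ev_algebraMap hE Q c
    conv_rhs => rw [← h1]
    rw [← map_mul]
    congr 1
    apply Subtype.ext
    change (c • (f : E)) = algebraMap Ω E c * f
    rw [Algebra.smul_def]
  · intro f
    exact ev_spec hE Q ⟨f, hW f f.2⟩

/-- separating points -/
lemma exists_points {W : Type*} [AddCommGroup W] [Module Ω W] {ι : Type*} (Λ : ι → (W →ₗ[Ω] Ω))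
    (hΛ : ∀ y, (∀ i, Λ i y = 0) → y = 0) (n : ℕ) : ∀ (W' : Submodule Ω W)
    (_ : FiniteDimensional Ω W'), Module.finrank Ω W' = n →
    ∃ P : Fin n → ι, ∀ y ∈ W', (∀ j, Λ (P j) y = 0) → y = 0 := by
  induction n with
  | zero =>
    intro W' _ hW'
    refine ⟨fun j => j.elim0, fun y hy _ => ?_⟩
    rw [Submodule.finrank_eq_zero] at hW'
    rw [hW', Submodule.mem_bot] at hy
    exact hy
  | succ n ih =>
    intro W' hfd hW'
    have hne : W' ≠ ⊥ := by
      intro h
      rw [h, finrank_bot] at hW'
      omega
    obtain ⟨y₀, hy₀, hy₀0⟩ := Submodule.exists_mem_ne_zero_of_ne_bot hne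
    obtain ⟨i₀, hi₀⟩ : ∃ i, Λ i y₀ ≠ 0 := by
      by_contra hcon
      push Not at hcon
      exact hy₀0 (hΛ y₀ hcon)
    let lam : W' →ₗ[Ω] Ω := (Λ i₀).comp W'.subtype
    have hlam : LinearMap.range lam = ⊤ := by
      rw [LinearMap.range_eq_top]
      intro c
      refine ⟨(c / Λ i₀ y₀) • ⟨y₀, hy₀⟩, ?_⟩
      rw [map_smul, smul_eq_mul]
      change c / Λ i₀ y₀ * Λ i₀ y₀ = c
      rw [div_mul_cancel₀ _ hi₀]
    have h1 := LinearMap.finrank_range_add_finrank_ker lam
    rw [hlam, finrank_top, Module.finrank_self, hW'] at h1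
    let W'' := (LinearMap.ker lam).map W'.subtype
    have h2 : Module.finrank Ω W'' = n := by
      rw [Submodule.finrank_map_subtype_eq]
      omega
    have hle : W'' ≤ W' := Submodule.map_subtype_le _ _
    obtain ⟨P, hP⟩ := ih W'' (Submodule.finiteDimensional_of_le hle) h2
    refine ⟨Fin.cons i₀ P, fun y hy hj => ?_⟩
    apply hP y
    · refine ⟨⟨y, hy⟩, ?_, rfl⟩
      have := hj 0
      rw [Fin.cons_zero] at this
      exact this
    · intro j
      have := hj j.succ
      rwa [Fin.cons_succ] at this

variable [CharZero k]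

/-- The spaces `L(D)` of pullbacks are stable under the derivations. -/
lemma deriv_mem_rr (D₀ : Place k F →₀ ℤ) (δ : Derivation k Ω Ω) (D : Derivation ℤ M M)
    (hD : ∀ a : Ω, D (algebraMap Ω M a) = algebraMap Ω M (δ a))
    (hD' : ∀ f : F, D (algebraMap F M f) = 0) {y : M}
    (hy : y ∈ riemannRochSpace Ω M (lift hM hF D₀)) :
    D y ∈ riemannRochSpace Ω M (lift hM hF D₀) := by
  have hMF := hM.isFunctionField hF
  rcases eq_or_ne (D y) 0 with h0 | h0
  · rw [h0]; exact Submodule.zero_mem _
  have hy0 : y ≠ 0 := by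
    rintro rfl
    exact h0 (map_zero _)
  rw [mem_rr hMF _ hy0] at hy
  rw [mem_rr hMF _ h0]
  intro Q
  have hyQ := hy Q
  rcases hM.over_or_gen hF Q with ⟨P, hP⟩ | ⟨φ, hφ⟩
  · obtain ⟨π, hπ0, hπ⟩ := exists_uniformizer hF P
    set m := lift hM hF D₀ Q with hm
    have ht0 : algebraMap F M π ≠ 0 := (_root_.map_ne_zero _).mpr hπ0
    have htm0 : algebraMap F M π ^ m ≠ 0 := zpow_ne_zero _ ht0
    have ht : ord Q.ring (algebraMap F M π) = 1 := by rw [Over.ord_eq hM hF hP, hπ]
    have h1 : y * algebraMap F M π ^ m ∈ Q.ring := by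
      rw [← ord_nonneg_iff hMF Q (mul_ne_zero hy0 htm0), ord_mul hMF Q hy0 htm0,
        ord_zpow hMF Q ht0, ht, mul_one]
      exact hyQ
    have h2 := deriv_mem_ring hM hF δ D hD hD' Q _ h1
    rw [Derivation.leibniz, ← map_zpow₀, hD', smul_zero, zero_add, map_zpow₀, smul_eq_mul,
      mul_comm, ← ord_nonneg_iff hMF Q (mul_ne_zero h0 htm0), ord_mul hMF Q h0 htm0,
      ord_zpow hMF Q ht0, ht, mul_one] at h2
    exact h2
  · rw [lift_gen hM hF D₀ hφ, add_zero] at hyQ ⊢
    rw [ord_nonneg_iff hMF Q hy0] at hyQ
    rw [ord_nonneg_iff hMF Q h0]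
    exact deriv_mem_ring hM hF δ D hD hD' Q _ hyQ

/-- The dimension of Riemann-Roch spaces is invariant under constant extensions. -/
theorem ell_lift (D₀ : Place k F →₀ ℤ) : ell (lift hM hF D₀) = ell D₀ := by
  classical
  have hMF := hM.isFunctionField hF
  have hfd := finite_rr hF D₀
  have hfdM := finite_rr hMF (lift hM hF D₀)
  apply le_antisymm
  · set W := riemannRochSpace Ω M (lift hM hF D₀) with hW
    -- evaluation at the places outside the support
    let ι := {P : Place k F // D₀ P = 0}
    have hι : ({P : Place k F | D₀ P = 0}).Infinite := by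
      have h1 := infinite_place hF
      have h2 : ({P : Place k F | D₀ P = 0}) = (↑D₀.support : Set (Place k F))ᶜ := by
        ext P
        simp
      rw [h2]
      exact D₀.support.finite_toSet.infinite_compl
    have hreg : ∀ P : ι, ∀ y ∈ W, y ∈ (ab hM hF P.1).ring := by
      intro P y hy
      rcases eq_or_ne y 0 with h0 | h0
      · rw [h0]; exact (ab hM hF P.1).ring.zero_mem
      rw [hW, mem_rr hMF _ h0] at hy
      have := hy (ab hM hF P.1)
      rw [lift_ab, P.2, add_zero] at this
      exact (ord_nonneg_iff hMF _ h0).mp this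
    choose Λ hΛ using fun P : ι => exists_evalLin hMF W (ab hM hF P.1) (hreg P)
    have hΛ0 : ∀ (P : ι) (y : W), Λ P y = 0 ↔ (y : M) ∈ (ab hM hF P.1).ring.nonunits := by
      intro P y
      have h1 := hΛ P y
      constructor
      · intro h
        rwa [h, map_zero, sub_zero] at h1
      · intro h
        have h2 := sub_mem h h1
        rw [sub_sub_cancel] at h2
        exact algebraMap_mem_nonunits _ h2
    have hinj : ∀ y : W, (∀ P, Λ P y = 0) → y = 0 := by
      intro y hy
      by_contra hne
      have hne' : (y : M) ≠ 0 := fun h => hne (Subtype.ext h)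
      have hιi : Infinite ι := Set.infinite_coe_iff.mpr hι
      have hS : (Set.range fun P : ι => ab hM hF P.1).Infinite := by
        apply Set.infinite_range_of_injective
        intro P P' h
        exact Subtype.ext (ab_injective hM hF h)
      obtain ⟨Q, ⟨P, rfl⟩, hQ⟩ := exists_notMem_nonunits hMF _ hS hne'
      exact hQ ((hΛ0 P y).mp (hy P))
    obtain ⟨w, hw⟩ : ∃ w, w = Module.finrank Ω W := ⟨_, rfl⟩
    obtain ⟨P, hP⟩ := exists_points Λ hinj w ⊤ inferInstance (by rw [finrank_top, hw])
    let ev' : W →ₗ[Ω] (Fin w → Ω) := LinearMap.pi fun j => Λ (P j)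
    have hev : Function.Injective ev' := by
      rw [← LinearMap.ker_eq_bot, LinearMap.ker_eq_bot']
      intro y hy
      exact hP y Submodule.mem_top (fun j => congrFun hy j)
    have hev' : Function.Surjective ev' :=
      (LinearMap.injective_iff_surjective_of_finrank_eq_finrank (by
        rw [Module.finrank_fin_fun, hw])).mp hev
    choose e he using fun i : Fin w => hev' (Pi.single i 1)
    -- the elements `e i` are in `F`
    have hF' : ∀ i, ∃ f : F, algebraMap F M f = (e i : M) := by
      intro i
      apply mem_of_deriv_eq_zero hM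
      intro δ D hD hD'
      have hmem := deriv_mem_rr hM hF D₀ δ D hD hD' (e i).2
      have h1 : (⟨D (e i), hmem⟩ : W) = 0 := by
        apply hP _ Submodule.mem_top
        intro j
        rw [hΛ0]
        have h2 := deriv_ev hM hF δ D hD hD' (ab_over hM hF (P j).1) (e i) (Λ (P j) (e i))
          (hΛ (P j) (e i))
        have h3 : Λ (P j) (e i) = (Pi.single i 1 : Fin w → Ω) j := congrFun (he i) j
        have h4 : δ (Λ (P j) (e i)) = 0 := by
          rw [h3, Pi.single_apply]
          split_ifs
          · exact Derivation.map_one_eq_zero _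
          · exact map_zero _
        rwa [h4, map_zero, sub_zero] at h2
      exact congrArg Subtype.val h1
    choose f hf using hF'
    have hfW : ∀ i, f i ∈ riemannRochSpace k F D₀ := by
      intro i
      rcases eq_or_ne (f i) 0 with h0 | h0
      · rw [h0]; exact Submodule.zero_mem _
      rw [mem_rr hF _ h0]
      intro P'
      have h1 : algebraMap F M (f i) ∈ riemannRochSpace Ω M (lift hM hF D₀) := by
        rw [hf i]; exact (e i).2
      rw [mem_rr hMF _ ((_root_.map_ne_zero _).mpr h0)] at h1
      have h2 := h1 (ab hM hF P')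
      rwa [Over.ord_eq hM hF (ab_over hM hF P'), lift_ab] at h2
    have hind : LinearIndependent k (fun i : Fin w => (⟨f i, hfW i⟩ : riemannRochSpace k F D₀)) := by
      rw [Fintype.linearIndependent_iff]
      intro c hc i
      have h1 : ∑ i, c i • f i = 0 := by
        have := congrArg Subtype.val hc
        simpa using this
      have h2 : ∑ i, algebraMap k Ω (c i) • e i = 0 := by
        apply Subtype.ext
        have h3 := congrArg (algebraMap F M) h1
        rw [map_zero, map_sum] at h3
        rw [ZeroMemClass.coe_zero, ← h3, Submodule.coe_sum]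
        apply Finset.sum_congr rfl
        intro j _
        rw [Submodule.coe_smul, ← hf j, Algebra.smul_def, Algebra.smul_def, map_mul,
          ← IsScalarTower.algebraMap_apply, ← IsScalarTower.algebraMap_apply]
      have h4 := congrArg ev' h2
      rw [map_zero, map_sum] at h4
      have h5 := congrFun h4 i
      rw [Finset.sum_apply] at h5
      simp only [map_smul, he, Pi.smul_apply, Pi.single_apply, smul_eq_mul, mul_ite, mul_one,
        mul_zero, Finset.sum_ite_eq, Finset.mem_univ, if_true, Pi.zero_apply] at h5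
      exact (map_eq_zero _).mp h5
    have := hind.fintype_card_le_finrank
    rw [Fintype.card_fin, hw] at this
    exact this
  · let b := Module.finBasis k (riemannRochSpace k F D₀)
    have h1 : LinearIndependent k (fun i => (b i : F)) :=
      b.linearIndependent.map' (riemannRochSpace k F D₀).subtype (Submodule.ker_subtype _)
    have h2 := hM.linearIndependent h1
    have h3 : ∀ i, algebraMap F M (b i : F) ∈ riemannRochSpace Ω M (lift hM hF D₀) := by
      intro i
      have h0 : (b i : F) ≠ 0 := h1.ne_zero i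
      have h4 := (mem_rr hF _ h0).mp (b i).2
      have h5 : algebraMap F M (b i : F) ≠ 0 := (_root_.map_ne_zero _).mpr h0
      rw [mem_rr hMF _ h5]
      intro Q
      rcases hM.over_or_gen hF Q with ⟨P, hP⟩ | ⟨φ, hφ⟩
      · rw [eq_ab hM hF hP, lift_ab, Over.ord_eq hM hF (ab_over hM hF P)]
        exact h4 P
      · rw [lift_gen hM hF _ hφ, add_zero]
        exact (ord_nonneg_iff hMF Q h5).mpr (hφ.mem _)
    have h4 : LinearIndependent Ω (fun i => (⟨_, h3 i⟩ : riemannRochSpace Ω M (lift hM hF D₀))) :=
      LinearIndependent.of_comp (riemannRochSpace Ω M (lift hM hF D₀)).subtype h2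
    have := h4.fintype_card_le_finrank
    rwa [Fintype.card_fin] at this

include hM hF in
/-- The genus is invariant under constant extensions. -/
theorem isGenus_constExt {g : ℕ} (hg : IsGenus k F g) : IsGenus Ω M g := by
  have hMF := hM.isFunctionField hF
  obtain ⟨g', hg'⟩ := exists_genus hMF
  obtain ⟨c, hc⟩ := ell_eq_of_large hF hg
  obtain ⟨c', hc'⟩ := ell_eq_of_large hMF hg'
  have := infinite_place hF
  obtain ⟨P₀⟩ : Nonempty (Place k F) := inferInstance
  have h1 := hc (Finsupp.single P₀ (max c c')) (by rw [deg_single]; exact le_max_left _ _)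
  have h2 := hc' (lift hM hF (Finsupp.single P₀ (max c c')))
    (by rw [deg_lift, deg_single]; exact le_max_right _ _)
  rw [ell_lift, deg_lift, h1] at h2
  have h3 : g = g' := by omega
  rw [h3]
  exact hg'

end main

end FF
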