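import Mathlib
import Pool.Agent.Helper17.FF.Princ

/-!
# Homogeneity: automorphisms moving independent generic points
-/

set_option linter.unusedSectionVars false

namespace FF

open VC WithZero Polynomial IntermediateField
open scoped TensorProduct

universe u

section dom

variable {k F : Type*} [Field k] [Field F] [Algebra k F]

/-- Existence of places dominating a prime ideal. -/
theorem exists_place_of_prime (A : Subring F) (hk : ∀ a : k, algebraMap k F a ∈ A) (P : Ideal A)
    [P.IsPrime] (h0 : ∃ x ∈ P, x ≠ 0) :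
    ∃ Q : Place k F, (∀ x ∈ A, x ∈ Q.ring) ∧ ∀ x : A, (x : F) ∈ Q.ring.nonunits ↔ x ∈ P := by
  obtain ⟨V, hV1, hV2⟩ := (LocalSubring.ofPrime A P).exists_le_valuationSubring
  have hAV : ∀ x ∈ A, x ∈ V := fun x hx => hV1 (LocalSubring.le_ofPrime A P hx)
  have key : ∀ x : A, (x : F) ∈ V.nonunits ↔ x ∈ P := by
    intro x
    have h1 := IsLocalization.AtPrime.isUnit_to_map_iff (LocalSubring.ofPrime A P).toSubring P x
    have h2 : IsUnit (algebraMap A (LocalSubring.ofPrime A P).toSubring x) ↔
        IsUnit (⟨x, hAV x x.2⟩ : V) := by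
      constructor
      · intro h
        exact h.map (Subring.inclusion hV1)
      · intro h
        exact hV2.map_nonunit _ h
    rw [show (x : F) ∈ V.nonunits ↔ (⟨x, hAV x x.2⟩ : V) ∈ IsLocalRing.maximalIdeal V from
      ValuationSubring.coe_mem_nonunits_iff (a := (⟨x, hAV x x.2⟩ : V)),
      IsLocalRing.mem_maximalIdeal, mem_nonunits_iff, ← h2, h1]
    change ¬ (x ∉ P) ↔ x ∈ P
    exact not_not
  obtain ⟨x, hxP, hx0⟩ := h0
  refine ⟨⟨V, fun a => hAV _ (hk a), ?_⟩, hAV, key⟩
  rintro rfl
  rcases (ValuationSubring.mem_nonunits_iff_or _).mp ((key x).mpr hxP) with h | h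
  · exact hx0 (Subtype.ext h)
  · exact h (ValuationSubring.mem_top _)

end dom

section step

variable {k Ω F K : Type u} [Field k] [Field Ω] [Field F] [Field K] [Algebra k Ω] [Algebra k F]
  [Algebra k K] [IsAlgClosed k] [IsAlgClosed K]

/-- A generic point is in general position with respect to a smaller field of constants. -/
theorem productMap_injective (hF : IsFunctionField k F) (α : K →ₐ[k] Ω) (φ : F →ₐ[k] Ω) {x : F}
    (hx : ∀ c : K, α c ≠ φ x) : Function.Injective (Algebra.TensorProduct.productMap α φ) := by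
  rw [injective_iff_map_eq_zero]
  intro s hs
  by_contra hs0
  obtain ⟨M, i1, i2, i3, i4, i5, i6, hM⟩ := exists_constExt k K F
  have hMF := hM.isFunctionField hF
  let j := (prodMap k K F M).toRingHom
  have hj : Function.Injective j := hM.inj
  let ψ := (Algebra.TensorProduct.productMap α φ).toRingHom
  -- the prime ideal of the image
  let A : Subring M := j.range
  have hcomap : ∀ b : K ⊗[k] F, ψ b = 0 → ∀ a, ψ (a * b) = 0 := by
    intro b hb a
    rw [map_mul, hb, mul_zero]
  let e : K ⊗[k] F ≃+* A := RingEquiv.ofBijective j.rangeRestrict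
    ⟨fun a b hab => hj (congrArg Subtype.val hab), j.rangeRestrict_surjective⟩
  let P : Ideal A := (RingHom.ker ψ).comap e.symm.toRingHom
  have hP : P.IsPrime := by
    have : (RingHom.ker ψ).IsPrime := RingHom.ker_isPrime ψ
    exact Ideal.comap_isPrime _ _
  have hPmem : ∀ b : K ⊗[k] F, e b ∈ P ↔ ψ b = 0 := by
    intro b
    change e.symm (e b) ∈ RingHom.ker ψ ↔ _
    rw [RingEquiv.symm_apply_apply, RingHom.mem_ker]
  have hecoe : ∀ b, ((e b : A) : M) = prodMap k K F M b := fun b => rfl
  obtain ⟨Q, hQ1, hQ2⟩ := exists_place_of_prime (k := K) A (fun a => ⟨a ⊗ₜ 1, by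
    change prodMap k K F M (a ⊗ₜ 1) = _
    rw [prodMap_tmul, map_one, mul_one]⟩) P ⟨e s, (hPmem s).mpr hs, by
    rw [Ne, EmbeddingLike.map_eq_zero_iff]
    exact hs0⟩
  -- the value of `x` at `Q`
  have hxQ : algebraMap F M x ∈ Q.ring := by
    have := hQ1 _ (e (1 ⊗ₜ x)).2
    rwa [hecoe, prodMap_tmul, map_one, one_mul] at this
  set c := ev hMF Q ⟨_, hxQ⟩ with hc
  have h1 := ev_spec hMF Q ⟨_, hxQ⟩
  rw [← hc] at h1
  have h2 : ((e (1 ⊗ₜ x - c ⊗ₜ 1) : A) : M) ∈ Q.ring.nonunits := by
    rw [hecoe, map_sub, prodMap_tmul, prodMap_tmul, map_one, map_one, one_mul, mul_one]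
    exact h1
  rw [hQ2, hPmem] at h2
  change Algebra.TensorProduct.productMap α φ (1 ⊗ₜ x - c ⊗ₜ 1) = 0 at h2
  rw [map_sub, Algebra.TensorProduct.productMap_apply_tmul,
    Algebra.TensorProduct.productMap_apply_tmul, map_one, map_one, one_mul, mul_one,
    sub_eq_zero] at h2
  exact hx c h2.symm

variable [IsAlgClosed Ω]

/-- one step of the homogeneity argument -/
theorem homog_step (hF : IsFunctionField k F) (α β : K →ₐ[k] Ω) (φ φ' : F →ₐ[k] Ω) {x : F}
    (hx : ∀ c : K, α c ≠ φ x) (hx' : ∀ c : K, β c ≠ φ' x) :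
    ∃ (K' : Type u) (_ : Field K') (_ : Algebra k K') (_ : IsAlgClosed K') (γ : K →ₐ[k] K')
      (ψ : F →ₐ[k] K') (α' β' : K' →ₐ[k] Ω), α'.comp γ = α ∧ β'.comp γ = β ∧ α'.comp ψ = φ ∧
      β'.comp ψ = φ' ∧ ∀ L : IntermediateField k K', (∀ c, IsAlgebraic L (γ c)) →
        (∀ f, IsAlgebraic L (ψ f)) → ∀ z : K', IsAlgebraic L z := by
  obtain ⟨M, i1, i2, i3, i4, i5, i6, hM⟩ := exists_constExt k K F
  let a0 := prodAlg k K F M
  have hfr := hM.isFractionRing
  have hlift : ∀ (α : K →ₐ[k] Ω) (φ : F →ₐ[k] Ω), (∀ c : K, α c ≠ φ x) →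
      ∃ θ : M →ₐ[k] Ω, (∀ c : K, θ (algebraMap K M c) = α c) ∧
        ∀ f : F, θ (algebraMap F M f) = φ f := by
    intro α φ hx
    have hinj := productMap_injective hF α φ hx
    let θ₀ : M →+* Ω := IsFractionRing.lift
      (g := (Algebra.TensorProduct.productMap α φ).toRingHom) hinj
    have hθ : ∀ s : K ⊗[k] F, θ₀ (prodMap k K F M s) = Algebra.TensorProduct.productMap α φ s :=
      fun s => IsFractionRing.lift_algebraMap hinj s
    have hθ1 : ∀ c : K, θ₀ (algebraMap K M c) = α c := by
      intro c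
      have := hθ (c ⊗ₜ 1)
      rwa [prodMap_tmul, map_one, mul_one, Algebra.TensorProduct.productMap_apply_tmul, map_one,
        mul_one] at this
    have hθ2 : ∀ f : F, θ₀ (algebraMap F M f) = φ f := by
      intro f
      have := hθ (1 ⊗ₜ f)
      rwa [prodMap_tmul, map_one, one_mul, Algebra.TensorProduct.productMap_apply_tmul, map_one,
        one_mul] at this
    refine ⟨{ θ₀ with
      commutes' := fun c => ?_ }, hθ1, hθ2⟩
    change θ₀ (algebraMap k M c) = algebraMap k Ω c
    rw [IsScalarTower.algebraMap_apply k K M, hθ1, AlgHom.commutes]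
  obtain ⟨θ, hθ1, hθ2⟩ := hlift α φ hx
  obtain ⟨θ', hθ'1, hθ'2⟩ := hlift β φ' hx'
  let K' := AlgebraicClosure M
  -- extend to the algebraic closure
  have hext : ∀ θ : M →ₐ[k] Ω, ∃ Θ : K' →ₐ[k] Ω, ∀ z : M, Θ (algebraMap M K' z) = θ z := by
    intro θ
    let iM : Algebra M Ω := θ.toRingHom.toAlgebra
    have sM : IsScalarTower k M Ω := IsScalarTower.of_algebraMap_eq (fun c => (θ.commutes c).symm)
    let Θ : K' →ₐ[M] Ω := IsAlgClosed.lift
    exact ⟨Θ.restrictScalars k, fun z => Θ.commutes z⟩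
  obtain ⟨α', hα'⟩ := hext θ
  obtain ⟨β', hβ'⟩ := hext θ'
  refine ⟨K', inferInstance, inferInstance, inferInstance,
    (IsScalarTower.toAlgHom k M K').comp (IsScalarTower.toAlgHom k K M),
    (IsScalarTower.toAlgHom k M K').comp (IsScalarTower.toAlgHom k F M), α', β', ?_, ?_, ?_, ?_, ?_⟩
  · ext c
    change α' (algebraMap M K' (algebraMap K M c)) = α c
    rw [hα', hθ1]
  · ext c
    change β' (algebraMap M K' (algebraMap K M c)) = β c
    rw [hβ', hθ'1]
  · ext f
    change α' (algebraMap M K' (algebraMap F M f)) = φ f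
    rw [hα', hθ2]
  · ext f
    change β' (algebraMap M K' (algebraMap F M f)) = φ' f
    rw [hβ', hθ'2]
  · -- algebraicity
    intro L hL1 hL2 z
    let A : IntermediateField L K' := algebraicClosure L K'
    have hMA : ∀ m : M, algebraMap M K' m ∈ A := by
      intro m
      obtain ⟨s, t, ht, hst⟩ := hM.frac m
      have hmem : ∀ s : K ⊗[k] F, algebraMap M K' (prodMap k K F M s) ∈ A := by
        intro s
        induction s using TensorProduct.induction_on with
        | zero => rw [map_zero, map_zero]; exact A.zero_mem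
        | tmul a f =>
          rw [prodMap_tmul, map_mul]
          exact A.mul_mem (mem_algebraicClosure_iff.mpr (hL1 a))
            (mem_algebraicClosure_iff.mpr (hL2 f))
        | add a b ha hb => rw [map_add, map_add]; exact A.add_mem ha hb
      have h1 : algebraMap M K' m = algebraMap M K' (prodMap k K F M s) /
          (algebraMap M K' (prodMap k K F M t)) := by
        rw [← hst, map_mul, mul_div_cancel_right₀]
        exact (_root_.map_ne_zero _).mpr ht
      rw [h1]
      exact A.div_mem (hmem s) (hmem t)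
    obtain ⟨p, hp0, hp⟩ : IsAlgebraic M z := Algebra.IsAlgebraic.isAlgebraic z
    let f : M →+* A := (algebraMap M K').codRestrict A.toSubfield.toSubring hMA
    have h2 : IsAlgebraic A z := by
      refine ⟨p.map f, (Polynomial.map_ne_zero_iff f.injective).mpr hp0, ?_⟩
      rw [aeval_def, eval₂_map]
      exact hp
    have h3 : IsIntegral L z := isIntegral_trans (R := L) (A := A) z h2.isIntegral
    exact h3.isAlgebraic

end step

section transfer

/-- transfer of algebraicity along an algebra homomorphism -/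
lemma isAlgebraic_map_of_le {k A B : Type*} [Field k] [Field A] [Field B] [Algebra k A] [Algebra k B]
    (f : A →ₐ[k] B) (K : IntermediateField k A) (L : IntermediateField k B)
    (hL : ∀ s ∈ K, f s ∈ L) {c : A} (hc : IsAlgebraic K c) : IsAlgebraic L (f c) := by
  let g : K →+* L := (f.toRingHom.comp (algebraMap K A)).codRestrict L.toSubfield.toSubring
    (fun s => hL _ s.2)
  obtain ⟨p, hp0, hp⟩ := hc
  refine ⟨p.map g, (Polynomial.map_ne_zero_iff g.injective).mpr hp0, ?_⟩
  rw [aeval_def, eval₂_map]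
  have : (algebraMap L B).comp g = f.toRingHom.comp (algebraMap K A) := rfl
  rw [this]
  change eval₂ (f.toRingHom.comp (algebraMap K A)) (f.toRingHom c) p = 0
  rw [← Polynomial.hom_eval₂, ← aeval_def, hp, map_zero]

lemma adjoin_map_mem {k A B : Type*} [Field k] [Field A] [Field B] [Algebra k A] [Algebra k B]
    (f : A →ₐ[k] B) (S : Set A) (L : IntermediateField k B) (hL : ∀ s ∈ S, f s ∈ L) :
    ∀ s ∈ adjoin k S, f s ∈ L := by
  have h : adjoin k S ≤ L.comap f := adjoin_le_iff.mpr (fun s hs => hL s hs)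
  exact fun s hs => h hs

lemma isAlgebraic_adjoin_map {k A B : Type*} [Field k] [Field A] [Field B] [Algebra k A]
    [Algebra k B] (f : A →ₐ[k] B) (S : Set A) (L : IntermediateField k B) (hL : ∀ s ∈ S, f s ∈ L)
    {c : A} (hc : IsAlgebraic (adjoin k S) c) : IsAlgebraic L (f c) :=
  isAlgebraic_map_of_le f _ L (adjoin_map_mem f S L hL) hc

lemma ff_isAlgebraic_adjoin {k F : Type*} [Field k] [Field F] [Algebra k F]
    (hF : IsFunctionField k F) {x : F} (hx : Transcendental k x) (f : F) :
    IsAlgebraic k⟮x⟯ f := by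
  have := hF.finiteDimensional hx
  exact Algebra.IsAlgebraic.isAlgebraic f

lemma hom_isAlgebraic {k F Ω : Type*} [Field k] [Field F] [Field Ω] [Algebra k F] [Algebra k Ω]
    (hF : IsFunctionField k F) {x : F} (hx : Transcendental k x) (φ : F →ₐ[k] Ω)
    (L : IntermediateField k Ω) (hL : φ x ∈ L) (f : F) : IsAlgebraic L (φ f) :=
  isAlgebraic_adjoin_map φ {x} L (fun _ hs => by rw [Set.mem_singleton_iff.mp hs]; exact hL)
    (ff_isAlgebraic_adjoin hF hx f)

lemma isAlgebraic_mono {k A : Type*} [Field k] [Field A] [Algebra k A]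
    {K L : IntermediateField k A} (h : K ≤ L) {c : A} (hc : IsAlgebraic K c) : IsAlgebraic L c :=
  isAlgebraic_map_of_le (AlgHom.id k A) K L (fun _ hs => h hs) hc

end transfer

section homog

variable {k Ω F : Type u} [Field k] [Field Ω] [Field F] [Algebra k Ω] [Algebra k F]
  [IsAlgClosed k] [IsAlgClosed Ω]

lemma not_isAlgebraic_last {n : ℕ} {a : Fin (n + 1) → Ω} (ha : AlgebraicIndependent k a) :
    ¬ IsAlgebraic (adjoin k (Set.range fun i : Fin n => a i.castSucc)) (a (Fin.last n)) := by
  have h := ha.transcendental_adjoin (s := Set.range (Fin.castSucc : Fin n → Fin (n + 1)))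
    (i := Fin.last n) (by
      rintro ⟨i, hi⟩
      exact absurd hi (Fin.castSucc_lt_last i).ne)
  rw [← Set.range_comp] at h
  intro hc
  apply h
  exact IntermediateField.isAlgebraic_adjoin_iff.mp hc

/-- homogeneity, for independent families -/
theorem homog_aux (hF : IsFunctionField k F) {x : F} (hx : Transcendental k x) (n : ℕ) :
    ∀ (φ φ' : Fin n → (F →ₐ[k] Ω)), AlgebraicIndependent k (fun i => φ i x) →
      AlgebraicIndependent k (fun i => φ' i x) →
    ∃ (K : Type u) (_ : Field K) (_ : Algebra k K) (_ : IsAlgClosed K) (ψ : Fin n → (F →ₐ[k] K))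
      (α β : K →ₐ[k] Ω), (∀ i, α.comp (ψ i) = φ i) ∧ (∀ i, β.comp (ψ i) = φ' i) ∧
        ∀ z : K, IsAlgebraic (adjoin k (Set.range fun i => ψ i x)) z := by
  induction n with
  | zero =>
    intro φ φ' _ _
    exact ⟨k, inferInstance, inferInstance, inferInstance, fun i => i.elim0, Algebra.ofId k Ω,
      Algebra.ofId k Ω, fun i => i.elim0, fun i => i.elim0, fun z =>
        isAlgebraic_algebraMap (algebraMap k (adjoin k (Set.range fun i : Fin 0 =>
          (i.elim0 : F →ₐ[k] k) x)) z)⟩
  | succ n ih =>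
    intro φ φ' hφ hφ'
    obtain ⟨K, i1, i2, i3, ψ, α, β, hα, hβ, halg⟩ := ih (fun i => φ i.castSucc)
      (fun i => φ' i.castSucc) (hφ.comp _ (Fin.castSucc_injective n))
      (hφ'.comp _ (Fin.castSucc_injective n))
    have key : ∀ (α : K →ₐ[k] Ω) (φ : Fin (n + 1) → (F →ₐ[k] Ω)),
        AlgebraicIndependent k (fun i => φ i x) → (∀ i : Fin n, α.comp (ψ i) = φ i.castSucc) →
        ∀ c : K, α c ≠ φ (Fin.last n) x := by
      intro α φ hφ hα c hc
      apply not_isAlgebraic_last hφ
      rw [← hc]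
      refine isAlgebraic_adjoin_map α _ _ ?_ (halg c)
      rintro _ ⟨i, rfl⟩
      apply subset_adjoin
      exact ⟨i, (DFunLike.congr_fun (hα i) x).symm⟩
    obtain ⟨K', j1, j2, j3, γ, ψl, α', β', h1, h2, h3, h4, h5⟩ := homog_step hF α β
      (φ (Fin.last n)) (φ' (Fin.last n)) (key α φ hφ hα) (key β φ' hφ' hβ)
    refine ⟨K', j1, j2, j3, Fin.snoc (fun i => γ.comp (ψ i)) ψl, α', β', ?_, ?_, ?_⟩
    · intro i
      refine Fin.lastCases ?_ (fun i => ?_) i
      · rw [Fin.snoc_last, h3]
      · rw [Fin.snoc_castSucc, ← AlgHom.comp_assoc, h1, hα]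
    · intro i
      refine Fin.lastCases ?_ (fun i => ?_) i
      · rw [Fin.snoc_last, h4]
      · rw [Fin.snoc_castSucc, ← AlgHom.comp_assoc, h2, hβ]
    · apply h5
      · intro c
        refine isAlgebraic_adjoin_map γ _ _ ?_ (halg c)
        rintro _ ⟨i, rfl⟩
        apply subset_adjoin
        refine ⟨i.castSucc, ?_⟩
        simp only [Fin.snoc_castSucc]
        rfl
      · intro f
        refine hom_isAlgebraic hF hx ψl _ ?_ f
        apply subset_adjoin
        refine ⟨Fin.last n, ?_⟩
        simp only [Fin.snoc_last]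

/-- an algebraically closed subfield contains all algebraic elements -/
lemma mem_range_of_isAlgebraic {K : Type*} [Field K] [Algebra k K] [IsAlgClosed K]
    (α : K →ₐ[k] Ω) (L : IntermediateField k Ω) (hL : ∀ s ∈ L, ∃ c, α c = s) {z : Ω}
    (hz : IsAlgebraic L z) : ∃ c, α c = z := by
  let iK : Algebra K Ω := α.toRingHom.toAlgebra
  have hz' : IsAlgebraic K z := by
    choose g hg using hL
    have hαi : Function.Injective α := α.toRingHom.injective
    let g' : L →+* K := {
      toFun := fun s => g s s.2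
      map_one' := hαi (by rw [hg, map_one]; rfl)
      map_mul' := fun a b => hαi (by rw [hg, map_mul, hg, hg]; rfl)
      map_zero' := hαi (by rw [hg, map_zero]; rfl)
      map_add' := fun a b => hαi (by rw [hg, map_add, hg, hg]; rfl) }
    obtain ⟨p, hp0, hp⟩ := hz
    refine ⟨p.map g', (Polynomial.map_ne_zero_iff g'.injective).mpr hp0, ?_⟩
    rw [aeval_def, eval₂_map]
    have : (algebraMap K Ω).comp g' = algebraMap L Ω := by
      ext s
      exact hg s s.2
    rw [this]
    exact hp
  obtain ⟨c, hc⟩ := exists_const_of_not_transcendental (k := K) (f := z) (not_not.mpr hz')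
  exact ⟨c, hc⟩

/-- **Homogeneity.** Two families of points whose coordinates form transcendence bases are
conjugate. -/
theorem homog (hF : IsFunctionField k F) {x : F} (hx : Transcendental k x) {n : ℕ}
    (φ φ' : Fin n → (F →ₐ[k] Ω)) (hφ : AlgebraicIndependent k (fun i => φ i x))
    (hφ' : AlgebraicIndependent k (fun i => φ' i x))
    (ha : ∀ z : Ω, IsAlgebraic (adjoin k (Set.range fun i => φ i x)) z)
    (ha' : ∀ z : Ω, IsAlgebraic (adjoin k (Set.range fun i => φ' i x)) z) :
    ∃ σ : Ω ≃ₐ[k] Ω, ∀ i f, σ (φ i f) = φ' i f := by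
  obtain ⟨K, i1, i2, i3, ψ, α, β, hα, hβ, -⟩ := homog_aux hF hx n φ φ' hφ hφ'
  have key : ∀ (α : K →ₐ[k] Ω) (φ : Fin n → (F →ₐ[k] Ω)), (∀ i, α.comp (ψ i) = φ i) →
      (∀ z : Ω, IsAlgebraic (adjoin k (Set.range fun i => φ i x)) z) →
      Function.Bijective α := by
    intro α φ hα ha
    refine ⟨α.toRingHom.injective, fun z => ?_⟩
    refine mem_range_of_isAlgebraic α _ ?_ (ha z)
    have h : adjoin k (Set.range fun i => φ i x) ≤ α.fieldRange := by
      rw [adjoin_le_iff]
      rintro _ ⟨i, rfl⟩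
      rw [SetLike.mem_coe, AlgHom.mem_fieldRange]
      exact ⟨ψ i x, DFunLike.congr_fun (hα i) x⟩
    intro s hs
    have := h hs
    rwa [AlgHom.mem_fieldRange] at this
  let α' := AlgEquiv.ofBijective α (key α φ hα ha)
  let β' := AlgEquiv.ofBijective β (key β φ' hβ ha')
  refine ⟨α'.symm.trans β', fun i f => ?_⟩
  have h1 : α' (ψ i f) = φ i f := by
    rw [← hα i]; rfl
  have h2 : β' (ψ i f) = φ' i f := by
    rw [← hβ i]; rfl
  rw [AlgEquiv.trans_apply, ← h1, AlgEquiv.symm_apply_apply, h2]

end homog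

end FF
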