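import Mathlib
import Pool.Agent.Helper17.FF.BaseChange
import Pool.Agent.Helper17.FF.Homog

/-!
# Transport of places by semilinear automorphisms
-/

set_option linter.unusedSectionVars false

namespace FF

open VC WithZero Polynomial IntermediateField
open scoped TensorProduct

universe u

section transport

variable {Ω M : Type u} [Field Ω] [Field M] [Algebra Ω M]

/-- the image of a place under a semilinear automorphism -/
def img (τ : M ≃+* M) (σ : Ω ≃+* Ω) (hτ : ∀ a, τ (algebraMap Ω M a) = algebraMap Ω M (σ a))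
    (Q : Place Ω M) : Place Ω M where
  ring := Q.ring.comap τ.symm.toRingHom
  algebraMap_mem a := by
    rw [ValuationSubring.mem_comap]
    have h : τ.symm.toRingHom (algebraMap Ω M a) = algebraMap Ω M (σ.symm a) := by
      change τ.symm (algebraMap Ω M a) = _
      rw [RingEquiv.symm_apply_eq, hτ, RingEquiv.apply_symm_apply]
    rw [h]
    exact Q.algebraMap_mem _
  ne_top h := by
    apply Q.ne_top
    rw [eq_top_iff]
    intro y _
    have h1 : τ y ∈ Q.ring.comap τ.symm.toRingHom := by rw [h]; exact ValuationSubring.mem_top _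
    rw [ValuationSubring.mem_comap] at h1
    have h2 : τ.symm.toRingHom (τ y) = y := τ.symm_apply_apply y
    rwa [h2] at h1

variable (τ : M ≃+* M) (σ : Ω ≃+* Ω) (hτ : ∀ a, τ (algebraMap Ω M a) = algebraMap Ω M (σ a))

lemma mem_img (Q : Place Ω M) (y : M) : y ∈ (img τ σ hτ Q).ring ↔ τ.symm y ∈ Q.ring := Iff.rfl

lemma mem_img' (Q : Place Ω M) (y : M) : τ y ∈ (img τ σ hτ Q).ring ↔ y ∈ Q.ring := by
  rw [mem_img, RingEquiv.symm_apply_apply]

lemma nonunits_img (Q : Place Ω M) (y : M) :
    τ y ∈ (img τ σ hτ Q).ring.nonunits ↔ y ∈ Q.ring.nonunits := by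
  rw [ValuationSubring.mem_nonunits_iff_or, ValuationSubring.mem_nonunits_iff_or, ← map_inv₀,
    mem_img', map_eq_zero_iff τ τ.injective]

include hτ in
lemma symm_semilinear (a : Ω) : τ.symm (algebraMap Ω M a) = algebraMap Ω M (σ.symm a) := by
  rw [RingEquiv.symm_apply_eq, hτ, RingEquiv.apply_symm_apply]

lemma img_symm (Q : Place Ω M) :
    img τ σ hτ (img τ.symm σ.symm (symm_semilinear τ σ hτ) Q) = Q := by
  ext y
  rw [mem_img, mem_img, RingEquiv.symm_symm, RingEquiv.apply_symm_apply]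

lemma img_injective : Function.Injective (img τ σ hτ) := by
  intro Q Q' h
  ext y
  rw [← mem_img' τ σ hτ, h, mem_img']

/-- the image of a divisor -/
noncomputable def imgDiv : (Place Ω M →₀ ℤ) →+ (Place Ω M →₀ ℤ) :=
  Finsupp.mapDomain.addMonoidHom (img τ σ hτ)

lemma imgDiv_single (Q : Place Ω M) (m : ℤ) :
    imgDiv τ σ hτ (Finsupp.single Q m) = Finsupp.single (img τ σ hτ Q) m := by
  change Finsupp.mapDomain _ _ = _
  rw [Finsupp.mapDomain_single]

lemma imgDiv_apply (D : Place Ω M →₀ ℤ) (Q : Place Ω M) :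
    imgDiv τ σ hτ D (img τ σ hτ Q) = D Q :=
  Finsupp.mapDomain_apply (img_injective τ σ hτ) D Q

variable [IsAlgClosed Ω] (hMF : IsFunctionField Ω M)

include hMF in
theorem ord_img (Q : Place Ω M) (h : M) : ord (img τ σ hτ Q).ring (τ h) = ord Q.ring h := by
  rcases eq_or_ne h 0 with h0 | h0
  · rw [h0, map_zero, ord_zero, ord_zero]
  obtain ⟨t, ht0, ht⟩ := exists_uniformizer hMF Q
  have hτ0 : ∀ y : M, y ≠ 0 → τ y ≠ 0 := fun y hy => (map_ne_zero_iff τ τ.injective).mpr hy
  have hunit : ∀ u : M, u ≠ 0 → ord Q.ring u = 0 → ord (img τ σ hτ Q).ring (τ u) = 0 := by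
    intro u hu0 hu
    have h1 := (ord_nonneg_iff hMF _ (hτ0 u hu0)).mpr ((mem_img' τ σ hτ Q u).mpr
      ((ord_nonneg_iff hMF Q hu0).mp hu.ge))
    have h2 : ¬ 0 < ord (img τ σ hτ Q).ring (τ u) := by
      rw [ord_pos_iff hMF _ (hτ0 u hu0), nonunits_img, ← ord_pos_iff hMF Q hu0, hu]
      exact lt_irrefl _
    omega
  have key : ∀ y : M, y ≠ 0 →
      ord (img τ σ hτ Q).ring (τ y) = ord Q.ring y * ord (img τ σ hτ Q).ring (τ t) := by
    intro y hy
    set m := ord Q.ring y with hm
    have h1 : y = (y / t ^ m) * t ^ m := by rw [div_mul_cancel₀ _ (zpow_ne_zero _ ht0)]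
    have h2 : y / t ^ m ≠ 0 := div_ne_zero hy (zpow_ne_zero _ ht0)
    have h3 : ord Q.ring (y / t ^ m) = 0 := by
      rw [ord_div hMF Q hy (zpow_ne_zero _ ht0), ord_zpow hMF Q ht0, ht]
      ring
    conv_lhs => rw [h1]
    rw [map_mul, map_zpow₀, ord_mul hMF _ (hτ0 _ h2) (zpow_ne_zero _ (hτ0 _ ht0)), hunit _ h2 h3,
      ord_zpow hMF _ (hτ0 _ ht0)]
    ring
  have hpos : 0 < ord (img τ σ hτ Q).ring (τ t) := by
    rw [ord_pos_iff hMF _ (hτ0 t ht0), nonunits_img, ← ord_pos_iff hMF Q ht0, ht]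
    norm_num
  have hone : ord (img τ σ hτ Q).ring (τ t) = 1 := by
    obtain ⟨s, hs0, hs⟩ := exists_uniformizer hMF (img τ σ hτ Q)
    have h1 : τ.symm s ≠ 0 := (map_ne_zero_iff τ.symm τ.symm.injective).mpr hs0
    have h2 := key _ h1
    rw [RingEquiv.apply_symm_apply, hs] at h2
    have h3 : ord (img τ σ hτ Q).ring (τ t) ∣ 1 := ⟨_, by rw [h2]; ring⟩
    have h4 := Int.le_of_dvd one_pos h3
    omega
  rw [key h h0, hone, mul_one]

lemma imgDiv_dv (h : M) : imgDiv τ σ hτ (dv hMF h) = dv hMF (τ h) := by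
  ext Q
  rw [← img_symm τ σ hτ Q, imgDiv_apply, dv_apply, dv_apply, ord_img τ σ hτ hMF]

end transport

section transport2

variable {k Ω F M : Type u} [Field k] [Field Ω] [Field F] [Field M] [Algebra k Ω] [Algebra k F]
  [Algebra Ω M] [Algebra F M] [Algebra k M] [IsScalarTower k Ω M] [IsScalarTower k F M]

lemma Over.img {τ : M ≃+* M} {σ : Ω ≃ₐ[k] Ω}
    (hτ : ∀ a, τ (algebraMap Ω M a) = algebraMap Ω M (σ a))
    (hτ' : ∀ f : F, τ (algebraMap F M f) = algebraMap F M f) {Q : Place Ω M} {P : Place k F}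
    (h : Over Q P) : Over (img τ σ.toRingEquiv hτ Q) P := by
  intro f
  rw [← hτ' f, mem_img', h f]

lemma Gen.img {τ : M ≃+* M} {σ : Ω ≃ₐ[k] Ω}
    (hτ : ∀ a, τ (algebraMap Ω M a) = algebraMap Ω M (σ a))
    (hτ' : ∀ f : F, τ (algebraMap F M f) = algebraMap F M f) {Q : Place Ω M} {φ φ' : F →ₐ[k] Ω}
    (h : Gen Q φ) (hφ : ∀ f, σ (φ f) = φ' f) : Gen (FF.img τ σ.toRingEquiv hτ Q) φ' := by
  intro f
  rw [← hτ' f, ← hφ f, ← hτ, ← map_sub, nonunits_img]
  exact h f

end transport2

section hom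

variable {k Ω F : Type u} [Field k] [Field Ω] [Field F] [Algebra k Ω] [Algebra k F]
  [IsAlgClosed Ω]

/-- existence of points with given transcendental coordinate -/
theorem exists_hom (hF : IsFunctionField k F) {x : F} (hx : Transcendental k x) {b : Ω}
    (hb : Transcendental k b) : ∃ φ : F →ₐ[k] Ω, φ x = b := by
  have hfin := hF.finiteDimensional hx
  let a1 : Algebra k[X] F := (aeval x : k[X] →ₐ[k] F).toRingHom.toAlgebra
  let a2 : Algebra k[X] Ω := (aeval b : k[X] →ₐ[k] Ω).toRingHom.toAlgebra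
  have f1 : Function.Injective (algebraMap k[X] F) := transcendental_iff_injective.mp hx
  have f2 : Function.Injective (algebraMap k[X] Ω) := transcendental_iff_injective.mp hb
  have i1 : FaithfulSMul k[X] F := (faithfulSMul_iff_algebraMap_injective _ _).mpr f1
  have i2 : FaithfulSMul k[X] Ω := (faithfulSMul_iff_algebraMap_injective _ _).mpr f2
  have halg : Algebra.IsAlgebraic k[X] F := by
    refine ⟨fun f => ?_⟩
    have h1 : IsAlgebraic k⟮x⟯ f := Algebra.IsAlgebraic.isAlgebraic f
    have h2 : IsAlgebraic (Algebra.adjoin k {x}) f := isAlgebraic_adjoin_iff.mp h1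
    obtain ⟨p, hp0, hp⟩ := h2
    have hsurj : ∀ s : Algebra.adjoin k {x}, ∃ q : k[X], aeval x q = (s : F) := by
      intro s
      have h3 : (s : F) ∈ (aeval x : k[X] →ₐ[k] F).range := by
        rw [← Algebra.adjoin_singleton_eq_range_aeval]
        exact s.2
      obtain ⟨q, hq⟩ := h3
      exact ⟨q, hq⟩
    choose g hg using hsurj
    have hinj : Function.Injective (aeval x : k[X] →ₐ[k] F) := f1
    let g' : Algebra.adjoin k {x} →+* k[X] := {
      toFun := g
      map_one' := hinj (by rw [hg, map_one]; rfl)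
      map_mul' := fun a b => hinj (by rw [hg, map_mul, hg, hg]; rfl)
      map_zero' := hinj (by rw [hg, map_zero]; rfl)
      map_add' := fun a b => hinj (by rw [hg, map_add, hg, hg]; rfl) }
    have hg'inj : Function.Injective g' := by
      intro s t hst
      apply Subtype.ext
      rw [← hg s, ← hg t]
      exact congrArg _ hst
    refine ⟨p.map g', (Polynomial.map_ne_zero_iff hg'inj).mpr hp0, ?_⟩
    rw [aeval_def, eval₂_map]
    have : (algebraMap k[X] F).comp g' = algebraMap (Algebra.adjoin k {x}) F := by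
      ext s
      exact hg s
    rw [this]
    exact hp
  let φ : F →ₐ[k[X]] Ω := IsAlgClosed.lift
  refine ⟨{ φ with commutes' := fun c => ?_ }, ?_⟩
  · have h1 := φ.commutes (C c)
    have h2 : algebraMap k[X] F (C c) = algebraMap k F c := aeval_C x c
    have h3 : algebraMap k[X] Ω (C c) = algebraMap k Ω c := aeval_C b c
    rw [h2, h3] at h1
    exact h1
  · have h1 := φ.commutes X
    have h2 : algebraMap k[X] F X = x := aeval_X x
    have h3 : algebraMap k[X] Ω X = b := aeval_X b
    rw [h2, h3] at h1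
    exact h1

end hom

section trdeg

variable {k Ω : Type u} [Field k] [Field Ω] [Algebra k Ω]

lemma isAlgebraic_of_algebraicIndependent {g : ℕ} (hg : Algebra.trdeg k Ω = g) {a : Fin g → Ω}
    (ha : AlgebraicIndependent k a) (z : Ω) : IsAlgebraic (adjoin k (Set.range a)) z := by
  have h1 : IsTranscendenceBasis k a :=
    ha.isTranscendenceBasis_of_lift_trdeg_le_of_finite (by rw [hg]; simp)
  exact (h1.isAlgebraic_field).isAlgebraic z

lemma algebraicIndependent_of_isAlgebraic {g : ℕ} (hg : Algebra.trdeg k Ω = g) {a : Fin g → Ω}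
    (ha : ∀ z : Ω, IsAlgebraic (adjoin k (Set.range a)) z) : AlgebraicIndependent k a := by
  have h1 : Algebra.IsAlgebraic (Algebra.adjoin k (Set.range a)) Ω :=
    ⟨fun z => isAlgebraic_adjoin_iff.mp (ha z)⟩
  exact (Algebra.IsAlgebraic.isTranscendenceBasis_of_lift_le_trdeg_of_finite k a
    (by rw [hg]; simp)).1

lemma exists_transcendental {g j : ℕ} (hg : Algebra.trdeg k Ω = g) (hj : j < g) (a : Fin j → Ω) :
    ∃ b : Ω, ¬ IsAlgebraic (adjoin k (Set.range a)) b := by
  by_contra hcon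
  push Not at hcon
  have h1 : Algebra.IsAlgebraic (Algebra.adjoin k (Set.range a)) Ω :=
    ⟨fun z => isAlgebraic_adjoin_iff.mp (hcon z)⟩
  have h2 := Algebra.IsAlgebraic.trdeg_le_cardinalMk k (Set.range a)
  rw [hg] at h2
  have h3 : Cardinal.mk (Set.range a) ≤ j := by
    have := Cardinal.mk_range_le_lift (f := a)
    simpa using this
  have h4 := h2.trans h3
  have h5 : g ≤ j := by exact_mod_cast h4
  omega

lemma algebraicIndependent_snoc {j : ℕ} {a : Fin j → Ω} (ha : AlgebraicIndependent k a) {b : Ω}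
    (hb : ¬ IsAlgebraic (adjoin k (Set.range a)) b) :
    AlgebraicIndependent k (Fin.snoc (α := fun _ => Ω) a b) := by
  have h1 := (ha.option_iff_transcendental b).mpr (fun h => hb (isAlgebraic_adjoin_iff.mpr h))
  have h2 := (algebraicIndependent_equiv (R := k) (finSuccEquivLast (n := j))
    (f := fun o : Option (Fin j) => o.elim b a)).mpr h1
  convert h2 using 1
  funext i
  refine Fin.lastCases ?_ (fun i => ?_) i
  · simp
  · simp

end trdeg

end FF
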