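import Mathlib
import Pool.Agent.Helper17.FF.Transport
import Pool.Agent.SC.Defs2

/-!
# The group of divisor classes of degree zero is divisible
-/

set_option linter.unusedSectionVars false

namespace FF

open VC WithZero Polynomial IntermediateField
open scoped TensorProduct

universe u

section tdiv

variable {Ω M : Type u} [Field Ω] [Field M] [Algebra Ω M]

/-- the divisor of a tuple of points -/
noncomputable def tdiv {n : ℕ} (Q : Fin n → Place Ω M) : Place Ω M →₀ ℤ :=
  ∑ i, Finsupp.single (Q i) 1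

lemma tdiv_nonneg {n : ℕ} (Q : Fin n → Place Ω M) (Q' : Place Ω M) : 0 ≤ tdiv Q Q' := by
  classical
  unfold tdiv
  rw [Finsupp.finsetSum_apply]
  apply Finset.sum_nonneg
  intro i _
  rw [Finsupp.single_apply]
  split_ifs <;> norm_num

lemma deg_tdiv {n : ℕ} (Q : Fin n → Place Ω M) : deg (tdiv Q) = n := by
  unfold tdiv
  rw [map_sum]
  simp

lemma tdiv_snoc {n : ℕ} (Q : Fin n → Place Ω M) (P : Place Ω M) :
    tdiv (Fin.snoc (α := fun _ => Place Ω M) Q P) = tdiv Q + Finsupp.single P 1 := by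
  unfold tdiv
  rw [Fin.sum_univ_castSucc]
  simp

lemma tdiv_ne_zero {n : ℕ} (Q : Fin n → Place Ω M) (i : Fin n) : tdiv Q (Q i) ≠ 0 := by
  classical
  have h : (1 : ℤ) ≤ tdiv Q (Q i) := by
    unfold tdiv
    rw [Finsupp.finsetSum_apply]
    refine le_trans ?_ (Finset.single_le_sum (f := fun j => (Finsupp.single (Q j) (1 : ℤ)) (Q i))
      (fun j _ => ?_) (Finset.mem_univ i))
    · simp
    · simp only [Finsupp.single_apply]
      split_ifs <;> norm_num
  omega

lemma exists_of_tdiv_ne_zero {n : ℕ} {Q : Fin n → Place Ω M} {Q' : Place Ω M}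
    (h : tdiv Q Q' ≠ 0) : ∃ i, Q i = Q' := by
  classical
  by_contra hcon
  push Not at hcon
  apply h
  unfold tdiv
  rw [Finsupp.finsetSum_apply]
  apply Finset.sum_eq_zero
  intro i _
  rw [Finsupp.single_apply, if_neg (hcon i)]

lemma exists_tdiv (n : ℕ) : ∀ E : Place Ω M →₀ ℤ, (∀ Q, 0 ≤ E Q) → deg E = n →
    ∃ Q : Fin n → Place Ω M, E = tdiv Q := by
  classical
  induction n with
  | zero =>
    intro E hE hdeg
    refine ⟨fun i => i.elim0, ?_⟩
    rw [eq_zero_of_deg hE (by simpa using hdeg)]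
    unfold tdiv
    simp
  | succ n ih =>
    intro E hE hdeg
    obtain ⟨P, hP⟩ := exists_pos_of_deg (D := E) (by rw [hdeg]; positivity)
    obtain ⟨Q, hQ⟩ := ih (E - Finsupp.single P 1) (by
      intro Q
      rw [Finsupp.sub_apply, Finsupp.single_apply]
      have := hE Q
      split_ifs with h
      · subst h; omega
      · omega) (by
      rw [map_sub, deg_single, hdeg]
      push_cast
      ring)
    exact ⟨Fin.snoc (α := fun _ => Place Ω M) Q P, by rw [tdiv_snoc, ← hQ, sub_add_cancel]⟩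

lemma imgDiv_tdiv (τ : M ≃+* M) (σ : Ω ≃+* Ω)
    (hτ : ∀ a, τ (algebraMap Ω M a) = algebraMap Ω M (σ a)) {n : ℕ} (Q : Fin n → Place Ω M) :
    imgDiv τ σ hτ (tdiv Q) = tdiv (fun i => img τ σ hτ (Q i)) := by
  unfold tdiv
  rw [map_sum]
  simp only [imgDiv_single]

end tdiv

section effective

variable {k F : Type u} [Field k] [IsAlgClosed k] [Field F] [Algebra k F]
  (hF : IsFunctionField k F)

include hF

/-- A divisor with `l(X) > 0` is linearly equivalent to an effective one. -/
lemma exists_effective {X : Place k F →₀ ℤ} (hX : 0 < ell X) :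
    ∃ (E : Place k F →₀ ℤ) (h : F), h ≠ 0 ∧ (∀ P, 0 ≤ E P) ∧ E = X + dv hF h := by
  have hfd := finite_rr hF X
  have hne : riemannRochSpace k F X ≠ ⊥ := by
    intro h
    unfold ell at hX
    rw [h, finrank_bot] at hX
    exact lt_irrefl _ hX
  obtain ⟨z, hz, hz0⟩ := Submodule.exists_mem_ne_zero_of_ne_bot hne
  refine ⟨X + dv hF z, z, hz0, fun P => ?_, rfl⟩
  rw [mem_rr hF _ hz0] at hz
  have := hz P
  rw [Finsupp.add_apply, dv_apply]
  omega

lemma ell_le_one_of_deg_zero {X : Place k F →₀ ℤ} (hX : deg X = 0) : ell X ≤ 1 := by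
  rcases Nat.eq_zero_or_pos (ell X) with h | h
  · omega
  · obtain ⟨E, z, hz, hE, hE'⟩ := exists_effective hF h
    have h1 : deg E = 0 := by rw [hE', map_add, hX, deg_dv hF hz, add_zero]
    have h2 := eq_zero_of_deg hE h1
    have h3 := ell_add_dv hF X hz
    rw [← hE', h2, ell_zero hF] at h3
    omega

/-- Adding general points of an infinite set makes the class non-special. -/
lemma exists_add_points {g : ℕ} (hg : IsGenus k F g) (S : Set (Place k F)) (hS : S.Infinite)
    {X : Place k F →₀ ℤ} (hX : deg X = 0) (j : ℕ) (hj : j ≤ g) :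
    ∃ B : Place k F →₀ ℤ, (∀ P, 0 ≤ B P) ∧ (∀ P, B P ≠ 0 → P ∈ S) ∧ deg B = j ∧
      ell (X + B) ≤ 1 := by
  classical
  induction j with
  | zero =>
    refine ⟨0, fun P => le_rfl, fun P h => absurd rfl h, by simp, ?_⟩
    rw [add_zero]
    exact ell_le_one_of_deg_zero hF hX
  | succ j ih =>
    obtain ⟨B, hB0, hBS, hBdeg, hB1⟩ := ih (by omega)
    have hadd : ∀ P ∈ S, (∀ Q, 0 ≤ (B + Finsupp.single P 1 : Place k F →₀ ℤ) Q) ∧
        (∀ Q, (B + Finsupp.single P 1 : Place k F →₀ ℤ) Q ≠ 0 → Q ∈ S) ∧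
        deg (B + Finsupp.single P 1) = ((j + 1 : ℕ) : ℤ) := by
      intro P hP
      refine ⟨fun Q => ?_, fun Q hQ => ?_, ?_⟩
      · have := hB0 Q
        rw [Finsupp.add_apply, Finsupp.single_apply]
        split_ifs <;> omega
      · rw [Finsupp.add_apply, Finsupp.single_apply] at hQ
        split_ifs at hQ with h
        · exact h ▸ hP
        · exact hBS Q (by simpa using hQ)
      · rw [map_add, hBdeg, deg_single]
        push_cast
        ring
    rcases Nat.eq_zero_or_pos (ell (X + B)) with h | h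
    · obtain ⟨P, hP⟩ := hS.nonempty
      obtain ⟨h1, h2, h3⟩ := hadd P hP
      refine ⟨_, h1, h2, h3, ?_⟩
      have h4 := ell_add_single hF (X + B) P
      rw [← add_assoc]
      omega
    · obtain ⟨P, hP, hP'⟩ := exists_drop hF hg (X + B) (by
        rw [map_add, hX, hBdeg]
        have : ell (X + B) = 1 := by omega
        rw [this]
        push_cast
        omega) S hS
      obtain ⟨h1, h2, h3⟩ := hadd P hP
      refine ⟨_, h1, h2, h3, ?_⟩
      rw [← add_assoc, hP']
      exact hB1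

end effective

section main

variable {k Ω F M : Type u} [Field k] [Field Ω] [Field F] [Field M] [Algebra k Ω] [Algebra k F]
  [Algebra Ω M] [Algebra F M] [Algebra k M] [IsScalarTower k Ω M] [IsScalarTower k F M]

/-- a tuple of independent generic points -/
structure IndTuple (x : F) {n : ℕ} (Q : Fin n → Place Ω M) (φ : Fin n → (F →ₐ[k] Ω)) : Prop where
  gen : ∀ i, Gen (Q i) (φ i)
  ind : AlgebraicIndependent k fun i => φ i x

variable [IsAlgClosed k] [IsAlgClosed Ω] [CharZero k] (hM : IsConstExt k Ω F M)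
  (hF : IsFunctionField k F) {x : F} (hx : Transcendental k x) {g : ℕ} (hg : IsGenus k F g)
  (htr : Algebra.trdeg k Ω = g)

include hM hF hx hg htr

/-- existence of general tuples of independent generic points -/
theorem exists_tuple (j : ℕ) (hj : j ≤ g) : ∃ (Q : Fin j → Place Ω M) (φ : Fin j → (F →ₐ[k] Ω)),
    IndTuple x Q φ ∧ ell (tdiv Q) = 1 := by
  have hMF := hM.isFunctionField hF
  have hgM := isGenus_constExt hM hF hg
  have hc : CharZero Ω := charZero_of_injective_algebraMap (algebraMap k Ω).injective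
  induction j with
  | zero =>
    refine ⟨fun i => i.elim0, fun i => i.elim0, ⟨fun i => i.elim0, ?_⟩, ?_⟩
    · rw [algebraicIndependent_empty_type_iff]
      exact (algebraMap k Ω).injective
    · unfold tdiv
      simp [ell_zero hMF]
  | succ j ih =>
    obtain ⟨Q, φ, hQ, hell⟩ := ih (by omega)
    obtain ⟨b, hb⟩ := exists_transcendental htr (show j < g by omega) (fun i => φ i x)
    have hb' : ∀ m : ℕ, ¬ IsAlgebraic (adjoin k (Set.range fun i => φ i x)) (b + m) := by
      intro m hm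
      apply hb
      have h1 := hm.sub (isAlgebraic_algebraMap
        (R := adjoin k (Set.range fun i => φ i x)) (A := Ω) (m : adjoin k (Set.range fun i => φ i x)))
      rwa [map_natCast, add_sub_cancel_right] at h1
    have hbk : ∀ m : ℕ, Transcendental k (b + m) := fun m hm => hb' m (by
      have := hm.extendScalars (S := adjoin k (Set.range fun i => φ i x))
        (algebraMap k (adjoin k (Set.range fun i => φ i x))).injective
      exact this)
    choose ψ hψ using fun m : ℕ => exists_hom (Ω := Ω) hF hx (hbk m)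
    choose R hR using fun m : ℕ => hM.exists_gen hF (ψ m)
    have hRinj : Function.Injective R := by
      intro m m' h
      have h1 := (hR m).unique (h ▸ hR m')
      have h2 : b + (m : Ω) = b + m' := by rw [← hψ m, ← hψ m', h1]
      exact_mod_cast add_left_cancel h2
    obtain ⟨P, ⟨m, rfl⟩, hP⟩ := exists_drop hMF hgM (tdiv Q) (by
      rw [deg_tdiv, hell]
      push_cast
      omega) (Set.range R) (Set.infinite_range_of_injective hRinj)
    refine ⟨Fin.snoc (α := fun _ => Place Ω M) Q (R m), Fin.snoc (α := fun _ => F →ₐ[k] Ω) φ (ψ m),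
      ⟨fun i => ?_, ?_⟩, ?_⟩
    · refine Fin.lastCases ?_ (fun i => ?_) i
      · simp only [Fin.snoc_last]; exact hR m
      · simp only [Fin.snoc_castSucc]; exact hQ.gen i
    · have h1 := algebraicIndependent_snoc hQ.ind (hb' m)
      convert h1 using 1
      funext i
      refine Fin.lastCases ?_ (fun i => ?_) i
      · simp only [Fin.snoc_last]; exact hψ m
      · simp only [Fin.snoc_castSucc]
    · rw [tdiv_snoc, hP, hell]

omit hg in
/-- An effective divisor from which a general tuple can be recovered is the divisor of a tuple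
of independent generic points. -/
theorem rigid_tuple {Q : Fin g → Place Ω M} {φ : Fin g → (F →ₐ[k] Ω)} (hQ : IndTuple x Q φ)
    (hell : ell (tdiv Q) = 1) {n : ℕ} (hn : n ≠ 0) {E A : Place Ω M →₀ ℤ} (hE : ∀ Q, 0 ≤ E Q)
    (hdeg : deg E = g) (hA : ∀ Q (φ : F →ₐ[k] Ω), Gen Q φ → A Q = 0) {h : M} (hh : h ≠ 0)
    (hdiv : dv (hM.isFunctionField hF) h = n • tdiv Q - (E + A)) :
    ∃ (Q' : Fin g → Place Ω M) (φ' : Fin g → (F →ₐ[k] Ω)), IndTuple x Q' φ' ∧ E = tdiv Q' := by
  classical
  have hMF := hM.isFunctionField hF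
  obtain ⟨Q', hQ'⟩ := exists_tdiv g E hE hdeg
  let a : Fin g → Ω := fun i => if hi : ∃ φ : F →ₐ[k] Ω, Gen (Q' i) φ then hi.choose x else 0
  have ha : ∀ i (φ : F →ₐ[k] Ω), Gen (Q' i) φ → a i = φ x := by
    intro i φ hφ
    have hi : ∃ φ : F →ₐ[k] Ω, Gen (Q' i) φ := ⟨φ, hφ⟩
    simp only [a, dif_pos hi]
    rw [hi.choose_spec.unique hφ]
  let L := adjoin k (Set.range a)
  let K : IntermediateField k Ω := (algebraicClosure L Ω).restrictScalars k
  have hKmem : ∀ z : Ω, z ∈ K ↔ IsAlgebraic L z := fun z => mem_algebraicClosure_iff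
  have hLK : ∀ z : L, (z : Ω) ∈ K := fun z => (hKmem z).mpr (isAlgebraic_algebraMap z)
  have hK : ∀ z : Ω, IsAlgebraic K z → z ∈ K := by
    intro z hz
    rw [hKmem]
    have h1 : IsAlgebraic (algebraicClosure L Ω) z := hz
    have h2 : IsIntegral L z := isIntegral_trans (R := L) (A := algebraicClosure L Ω) z
      h1.isIntegral
    exact h2.isAlgebraic
  have h1 := rigidity hM hF K (fun z hz => fun h => hz (hK z h)) (tdiv_nonneg Q) hell hn
    (A := E + A) (fun R hR => ?_) hh (fun R => by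
      rw [← dv_apply hMF, hdiv, Finsupp.sub_apply, Finsupp.smul_apply, nsmul_eq_mul])
  · -- the coordinates of the tuple are in `K`
    have h2 : ∀ i, φ i x ∈ K := fun i => h1 (Q i) (tdiv_ne_zero Q i) (φ i) (hQ.gen i) x
    have h3 : ∀ z : Ω, IsAlgebraic L z := by
      intro z
      rw [← hKmem]
      apply hK
      refine isAlgebraic_mono ?_ (isAlgebraic_of_algebraicIndependent htr hQ.ind z)
      rw [adjoin_le_iff]
      rintro _ ⟨i, rfl⟩
      exact h2 i
    have h4 := algebraicIndependent_of_isAlgebraic htr h3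
    have h5 : ∀ i, ∃ φ : F →ₐ[k] Ω, Gen (Q' i) φ := by
      intro i
      by_contra hcon
      have h6 := h4.transcendental i
      have h7 : a i = 0 := by simp only [a, dif_neg hcon]
      rw [h7] at h6
      exact h6 isAlgebraic_zero
    choose φ' hφ' using h5
    refine ⟨Q', φ', ⟨hφ', ?_⟩, hQ'⟩
    convert h4 using 1
    funext i
    exact (ha i _ (hφ' i)).symm
  · intro φ₁ hφ₁ f
    have hAR := hA R φ₁ hφ₁
    rw [Finsupp.add_apply, hAR, add_zero, hQ'] at hR
    obtain ⟨i, rfl⟩ := exists_of_tdiv_ne_zero hR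
    rw [hKmem]
    apply hom_isAlgebraic hF hx φ₁ L
    rw [← ha i φ₁ hφ₁]
    exact subset_adjoin k _ ⟨i, rfl⟩

/-- The class of a tuple of independent generic points is divisible. -/
theorem tuple_divisible {Q' : Fin g → Place Ω M} {φ' : Fin g → (F →ₐ[k] Ω)}
    (hQ' : IndTuple x Q' φ') (P₀ : Place k F) {n : ℕ} (hn : n ≠ 0) :
    ∃ (Y : Place Ω M →₀ ℤ) (h : M), h ≠ 0 ∧
      tdiv Q' - g • Finsupp.single (ab hM hF P₀) 1 = n • Y + dv (hM.isFunctionField hF) h := by
  have hMF := hM.isFunctionField hF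
  have hgM := isGenus_constExt hM hF hg
  obtain ⟨Q, φ, hQ, hell⟩ := exists_tuple hM hF hx hg htr g le_rfl
  set Q₀ := ab hM hF P₀ with hQ₀
  have hdegX : deg (n • (tdiv Q - g • Finsupp.single Q₀ 1) + g • Finsupp.single Q₀ 1) = g := by
    rw [map_add, map_nsmul, map_sub, map_nsmul, deg_tdiv, deg_single]
    simp
  obtain ⟨E, h, hh, hE, hE'⟩ := exists_effective hMF
    (X := n • (tdiv Q - g • Finsupp.single Q₀ 1) + g • Finsupp.single Q₀ 1) (by
      have := ell_ge hgM (n • (tdiv Q - g • Finsupp.single Q₀ 1) + g • Finsupp.single Q₀ 1)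
      rw [hdegX] at this
      have h2 : (0 : ℤ) < ell (n • (tdiv Q - g • Finsupp.single Q₀ 1) + g • Finsupp.single Q₀ 1) := by
        linarith
      exact_mod_cast h2)
  have hdegE : deg E = g := by
    rw [hE', map_add, hdegX, deg_dv hMF hh, add_zero]
  obtain ⟨Q'', φ'', hQ'', hEQ⟩ := rigid_tuple hM hF hx htr hQ hell hn hE hdegE
    (A := n • (g • Finsupp.single Q₀ 1) - g • Finsupp.single Q₀ 1) (by
      intro R φ₁ hφ₁
      classical
      have : Q₀ ≠ R := by
        rintro rfl
        exact not_over_of_gen hφ₁ (ab_over hM hF P₀)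
      simp [this]) (h := h⁻¹) (inv_ne_zero hh) (by
      rw [dv_inv hMF hh, hE', smul_sub]
      abel)
  obtain ⟨σ, hσ⟩ := homog hF hx φ'' φ' hQ''.ind hQ'.ind
    (isAlgebraic_of_algebraicIndependent htr hQ''.ind)
    (isAlgebraic_of_algebraicIndependent htr hQ'.ind)
  obtain ⟨τ, hτ, hτ'⟩ := hM.exists_aut σ
  have hτQ : ∀ i, img τ σ.toRingEquiv hτ (Q'' i) = Q' i := fun i =>
    Gen.eq hM hF ((hQ''.gen i).img hτ hτ' (hσ i)) (hQ'.gen i)
  have hτQ₀ : img τ σ.toRingEquiv hτ Q₀ = Q₀ :=
    Over.eq hM hF ((ab_over hM hF P₀).img hτ hτ') (ab_over hM hF P₀)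
  refine ⟨imgDiv τ σ.toRingEquiv hτ (tdiv Q - g • Finsupp.single Q₀ 1), τ h,
    (map_ne_zero_iff τ τ.injective).mpr hh, ?_⟩
  rw [← imgDiv_dv τ σ.toRingEquiv hτ hMF, ← map_nsmul, ← map_add]
  have e1 : n • (tdiv Q - g • Finsupp.single Q₀ 1) + dv hMF h =
      tdiv Q'' - g • Finsupp.single Q₀ 1 := by
    rw [← hEQ, hE']
    abel
  rw [e1, map_sub, imgDiv_tdiv, map_nsmul, imgDiv_single, hτQ₀]
  congr 2
  funext i
  exact (hτQ i).symm

/-- Divisors of degree zero coming from `F` are divisible over `M`. -/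
theorem lift_divisible {D : Place k F →₀ ℤ} (hD : deg D = 0) {n : ℕ} (hn : n ≠ 0) :
    ∃ (Y : Place Ω M →₀ ℤ) (h : M), h ≠ 0 ∧
      lift hM hF D = n • Y + dv (hM.isFunctionField hF) h := by
  have hMF := hM.isFunctionField hF
  have hgM := isGenus_constExt hM hF hg
  have := infinite_place hF
  obtain ⟨P₀⟩ : Nonempty (Place k F) := inferInstance
  obtain ⟨Q, φ, hQ, hell⟩ := exists_tuple hM hF hx hg htr g le_rfl
  have hdegX : deg (lift hM hF D + tdiv Q) = g := by
    rw [map_add, deg_lift, hD, deg_tdiv, zero_add]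
  obtain ⟨E, h, hh, hE, hE'⟩ := exists_effective hMF (X := lift hM hF D + tdiv Q) (by
    have := ell_ge hgM (lift hM hF D + tdiv Q)
    rw [hdegX] at this
    have h2 : (0 : ℤ) < ell (lift hM hF D + tdiv Q) := by linarith
    exact_mod_cast h2)
  have hdegE : deg E = g := by
    rw [hE', map_add, hdegX, deg_dv hMF hh, add_zero]
  obtain ⟨Q', φ', hQ', hEQ⟩ := rigid_tuple hM hF hx htr hQ hell (n := 1) one_ne_zero hE hdegE
    (A := - lift hM hF D) (by
      intro R φ₁ hφ₁
      rw [Finsupp.neg_apply, lift_gen hM hF D hφ₁, neg_zero]) (h := h⁻¹) (inv_ne_zero hh) (by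
      rw [dv_inv hMF hh, hE', one_smul]
      abel)
  obtain ⟨Y₁, h₁, hh₁, e₁⟩ := tuple_divisible hM hF hx hg htr hQ P₀ hn
  obtain ⟨Y₂, h₂, hh₂, e₂⟩ := tuple_divisible hM hF hx hg htr hQ' P₀ hn
  refine ⟨Y₂ - Y₁, h₂ / h₁ / h, div_ne_zero (div_ne_zero hh₂ hh₁) hh, ?_⟩
  rw [dv_div hMF (div_ne_zero hh₂ hh₁) hh, dv_div hMF hh₂ hh₁, smul_sub]
  have e3 : lift hM hF D = tdiv Q' - tdiv Q - dv hMF h := by
    rw [← hEQ, hE']
    abel
  have e4 : tdiv Q' - tdiv Q = (tdiv Q' - g • Finsupp.single (ab hM hF P₀) 1) -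
      (tdiv Q - g • Finsupp.single (ab hM hF P₀) 1) := by abel
  rw [e3, e4, e₁, e₂]
  abel

omit hx htr in
/-- Descent of divisibility. -/
theorem divisible_descent {D : Place k F →₀ ℤ} (hD : deg D = 0) {n : ℕ} (hn : n ≠ 0)
    {Y : Place Ω M →₀ ℤ} {h : M} (hh : h ≠ 0)
    (hY : lift hM hF D = n • Y + dv (hM.isFunctionField hF) h) :
    ∃ (D' : Place k F →₀ ℤ) (c : F), c ≠ 0 ∧ ∀ P, D P = n * D' P + ord P.ring c := by
  classical
  have hMF := hM.isFunctionField hF
  have hgM := isGenus_constExt hM hF hg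
  have hinf := infinite_place hF
  obtain ⟨x, hx, -⟩ := id hF
  have hdegY : deg Y = 0 := by
    have h1 := congrArg deg hY
    rw [deg_lift, hD, map_add, map_nsmul, deg_dv hMF hh, add_zero, nsmul_eq_mul] at h1
    rcases mul_eq_zero.mp h1.symm with h2 | h2
    · exact absurd (by exact_mod_cast h2) hn
    · exact h2
  obtain ⟨B, hB0, hBS, hBdeg, hB1⟩ := exists_add_points hMF hgM (Set.range (ab hM hF))
    (Set.infinite_range_of_injective (ab_injective hM hF)) hdegY g le_rfl
  have hell1 : (1 : ℤ) ≤ ell (Y + B) := by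
    have := ell_ge hgM (Y + B)
    rw [map_add, hdegY, hBdeg] at this
    linarith
  obtain ⟨B', h', hh', hB'0, hB'⟩ := exists_effective hMF (X := Y + B) (by
    have : (0 : ℤ) < ell (Y + B) := by linarith
    exact_mod_cast this)
  have hellB' : ell B' = 1 := by
    rw [hB', ell_add_dv hMF _ hh']
    have : 1 ≤ ell (Y + B) := by exact_mod_cast hell1
    omega
  have hgenB : ∀ Q (φ : F →ₐ[k] Ω), Gen Q φ → B Q = 0 := by
    intro Q φ hφ
    by_contra hne
    obtain ⟨P, rfl⟩ := hBS Q hne
    exact not_over_of_gen hφ (ab_over hM hF P)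
  -- the function
  have hH : h' ^ n / h ≠ 0 := div_ne_zero (pow_ne_zero _ hh') hh
  have hdvH : dv hMF (h' ^ n / h) = n • B' - (n • B + lift hM hF D) := by
    rw [dv_div hMF (pow_ne_zero _ hh') hh, dv_pow hMF hh', hB', hY, smul_add, smul_add]
    abel
  have hbot : ∀ a : Ω, a ∉ (⊥ : IntermediateField k Ω) →
      Transcendental (⊥ : IntermediateField k Ω) a := by
    intro a ha halg
    apply ha
    have h1 : IsAlgebraic k a := by
      have h2 : Algebra.IsAlgebraic k (⊥ : IntermediateField k Ω) := inferInstance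
      exact (isIntegral_trans (R := k) (A := (⊥ : IntermediateField k Ω)) a
        halg.isIntegral).isAlgebraic
    obtain ⟨c, hc⟩ := exists_const_of_not_transcendental (k := k) (f := a) (not_not.mpr h1)
    rw [IntermediateField.mem_bot]
    exact ⟨c, hc⟩
  have hrig := rigidity hM hF ⊥ hbot hB'0 hellB' hn (A := n • B + lift hM hF D) (by
    intro Q hQ φ hφ
    exfalso
    apply hQ
    rw [Finsupp.add_apply, Finsupp.smul_apply, hgenB Q φ hφ, smul_zero, lift_gen hM hF D hφ,
      add_zero]) hH (fun Q => by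
      rw [← dv_apply hMF, hdvH, Finsupp.sub_apply, Finsupp.smul_apply, nsmul_eq_mul])
  have hgenB' : ∀ Q (φ : F →ₐ[k] Ω), Gen Q φ → B' Q = 0 := by
    intro Q φ hφ
    by_contra hne
    have h1 := hrig Q hne φ hφ x
    rw [IntermediateField.mem_bot] at h1
    obtain ⟨c, hc⟩ := h1
    apply hx
    have h2 : x = algebraMap k F c := by
      apply φ.toRingHom.injective
      change φ x = φ (algebraMap k F c)
      rw [AlgHom.commutes, hc]
    rw [h2]
    exact isAlgebraic_algebraMap c
  obtain ⟨c, f, hc0, hf0, hcf⟩ := principal_descent hM hF hH (fun Q hQ => by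
    rcases hM.over_or_gen hF Q with ⟨P, hP⟩ | ⟨φ, hφ⟩
    · exact ⟨P, hP⟩
    · exfalso
      apply hQ
      rw [← dv_apply hMF, hdvH, Finsupp.sub_apply, Finsupp.add_apply, Finsupp.smul_apply,
        Finsupp.smul_apply, hgenB Q φ hφ, hgenB' Q φ hφ, lift_gen hM hF D hφ]
      simp)
  refine ⟨(B' - B).comapDomain (ab hM hF) (ab_injective hM hF).injOn, f⁻¹, inv_ne_zero hf0,
    fun P => ?_⟩
  have h1 := DFunLike.congr_fun hdvH (ab hM hF P)
  rw [dv_apply, hcf, ord_mul hMF _ ((_root_.map_ne_zero _).mpr hc0)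
    ((_root_.map_ne_zero _).mpr hf0), ord_algebraMap hMF _ hc0, zero_add,
    Over.ord_eq hM hF (ab_over hM hF P), Finsupp.sub_apply, Finsupp.add_apply, Finsupp.smul_apply,
    Finsupp.smul_apply, lift_ab, nsmul_eq_mul, nsmul_eq_mul] at h1
  rw [Finsupp.comapDomain_apply, Finsupp.sub_apply, ord_inv hF P hf0, h1]
  ring

end main

lemma trdeg_closure (k : Type u) [Field k] (g : ℕ) :
    Algebra.trdeg k (AlgebraicClosure (FractionRing (MvPolynomial (Fin g) k))) = g := by
  have h1 : IsTranscendenceBasis k (MvPolynomial.X (R := k) (σ := Fin g)) :=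
    IsTranscendenceBasis.mvPolynomial _ _
  have h2 : Algebra.IsAlgebraic (MvPolynomial (Fin g) k) (FractionRing (MvPolynomial (Fin g) k)) :=
    IsLocalization.isAlgebraic _ (nonZeroDivisors _)
  have h3 := h1.algebraMap_comp (A := FractionRing (MvPolynomial (Fin g) k))
  have h4 := h3.algebraMap_comp (A := AlgebraicClosure (FractionRing (MvPolynomial (Fin g) k)))
  have h5 := h4.lift_cardinalMk_eq_trdeg
  simpa using h5.symm

/-- The group of divisor classes of degree zero is divisible. -/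
theorem picDiv {k F : Type u} [Field k] [IsAlgClosed k] [CharZero k] [Field F] [Algebra k F]
    (hF : IsFunctionField k F) : Pool.Agent.SC.PicDiv k F := by
  intro n hn D hD
  obtain ⟨g, hg⟩ := exists_genus hF
  obtain ⟨x, hx, -⟩ := id hF
  let Ω := AlgebraicClosure (FractionRing (MvPolynomial (Fin g) k))
  have htr : Algebra.trdeg k Ω = g := trdeg_closure k g
  obtain ⟨M, i1, i2, i3, i4, i5, i6, hM⟩ := exists_constExt k Ω F
  rw [← deg_eq] at hD
  obtain ⟨Y, h, hh, hY⟩ := lift_divisible hM hF hx hg htr hD hn.ne'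
  exact divisible_descent hM hF hg hD hn.ne' hh hY

/-- Riemann's inequality. -/
theorem riemann {k F : Type u} [Field k] [IsAlgClosed k] [Field F] [Algebra k F]
    (hF : IsFunctionField k F) : Pool.Agent.SC.Riemann k F := by
  obtain ⟨g, hg⟩ := exists_genus hF
  exact ⟨g, hg.1⟩

end FF
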